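import Mathlib
import Pool.Agent.CF24.Defs
import Pool.Agent.CF24.Lower

namespace Pool.Agent.H68.CF4

open Pool.Agent.CF24 Filter Topology

/-- the pull back of a set of words under a map of alphabets -/
def pull {k m n : ℕ} (φ : Fin n → Fin m) (D : Finset (Fin k → Fin m)) : Finset (Fin k → Fin n) :=
  Finset.univ.filter (fun w => (φ ∘ w) ∈ D)

lemma commaFree_pull {k m n : ℕ} (φ : Fin n → Fin m) (D : Finset (Fin k → Fin m))
    (hD : CommaFree D) : CommaFree (pull φ D) := by
  intro a ha b hb c hc i hi1 hi2 heq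
  simp only [pull, Finset.mem_filter, Finset.mem_univ, true_and] at ha hb hc
  apply hD _ ha _ hb _ hc i hi1 hi2
  have h1 : ∀ w : Fin k → Fin n, List.ofFn (φ ∘ w) = (List.ofFn w).map φ := by
    intro w
    rw [List.map_ofFn]
  rw [h1, h1, h1, heq, List.map_append, List.map_drop, List.map_take]

lemma card_pull {k m n : ℕ} (φ : Fin n → Fin m) (D : Finset (Fin k → Fin m)) :
    (pull φ D).card = ∑ w ∈ D, ∏ i, (Finset.univ.filter (fun x => φ x = w i)).card := by
  have hmap : ∀ x ∈ pull φ D, (fun w : Fin k → Fin n => φ ∘ w) x ∈ D := by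
    intro x hx
    simpa [pull] using hx
  rw [Finset.card_eq_sum_card_fiberwise hmap]
  refine Finset.sum_congr rfl ?_
  intro w hw
  rw [← Fintype.card_piFinset]
  congr 1
  ext x
  simp only [pull, Finset.mem_filter, Finset.mem_univ, true_and, Fintype.mem_piFinset]
  constructor
  · rintro ⟨_, h⟩ i
    exact congrFun h i
  · intro h
    have : φ ∘ x = w := funext h
    exact ⟨this ▸ hw, this⟩

/-- the type of a residue -/
lemma fiber_mod {N m n : ℕ} (hN : 0 < N) (ty : Fin N → Fin m) (j : Fin m) :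
    (n / N) * (Finset.univ.filter (fun x => ty x = j)).card ≤
      (Finset.univ.filter (fun x : Fin n => ty ⟨x.val % N, Nat.mod_lt _ hN⟩ = j)).card := by
  have h1 : (n / N) * (Finset.univ.filter (fun x => ty x = j)).card =
    ((Finset.univ : Finset (Fin (n / N))) ×ˢ (Finset.univ.filter (fun x => ty x = j))).card := by
    rw [Finset.card_product]
    simp
  rw [h1]
  have hlt : ∀ (q : Fin (n / N)) (y : Fin N), N * q.val + y.val < n := by
    intro q y
    have h2 := q.isLt
    have h3 := y.isLt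
    have h4 : N * (q.val + 1) ≤ N * (n / N) := Nat.mul_le_mul_left _ h2
    have h5 : N * (n / N) ≤ n := Nat.mul_div_le n N
    rw [Nat.mul_add, Nat.mul_one] at h4
    omega
  refine Finset.card_le_card_of_injOn
    (fun p => (⟨N * p.1.val + p.2.val, hlt p.1 p.2⟩ : Fin n)) ?_ ?_
  · rintro ⟨q, y⟩ hp
    simp only [Finset.coe_product, Finset.coe_univ, Finset.coe_filter, Finset.mem_univ, true_and,
      Set.mem_prod, Set.mem_univ, Set.mem_ofPred_eq] at hp
    simp only [Finset.coe_filter, Finset.mem_univ, true_and, Set.mem_ofPred_eq]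
    rw [← hp]
    congr 1
    apply Fin.ext
    simp [Nat.mod_eq_of_lt y.isLt]
  · rintro ⟨q, y⟩ _ ⟨q', y'⟩ _ h
    have h0 : N * q.val + y.val = N * q'.val + y'.val := congrArg Fin.val h
    have e1 : y.val = y'.val := by
      have := congrArg (· % N) h0
      simpa [Nat.mul_add_mod, Nat.mod_eq_of_lt y.isLt, Nat.mod_eq_of_lt y'.isLt] using this
    have e2 : q.val = q'.val := by
      rw [e1] at h0
      exact Nat.eq_of_mul_eq_mul_left hN (by omega)
    rw [Prod.mk.injEq]
    exact ⟨Fin.ext e2, Fin.ext e1⟩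

lemma W_ge {k N m : ℕ} (hN : 0 < N) (ty : Fin N → Fin m) (D : Finset (Fin k → Fin m))
    (hD : CommaFree D) (n : ℕ) :
    (n / N) ^ k * (∑ w ∈ D, ∏ i, (Finset.univ.filter (fun x => ty x = w i)).card) ≤ W k n := by
  have h1 := card_le_W _ (commaFree_pull (fun x : Fin n => ty ⟨x.val % N, Nat.mod_lt _ hN⟩) D hD)
  rw [card_pull] at h1
  refine le_trans ?_ h1
  rw [Finset.mul_sum]
  refine Finset.sum_le_sum ?_
  intro w _
  have h2 : (n / N) ^ k * ∏ i, (Finset.univ.filter (fun x => ty x = w i)).card =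
      ∏ i : Fin k, ((n / N) * (Finset.univ.filter (fun x => ty x = w i)).card) := by
    rw [Finset.prod_mul_distrib]
    simp
  rw [h2]
  exact Finset.prod_le_prod' (fun i _ => fiber_mod hN ty (w i))

theorem liminf_ge {k N m : ℕ} (hN : 0 < N) (ty : Fin N → Fin m) (D : Finset (Fin k → Fin m))
    (hD : CommaFree D) :
    ((∑ w ∈ D, ∏ i, (Finset.univ.filter (fun x => ty x = w i)).card : ℕ) : ℝ) / (N : ℝ) ^ k ≤
      liminf (fun n : ℕ => (W k n : ℝ) / (n : ℝ) ^ k) atTop := by
  set S : ℕ := ∑ w ∈ D, ∏ i, (Finset.univ.filter (fun x => ty x = w i)).card with hS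
  have hNR : (0 : ℝ) < N := by exact_mod_cast hN
  have h0 : Tendsto (fun n : ℕ => ((n / N : ℕ) : ℝ) / (n : ℝ)) atTop (𝓝 (1 / (N : ℝ))) := by
    have h := (tendsto_nat_floor_mul_div_atTop (R := ℝ) (a := 1 / (N : ℝ)) (by positivity)).comp
      (tendsto_natCast_atTop_atTop (R := ℝ))
    refine h.congr ?_
    intro n
    simp only [Function.comp_apply]
    have : ⌊1 / (N : ℝ) * (n : ℝ)⌋₊ = n / N := by
      rw [one_div, inv_mul_eq_div, Nat.floor_div_natCast, Nat.floor_natCast]
    rw [this]
  have h1 : Tendsto (fun n : ℕ => (((n / N : ℕ) : ℝ) / (n : ℝ)) ^ k * (S : ℝ)) atTop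
      (𝓝 ((1 / (N : ℝ)) ^ k * (S : ℝ))) := (h0.pow k).mul_const _
  have h2 : (S : ℝ) / (N : ℝ) ^ k = (1 / (N : ℝ)) ^ k * (S : ℝ) := by
    rw [one_div, inv_pow]
    field_simp
  rw [h2, ← h1.liminf_eq]
  refine liminf_le_liminf ?_ ?_ ?_
  · filter_upwards [eventually_gt_atTop 0] with n hn
    have hn' : (0 : ℝ) < n := by exact_mod_cast hn
    have h3 := W_ge hN ty D hD n
    have h4 : (((n / N : ℕ) : ℝ)) ^ k * (S : ℝ) ≤ (W k n : ℝ) := by exact_mod_cast h3
    rw [div_pow, le_div_iff₀ (by positivity)]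
    refine le_trans (le_of_eq ?_) h4
    field_simp
  · exact h1.isBoundedUnder_ge
  · refine IsBoundedUnder.isCoboundedUnder_ge ?_
    refine ⟨1, ?_⟩
    rw [eventually_map]
    filter_upwards [eventually_gt_atTop 0] with n hn
    have hn' : (0 : ℝ) < n := by exact_mod_cast hn
    rw [div_le_one (by positivity)]
    have : W k n ≤ n ^ k := by
      apply csSup_le'
      rintro m ⟨D, _, rfl⟩
      refine (Finset.card_le_univ _).trans ?_
      simp
    exact_mod_cast this

/-- membership table of the code of 57 words over 4 letters: bit `64 a + 16 b + 4 c + d` -/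
def tbl : ℕ := 4526766003771061194738310083140149034971620583587949604382146183577389239808

def mem4 (a b c d : Fin 4) : Bool := Nat.testBit tbl (64 * a.val + 16 * b.val + 4 * c.val + d.val)

def pre2 (a b : Fin 4) : Bool := Nat.testBit 61949 (4 * a.val + b.val)

def suf2 (a b : Fin 4) : Bool := Nat.testBit 44843 (4 * a.val + b.val)

lemma check1 : ∀ a b c d x : Fin 4, mem4 a b c d = true → mem4 b c d x = false := by
  decide +kernel

lemma check2 : ∀ a b c d : Fin 4, mem4 a b c d = true →
    pre2 a b = true ∧ suf2 c d = true ∧ (suf2 a b && pre2 c d) = false := by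
  decide +kernel

/-- the code -/
def D4 : Finset (Fin 4 → Fin 4) :=
  Finset.univ.filter (fun w => mem4 (w 0) (w 1) (w 2) (w 3) = true)

lemma commaFree_D4 : CommaFree D4 := by
  intro a ha b hb c hc i hi1 hi2 heq
  simp only [D4, Finset.mem_filter, Finset.mem_univ, true_and] at ha hb hc
  have hi3 : i = 1 ∨ i = 2 ∨ i = 3 := by omega
  simp only [List.ofFn_succ, List.ofFn_zero, Fin.succ_zero_eq_one] at heq
  rcases hi3 with rfl | rfl | rfl
  · simp at heq
    obtain ⟨h0, h1, h2, h3⟩ := heq
    have e1 : c 0 = a 1 := h0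
    have e2 : c 1 = a 2 := h1
    have e3 : c 2 = a 3 := h2
    rw [e1, e2, e3] at hc
    have := check1 _ _ _ _ (c 3) ha
    rw [this] at hc
    exact Bool.noConfusion hc
  · simp at heq
    obtain ⟨h0, h1, h2, h3⟩ := heq
    have e1 : c 0 = a 2 := h0
    have e2 : c 1 = a 3 := h1
    have e3 : c 2 = b 0 := h2
    have e4 : c 3 = b 1 := h3
    have c1 := check2 _ _ _ _ ha
    have c2 := check2 _ _ _ _ hb
    have c3 := check2 _ _ _ _ hc
    rw [e1, e2, e3, e4] at c3
    have := c3.2.2
    rw [c1.2.1, c2.1] at this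
    exact Bool.noConfusion this
  · simp at heq
    obtain ⟨h0, h1, h2, h3⟩ := heq
    have e2 : c 1 = b 0 := h1
    have e3 : c 2 = b 1 := h2
    have e4 : c 3 = b 2 := h3
    have := check1 _ _ _ _ (b 3) hc
    rw [e2, e3, e4, hb] at this
    exact Bool.noConfusion this

/-- the types of the 150 letters: sizes 47, 28, 28, 47 -/
def ty150 (x : Fin 150) : Fin 4 :=
  if x.val < 47 then 0 else if x.val < 75 then 1 else if x.val < 103 then 2 else 3

lemma sum150 : (∑ w ∈ D4, ∏ i, (Finset.univ.filter (fun x => ty150 x = w i)).card) = 113809107 := by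
  decide +kernel

end Pool.Agent.H68.CF4
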