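import Pool.Agent.H68.FSDefs

/-!
# Indices, the recursion theorem, basic properties of the jump
-/

namespace Pool.Agent.H68.FS

open Nat.Partrec (Code)
open Nat.Partrec.Code

theorem phi_part : Partrec₂ phi := by
  have h : Partrec₂ (fun (e : ℕ) (n : ℕ) => eval (Denumerable.ofNat Code e) n) :=
    Nat.Partrec.Code.eval_part.comp₂ ((Computable.ofNat Code).comp Computable.fst) Computable.snd
  exact h

theorem exists_index {α : Type*} [Primcodable α] {f : α → ℕ →. ℕ} (hf : Partrec₂ f) :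
    ∃ c : α → ℕ, Computable c ∧ ∀ a n, phi (c a) n = f a n := by
  let g : ℕ →. ℕ := fun k =>
    (Encodable.decode (α := α) (Nat.unpair k).1 : Part α).bind fun a => f a (Nat.unpair k).2
  have hg : Partrec g := by
    refine Partrec.bind ?_ ?_
    · exact Computable.ofOption (Computable.decode.comp (Computable.fst.comp Computable.unpair))
    · exact hf.comp Computable.snd
        (Computable.snd.comp (Computable.unpair.comp Computable.fst))
  obtain ⟨c, hc⟩ := exists_code.1 (Partrec.nat_iff.1 hg)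
  refine ⟨fun a => Encodable.encode (curry c (Encodable.encode a)), ?_, ?_⟩
  · exact Computable.encode.comp
      ((primrec₂_curry.to_comp).comp (Computable.const c) Computable.encode)
  · intro a n
    rw [phi, Denumerable.ofNat_encode, eval_curry, hc]
    simp [g]

theorem exists_phi {f : ℕ →. ℕ} (hf : Partrec f) : ∃ e, ∀ n, phi e n = f n := by
  obtain ⟨c, hc⟩ := exists_code.1 (Partrec.nat_iff.1 hf)
  exact ⟨Encodable.encode c, fun n => by rw [phi, Denumerable.ofNat_encode, hc]⟩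

theorem exists_rec {f : ℕ → ℕ → ℕ →. ℕ}
    (hf : Partrec (fun p : (ℕ × ℕ) × ℕ => f p.1.1 p.1.2 p.2)) :
    ∃ p : ℕ → ℕ, Computable p ∧ ∀ e x, phi (p e) x = f e (p e) x := by
  let g : Code → ℕ →. ℕ := fun c k =>
    f (Nat.unpair k).1 (Encodable.encode (curry c (Nat.unpair k).1)) (Nat.unpair k).2
  have hg : Partrec₂ g := by
    have h1 : Computable fun p : Code × ℕ => (Nat.unpair p.2).1 :=
      Computable.fst.comp (Computable.unpair.comp Computable.snd)
    have h2 : Computable fun p : Code × ℕ => (Nat.unpair p.2).2 :=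
      Computable.snd.comp (Computable.unpair.comp Computable.snd)
    have h3 : Computable fun p : Code × ℕ => Encodable.encode (curry p.1 (Nat.unpair p.2).1) :=
      Computable.encode.comp ((primrec₂_curry.to_comp).comp Computable.fst h1)
    exact hf.comp ((h1.pair h3).pair h2)
  obtain ⟨c, hc⟩ := fixed_point₂ hg
  refine ⟨fun e => Encodable.encode (curry c e), ?_, ?_⟩
  · exact Computable.encode.comp
      ((primrec₂_curry.to_comp).comp (Computable.const c) Computable.id)
  · intro e x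
    rw [phi, Denumerable.ofNat_encode, eval_curry, hc]
    simp [g]

/-! ## Equivalence relations -/

theorem mem_classes {E : ℕ → ℕ → Prop} {e : ℕ} {C : Set ℕ} :
    C ∈ classes E e ↔ ∃ n x, x ∈ phi e n ∧ C = {y | E x y} := Iff.rfl

theorem jump_equivalence (E : ℕ → ℕ → Prop) : Equivalence (jump E) where
  refl _ := rfl
  symm h := h.symm
  trans h h' := h.trans h'

theorem class_eq {E : ℕ → ℕ → Prop} (hE : Equivalence E) {x y : ℕ} :
    {z | E x z} = {z | E y z} ↔ E x y := by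
  constructor
  · intro h
    have : y ∈ {z | E y z} := hE.refl y
    rw [← h] at this
    exact this
  · intro h
    ext z
    exact ⟨fun h' => hE.trans (hE.symm h) h', fun h' => hE.trans h h'⟩

/-- `e` enumerates an element of the class of `x` -/
def Hits (E : ℕ → ℕ → Prop) (e x : ℕ) : Prop := ∃ n y, y ∈ phi e n ∧ E y x

theorem class_mem_classes {E : ℕ → ℕ → Prop} (hE : Equivalence E) {e x : ℕ} :
    {z | E x z} ∈ classes E e ↔ Hits E e x := by
  rw [mem_classes]
  constructor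
  · rintro ⟨n, y, hy, h⟩
    exact ⟨n, y, hy, hE.symm ((class_eq hE).1 h)⟩
  · rintro ⟨n, y, hy, h⟩
    exact ⟨n, y, hy, (class_eq hE).2 (hE.symm h)⟩

theorem jump_iff {E : ℕ → ℕ → Prop} (hE : Equivalence E) {e e' : ℕ} :
    jump E e e' ↔ ∀ x, Hits E e x ↔ Hits E e' x := by
  constructor
  · intro h x
    rw [← class_mem_classes hE, ← class_mem_classes hE]
    rw [show classes E e = classes E e' from h]
  · intro h
    apply Set.ext
    intro C
    constructor
    · rintro ⟨n, x, hx, rfl⟩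
      exact (class_mem_classes hE).2 ((h x).1 ⟨n, x, hx, hE.refl x⟩)
    · rintro ⟨n, x, hx, rfl⟩
      exact (class_mem_classes hE).2 ((h x).2 ⟨n, x, hx, hE.refl x⟩)

theorem Hits.congr {E : ℕ → ℕ → Prop} (hE : Equivalence E) {e x y : ℕ} (h : E x y) :
    Hits E e x ↔ Hits E e y := by
  constructor
  · rintro ⟨n, z, hz, hzx⟩
    exact ⟨n, z, hz, hE.trans hzx h⟩
  · rintro ⟨n, z, hz, hzx⟩
    exact ⟨n, z, hz, hE.trans hzx (hE.symm h)⟩

/-- The `∀∃` form of the jump. -/
theorem jump_iff' {E : ℕ → ℕ → Prop} (hE : Equivalence E) {e e' : ℕ} :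
    jump E e e' ↔ (∀ n x, x ∈ phi e n → Hits E e' x) ∧ (∀ n x, x ∈ phi e' n → Hits E e x) := by
  rw [jump_iff hE]
  constructor
  · intro h
    exact ⟨fun n x hx => (h x).1 ⟨n, x, hx, hE.refl x⟩,
      fun n x hx => (h x).2 ⟨n, x, hx, hE.refl x⟩⟩
  · rintro ⟨h1, h2⟩ x
    constructor
    · rintro ⟨n, y, hy, hyx⟩
      exact (Hits.congr hE hyx).1 (h1 n y hy)
    · rintro ⟨n, y, hy, hyx⟩
      exact (Hits.congr hE hyx).1 (h2 n y hy)

theorem dsum_equivalence {F : ℕ → ℕ → ℕ → Prop} (hF : ∀ n, Equivalence (F n)) :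
    Equivalence (dsum F) where
  refl p := ⟨rfl, (hF _).refl _⟩
  symm := by
    rintro p q ⟨h1, h2⟩
    refine ⟨h1.symm, ?_⟩
    rw [← h1]
    exact (hF _).symm h2
  trans := by
    rintro p q r ⟨h1, h2⟩ ⟨h3, h4⟩
    refine ⟨h1.trans h3, ?_⟩
    rw [← h1] at h4
    exact (hF _).trans h2 h4

theorem Iter.equivalence {E : ℕ → ℕ → Prop} (hE : Equivalence E) {a : ℕ} {F : ℕ → ℕ → Prop}
    (h : Iter E a F) : Equivalence F := by
  induction h with
  | zero => exact hE
  | succ b F h ih => exact jump_equivalence F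
  | lim e f F hf hF hlt ih => exact dsum_equivalence ih

/-! ## Reducibility -/

theorem Red.refl (E : ℕ → ℕ → Prop) : Red E E := ⟨id, Computable.id, fun _ _ => Iff.rfl⟩

theorem Red.trans {E F G : ℕ → ℕ → Prop} (h : Red E F) (h' : Red F G) : Red E G := by
  obtain ⟨f, hf, hf'⟩ := h
  obtain ⟨g, hg, hg'⟩ := h'
  exact ⟨g ∘ f, hg.comp hf, fun m n => (hf' m n).trans (hg' _ _)⟩

/-- `r` is an index of a reduction of `E` to `F` -/
def RedW (E F : ℕ → ℕ → Prop) (r : ℕ) : Prop :=
  ∃ f : ℕ → ℕ, (∀ x, f x ∈ phi r x) ∧ ∀ x y, E x y ↔ F (f x) (f y)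

theorem phi_eq_some {r : ℕ} {f : ℕ → ℕ} (h : ∀ x, f x ∈ phi r x) :
    phi r = fun x => Part.some (f x) :=
  funext fun x => Part.eq_some_iff.2 (h x)

theorem computable_of_phi {r : ℕ} {f : ℕ → ℕ} (h : ∀ x, f x ∈ phi r x) : Computable f := by
  have h1 : Partrec (phi r) := phi_part.comp (Computable.const r) Computable.id
  rw [phi_eq_some h] at h1
  exact h1

theorem RedW.red {E F : ℕ → ℕ → Prop} {r : ℕ} (h : RedW E F r) : Red E F := by
  obtain ⟨f, hf, hf'⟩ := h
  exact ⟨f, computable_of_phi hf, hf'⟩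

theorem Red.redW {E F : ℕ → ℕ → Prop} (h : Red E F) : ∃ r, RedW E F r := by
  obtain ⟨f, hf, hf'⟩ := h
  obtain ⟨r, hr⟩ := exists_phi (f := fun x => Part.some (f x)) hf
  exact ⟨r, f, fun x => by rw [hr]; exact Part.mem_some _, hf'⟩

/-- The effective form of: `E ≤ F` implies `E⁺ ≤ F⁺`. -/
theorem exists_jumpRed : ∃ J : ℕ → ℕ, Computable J ∧
    ∀ (E F : ℕ → ℕ → Prop) (_ : Equivalence E) (_ : Equivalence F) (r : ℕ),
      RedW E F r → RedW (jump E) (jump F) (J r) := by
  -- `c ⟨r, e⟩` is an index of `φ_r ∘ φ_e`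
  obtain ⟨c, hc, hc'⟩ := exists_index (α := ℕ × ℕ)
    (f := fun p n => (phi p.2 n).bind fun y => phi p.1 y) (by
      refine Partrec.bind ?_ ?_
      · exact phi_part.comp (Computable.snd.comp Computable.fst) Computable.snd
      · exact phi_part.comp (Computable.fst.comp (Computable.fst.comp Computable.fst))
          Computable.snd)
  obtain ⟨J, hJ, hJ'⟩ := exists_index (α := ℕ) (f := fun r e => Part.some (c (r, e))) (by
    exact hc.comp (Computable.fst.pair Computable.snd))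
  refine ⟨J, hJ, ?_⟩
  rintro E F hE hF r ⟨f, hf, hf'⟩
  refine ⟨fun e => c (r, e), fun x => by rw [hJ']; exact Part.mem_some _, fun e e' => ?_⟩
  have key : ∀ e y, y ∈ {y | ∃ n, y ∈ phi (c (r, e)) n} ↔ ∃ n x, x ∈ phi e n ∧ y = f x := by
    intro e y
    constructor
    · rintro ⟨n, hn⟩
      rw [hc'] at hn
      obtain ⟨x, hx, hy⟩ := Part.mem_bind_iff.1 hn
      exact ⟨n, x, hx, Part.mem_unique hy (hf x)⟩
    · rintro ⟨n, x, hx, rfl⟩
      refine ⟨n, ?_⟩
      rw [hc']
      exact Part.mem_bind_iff.2 ⟨x, hx, hf x⟩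
  have key2 : ∀ e x, Hits F (c (r, e)) (f x) ↔ Hits E e x := by
    intro e x
    constructor
    · rintro ⟨n, y, hy, hyx⟩
      obtain ⟨m, z, hz, rfl⟩ := (key e y).1 ⟨n, hy⟩
      exact ⟨m, z, hz, (hf' _ _).2 hyx⟩
    · rintro ⟨n, y, hy, hyx⟩
      obtain ⟨m, hm⟩ := (key e (f y)).2 ⟨n, y, hy, rfl⟩
      exact ⟨m, f y, hm, (hf' _ _).1 hyx⟩
  rw [jump_iff' hE, jump_iff' hF]
  constructor
  · rintro ⟨h1, h2⟩
    constructor
    · intro n y hy
      obtain ⟨m, z, hz, rfl⟩ := (key e y).1 ⟨n, hy⟩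
      exact (key2 _ _).2 (h1 m z hz)
    · intro n y hy
      obtain ⟨m, z, hz, rfl⟩ := (key e' y).1 ⟨n, hy⟩
      exact (key2 _ _).2 (h2 m z hz)
  · rintro ⟨h1, h2⟩
    constructor
    · intro n x hx
      obtain ⟨m, hm⟩ := (key e (f x)).2 ⟨n, x, hx, rfl⟩
      exact (key2 _ _).1 (h1 m _ hm)
    · intro n x hx
      obtain ⟨m, hm⟩ := (key e' (f x)).2 ⟨n, x, hx, rfl⟩
      exact (key2 _ _).1 (h2 m _ hm)

theorem Red.jump {E F : ℕ → ℕ → Prop} (hE : Equivalence E) (hF : Equivalence F) (h : Red E F) :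
    Red (jump E) (jump F) := by
  obtain ⟨r, hr⟩ := h.redW
  obtain ⟨J, _, hJ⟩ := exists_jumpRed
  exact (hJ E F hE hF r hr).red

/-- `E ≤ E⁺` -/
theorem red_jump {E : ℕ → ℕ → Prop} (hE : Equivalence E) : Red E (jump E) := by
  obtain ⟨c, hc, hc'⟩ := exists_index (α := ℕ) (f := fun x _ => Part.some x) (by
    exact Computable.fst)
  refine ⟨c, hc, fun x y => ?_⟩
  have key : ∀ a x, Hits E (c a) x ↔ E a x := by
    intro a x
    constructor
    · rintro ⟨n, z, hz, hzx⟩
      rw [hc'] at hz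
      rw [Part.mem_some_iff.1 hz] at hzx
      exact hzx
    · intro h
      exact ⟨0, a, by rw [hc']; exact Part.mem_some _, h⟩
  rw [jump_iff hE]
  constructor
  · intro h z
    rw [key, key]
    exact ⟨fun h' => hE.trans (hE.symm h) h', fun h' => hE.trans h h'⟩
  · intro h
    exact hE.symm (((key y x).1 ((h x).1 ((key x x).2 (hE.refl x)))))

theorem red_dsum (F : ℕ → ℕ → ℕ → Prop) (k : ℕ) : Red (F k) (dsum F) := by
  refine ⟨fun x => Nat.pair k x, ?_, fun x y => ?_⟩
  · exact (Primrec₂.natPair.to_comp).comp (Computable.const k) Computable.id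
  · simp [dsum]

theorem Iter.red {E : ℕ → ℕ → Prop} (hE : Equivalence E) {a : ℕ} {F : ℕ → ℕ → Prop}
    (h : Iter E a F) : Red E F := by
  induction h with
  | zero => exact Red.refl E
  | succ b F h ih => exact ih.trans (red_jump (h.equivalence hE))
  | lim e f F hf hF hlt ih => exact (ih 0).trans (red_dsum F 0)

end Pool.Agent.H68.FS
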