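import Pool.Agent.H68.FSIndec

/-!
# Deciding an equivalence relation in another one, and strictness of the jump
-/

namespace Pool.Agent.H68.FS

/-- the range of `φ_e` -/
def Ran (e : ℕ) : Set ℕ := {x | ∃ n, x ∈ phi e n}

theorem jump_ran {E : ℕ → ℕ → Prop} (hE : Equivalence E) {e e' : ℕ} :
    jump E e e' ↔ (∀ x ∈ Ran e, ∃ y ∈ Ran e', E x y) ∧ (∀ y ∈ Ran e', ∃ x ∈ Ran e, E x y) := by
  rw [jump_iff' hE]
  constructor
  · rintro ⟨h1, h2⟩
    constructor
    · rintro x ⟨n, hx⟩
      obtain ⟨m, y, hy, hyx⟩ := h1 n x hx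
      exact ⟨y, ⟨m, hy⟩, hE.symm hyx⟩
    · rintro y ⟨n, hy⟩
      obtain ⟨m, x, hx, hxy⟩ := h2 n y hy
      exact ⟨x, ⟨m, hx⟩, hxy⟩
  · rintro ⟨h1, h2⟩
    constructor
    · intro n x hx
      obtain ⟨y, ⟨m, hy⟩, hxy⟩ := h1 x ⟨n, hx⟩
      exact ⟨m, y, hy, hE.symm hxy⟩
    · intro n y hy
      obtain ⟨x, ⟨m, hx⟩, hxy⟩ := h2 y ⟨n, hy⟩
      exact ⟨m, x, hx, hxy⟩

theorem exists_index_total {α : Type*} [Primcodable α] {g : α → ℕ → ℕ} (hg : Computable₂ g) :
    ∃ c : α → ℕ, Computable c ∧ ∀ a, Ran (c a) = Set.range (g a) := by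
  obtain ⟨c, hc, hc'⟩ := exists_index (f := fun a n => Part.some (g a n)) hg
  refine ⟨c, hc, fun a => ?_⟩
  ext x
  constructor
  · rintro ⟨n, hn⟩
    rw [hc'] at hn
    exact ⟨n, (Part.mem_some_iff.1 hn).symm⟩
  · rintro ⟨n, rfl⟩
    exact ⟨n, by rw [hc']; exact Part.mem_some _⟩

/-- `d = (t, T, U)` decides `F` in `G`: `T` and `U` are not `G`-equivalent, and `φ_t(⟨x, y⟩)` is
defined, and is `G`-equivalent to `T` if `x F y` and to `U` otherwise. -/
def DecW (F G : ℕ → ℕ → Prop) (d : ℕ × ℕ × ℕ) : Prop :=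
  ¬ G d.2.1 d.2.2 ∧ ∃ τ : ℕ → ℕ → ℕ, (∀ x y, τ x y ∈ phi d.1 (Nat.pair x y)) ∧
    ∀ x y, (F x y → G (τ x y) d.2.1) ∧ (¬ F x y → G (τ x y) d.2.2)

theorem computable_tau {t : ℕ} {τ : ℕ → ℕ → ℕ} (h : ∀ x y, τ x y ∈ phi t (Nat.pair x y)) :
    Computable₂ τ := by
  have h1 : Partrec fun p : ℕ × ℕ => phi t (Nat.pair p.1 p.2) :=
    phi_part.comp (Computable.const t) (Primrec₂.natPair.to_comp)
  have h2 : (fun p : ℕ × ℕ => phi t (Nat.pair p.1 p.2)) = fun p => Part.some (τ p.1 p.2) :=
    funext fun p => Part.eq_some_iff.2 (h p.1 p.2)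
  rw [h2] at h1
  exact h1

/-- The diagonal argument. -/
theorem DecW.not_red {F : ℕ → ℕ → Prop} (hF : Equivalence F) {d : ℕ × ℕ × ℕ} (hd : DecW F F d) :
    ¬ Red (jump F) F := by
  rintro ⟨r, hr, hr'⟩
  obtain ⟨t, T, U⟩ := d
  obtain ⟨hTU, τ, hτ, hτ'⟩ := hd
  simp only at hTU hτ hτ'
  -- `w e` is an index of the enumeration of `{U} ∪ {φ_e(e)}`
  obtain ⟨w, hw, hw'⟩ := exists_index (α := ℕ)
    (f := fun e n => Nat.casesOn n (Part.some U) fun _ => phi e e) (by
      refine Partrec.nat_casesOn_right Computable.snd (Computable.const U) ?_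
      exact phi_part.comp (Computable.fst.comp Computable.fst)
        (Computable.fst.comp Computable.fst))
  obtain ⟨u, _, hu'⟩ := exists_index_total (α := ℕ) (g := fun _ _ => U) (Computable.const U)
  have hRw : ∀ e x, x ∈ Ran (w e) ↔ x = U ∨ x ∈ phi e e := by
    intro e x
    constructor
    · rintro ⟨n, hn⟩
      rw [hw'] at hn
      cases n with
      | zero => exact Or.inl (Part.mem_some_iff.1 hn)
      | succ n => exact Or.inr hn
    · rintro (rfl | h)
      · exact ⟨0, by rw [hw']; exact Part.mem_some _⟩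
      · exact ⟨1, by rw [hw']; exact h⟩
  have hRu : ∀ x, x ∈ Ran (u 0) ↔ x = U := by
    intro x
    rw [hu']
    simp [eq_comm]
  have hwu : ∀ e, jump F (w e) (u 0) ↔ ∀ v ∈ phi e e, F v U := by
    intro e
    rw [jump_ran hF]
    constructor
    · rintro ⟨h1, _⟩ v hv
      obtain ⟨y, hy, hvy⟩ := h1 v ((hRw e v).2 (Or.inr hv))
      rw [hRu] at hy
      rwa [hy] at hvy
    · intro h
      constructor
      · intro x hx
        refine ⟨U, (hRu U).2 rfl, ?_⟩
        rcases (hRw e x).1 hx with rfl | hx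
        · exact hF.refl _
        · exact h x hx
      · intro y hy
        rw [hRu] at hy
        subst hy
        exact ⟨y, (hRw e y).2 (Or.inl rfl), hF.refl _⟩
  have hg : Computable fun e => τ (r (w e)) (r (u 0)) :=
    (computable_tau hτ).comp (hr.comp hw) (Computable.const _)
  obtain ⟨i, hi⟩ := exists_phi (f := fun e => Part.some (τ (r (w e)) (r (u 0)))) hg
  have hii : phi i i = Part.some (τ (r (w i)) (r (u 0))) := hi i
  by_cases hc : F (τ (r (w i)) (r (u 0))) U
  · have h1 : jump F (w i) (u 0) := by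
      rw [hwu]
      intro v hv
      rw [hii] at hv
      rw [Part.mem_some_iff.1 hv]
      exact hc
    have h2 := (hτ' (r (w i)) (r (u 0))).1 ((hr' _ _).1 h1)
    exact hTU (hF.trans (hF.symm h2) hc)
  · have h1 : ¬ jump F (w i) (u 0) := by
      rw [hwu]
      intro h
      exact hc (h _ (by rw [hii]; exact Part.mem_some _))
    exact hc ((hτ' (r (w i)) (r (u 0))).2 fun h => h1 ((hr' _ _).2 h))

/-- Composition of a decision with a reduction. -/
theorem DecW.comp {F G H : ℕ → ℕ → Prop} {d : ℕ × ℕ × ℕ} (hd : DecW F G d) (h : Red G H) :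
    ∃ d', DecW F H d' := by
  obtain ⟨r, hr, hr'⟩ := h
  obtain ⟨t, T, U⟩ := d
  obtain ⟨hTU, τ, hτ, hτ'⟩ := hd
  simp only at hTU hτ hτ'
  obtain ⟨t', ht'⟩ := exists_phi (f := fun p => Part.some (r (τ (Nat.unpair p).1 (Nat.unpair p).2)))
    (hr.comp ((computable_tau hτ).comp (Computable.fst.comp Computable.unpair)
      (Computable.snd.comp Computable.unpair)))
  refine ⟨(t', r T, r U), fun h => hTU ((hr' _ _).2 h), fun x y => r (τ x y), fun x y => ?_,
    fun x y => ⟨fun h => (hr' _ _).1 ((hτ' x y).1 h), fun h => (hr' _ _).1 ((hτ' x y).2 h)⟩⟩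
  rw [ht']
  simp

/-- The effective form of: if `F` can be decided in `G`, then `F⁺` can be decided in `G⁺⁺`. -/
theorem exists_decJump : ∃ L : ℕ × ℕ × ℕ → ℕ × ℕ × ℕ, Computable L ∧
    ∀ (F G : ℕ → ℕ → Prop) (_ : Equivalence F) (_ : Equivalence G) (d : ℕ × ℕ × ℕ),
      DecW F G d → DecW (jump F) (jump (jump G)) (L d) := by
  -- `s ((d, e), x)` enumerates `{U} ∪ {τ(x, y) : y ∈ Ran e}`
  obtain ⟨s, hs, hs'⟩ := exists_index (α := ((ℕ × ℕ × ℕ) × ℕ) × ℕ)
    (f := fun p n => Nat.casesOn n (Part.some p.1.1.2.2)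
      fun m => (phi p.1.2 m).bind fun y => phi p.1.1.1 (Nat.pair p.2 y)) (by
      refine Partrec.nat_casesOn_right Computable.snd ?_ ?_
      · exact Computable.snd.comp (Computable.snd.comp (Computable.fst.comp
          (Computable.fst.comp Computable.fst)))
      · refine Partrec.bind ?_ ?_
        · exact phi_part.comp (Computable.snd.comp (Computable.fst.comp
            (Computable.fst.comp Computable.fst))) Computable.snd
        · refine phi_part.comp ?_ ?_
          · exact Computable.fst.comp (Computable.fst.comp (Computable.fst.comp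
              (Computable.fst.comp (Computable.fst.comp Computable.fst))))
          · exact (Primrec₂.natPair.to_comp).comp
              (Computable.snd.comp (Computable.fst.comp (Computable.fst.comp Computable.fst)))
              Computable.snd)
  obtain ⟨pr, hpr, hpr'⟩ := exists_index_total (α := ℕ × ℕ × ℕ)
    (g := fun d n => Nat.casesOn n d.2.1 fun _ => d.2.2) (by
      refine Computable.nat_casesOn Computable.snd ?_ ?_
      · exact Computable.fst.comp (Computable.snd.comp Computable.fst)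
      · exact Computable.snd.comp (Computable.snd.comp (Computable.fst.comp Computable.fst)))
  obtain ⟨sg, hsg, hsg'⟩ := exists_index_total (α := ℕ × ℕ × ℕ)
    (g := fun d _ => d.2.2) (Computable.snd.comp (Computable.snd.comp Computable.fst))
  obtain ⟨T', hT, hT'⟩ := exists_index_total (α := ℕ × ℕ × ℕ)
    (g := fun d _ => pr d) (hpr.comp Computable.fst)
  obtain ⟨U', hU, hU'⟩ := exists_index_total (α := ℕ × ℕ × ℕ)
    (g := fun d n => Nat.casesOn n (pr d) fun _ => sg d) (by
      refine Computable.nat_casesOn Computable.snd ?_ ?_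
      · exact hpr.comp Computable.fst
      · exact hsg.comp (Computable.fst.comp Computable.fst))
  -- `q ((d, e), e')` enumerates `{pr d} ∪ {s ((d, e'), x) : x ∈ Ran e} ∪ {s ((d, e), y) : y ∈ Ran e'}`
  obtain ⟨q, hq, hq'⟩ := exists_index (α := ((ℕ × ℕ × ℕ) × ℕ) × ℕ)
    (f := fun p n => Nat.casesOn n (Part.some (pr p.1.1))
      fun m => bif decide ((Nat.unpair m).1 = 0)
        then (phi p.1.2 (Nat.unpair m).2).map fun x => s ((p.1.1, p.2), x)
        else (phi p.2 (Nat.unpair m).2).map fun y => s ((p.1.1, p.1.2), y)) (by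
      refine Partrec.nat_casesOn_right Computable.snd ?_ ?_
      · exact hpr.comp (Computable.fst.comp (Computable.fst.comp Computable.fst))
      · refine Partrec.cond ?_ ?_ ?_
        · exact (Primrec.eq.decide.to_comp).comp
            (Computable.fst.comp (Computable.unpair.comp Computable.snd)) (Computable.const 0)
        · refine Partrec.map ?_ ?_
          · exact phi_part.comp (Computable.snd.comp (Computable.fst.comp
              (Computable.fst.comp Computable.fst)))
              (Computable.snd.comp (Computable.unpair.comp Computable.snd))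
          · refine hs.comp (Computable.pair (Computable.pair ?_ ?_) Computable.snd)
            · exact Computable.fst.comp (Computable.fst.comp (Computable.fst.comp
                (Computable.fst.comp Computable.fst)))
            · exact Computable.snd.comp (Computable.fst.comp
                (Computable.fst.comp Computable.fst))
        · refine Partrec.map ?_ ?_
          · exact phi_part.comp (Computable.snd.comp (Computable.fst.comp Computable.fst))
              (Computable.snd.comp (Computable.unpair.comp Computable.snd))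
          · refine hs.comp (Computable.pair (Computable.pair ?_ ?_) Computable.snd)
            · exact Computable.fst.comp (Computable.fst.comp (Computable.fst.comp
                (Computable.fst.comp Computable.fst)))
            · exact Computable.snd.comp (Computable.fst.comp
                (Computable.fst.comp (Computable.fst.comp Computable.fst))))
  obtain ⟨t', ht, ht'⟩ := exists_index (α := ℕ × ℕ × ℕ)
    (f := fun d n => Part.some (q ((d, (Nat.unpair n).1), (Nat.unpair n).2))) (by
      refine hq.comp (Computable.pair (Computable.pair Computable.fst ?_) ?_)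
      · exact Computable.fst.comp (Computable.unpair.comp Computable.snd)
      · exact Computable.snd.comp (Computable.unpair.comp Computable.snd))
  refine ⟨fun d => (t' d, T' d, U' d), Computable.pair ht (Computable.pair hT hU), ?_⟩
  rintro F G hF hG d ⟨hTU, τ, hτ, hτ'⟩
  have hG1 := jump_equivalence G
  have hG2 := jump_equivalence (jump G)
  -- ranges
  have Rpr : ∀ x, x ∈ Ran (pr d) ↔ x = d.2.1 ∨ x = d.2.2 := by
    intro x
    rw [hpr']
    constructor
    · rintro ⟨n, rfl⟩
      cases n with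
      | zero => exact Or.inl rfl
      | succ n => exact Or.inr rfl
    · rintro (rfl | rfl)
      · exact ⟨0, rfl⟩
      · exact ⟨1, rfl⟩
  have Rsg : ∀ x, x ∈ Ran (sg d) ↔ x = d.2.2 := by
    intro x
    rw [hsg']
    constructor
    · rintro ⟨n, rfl⟩
      rfl
    · rintro rfl
      exact ⟨0, rfl⟩
  have RT : ∀ x, x ∈ Ran (T' d) ↔ x = pr d := by
    intro x
    rw [hT']
    constructor
    · rintro ⟨n, rfl⟩
      rfl
    · rintro rfl
      exact ⟨0, rfl⟩
  have RU : ∀ x, x ∈ Ran (U' d) ↔ x = pr d ∨ x = sg d := by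
    intro x
    rw [hU']
    constructor
    · rintro ⟨n, rfl⟩
      cases n with
      | zero => exact Or.inl rfl
      | succ n => exact Or.inr rfl
    · rintro (rfl | rfl)
      · exact ⟨0, rfl⟩
      · exact ⟨1, rfl⟩
  have Rs : ∀ e x z, z ∈ Ran (s ((d, e), x)) ↔ z = d.2.2 ∨ ∃ y ∈ Ran e, z = τ x y := by
    intro e x z
    constructor
    · rintro ⟨n, hn⟩
      rw [hs'] at hn
      cases n with
      | zero => exact Or.inl (Part.mem_some_iff.1 hn)
      | succ n =>
        obtain ⟨y, hy, hz⟩ := Part.mem_bind_iff.1 hn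
        exact Or.inr ⟨y, ⟨n, hy⟩, Part.mem_unique hz (hτ x y)⟩
    · rintro (rfl | ⟨y, ⟨n, hn⟩, rfl⟩)
      · exact ⟨0, by rw [hs']; exact Part.mem_some _⟩
      · refine ⟨n + 1, ?_⟩
        rw [hs']
        exact Part.mem_bind_iff.2 ⟨y, hn, hτ x y⟩
  have Rq : ∀ e e' z, z ∈ Ran (q ((d, e), e')) ↔ z = pr d ∨
      (∃ x ∈ Ran e, z = s ((d, e'), x)) ∨ (∃ y ∈ Ran e', z = s ((d, e), y)) := by
    intro e e' z
    constructor
    · rintro ⟨n, hn⟩
      rw [hq'] at hn
      cases n with
      | zero => exact Or.inl (Part.mem_some_iff.1 hn)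
      | succ n =>
        right
        by_cases h : (Nat.unpair n).1 = 0
        · simp only [h, decide_true, cond_true] at hn
          obtain ⟨x, hx, hz⟩ := (Part.mem_map_iff _).1 hn
          exact Or.inl ⟨x, ⟨_, hx⟩, hz.symm⟩
        · simp only [h, decide_false, cond_false] at hn
          obtain ⟨x, hx, hz⟩ := (Part.mem_map_iff _).1 hn
          exact Or.inr ⟨x, ⟨_, hx⟩, hz.symm⟩
    · rintro (rfl | ⟨x, ⟨n, hn⟩, rfl⟩ | ⟨x, ⟨n, hn⟩, rfl⟩)
      · exact ⟨0, by rw [hq']; exact Part.mem_some _⟩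
      · refine ⟨Nat.pair 0 n + 1, ?_⟩
        rw [hq']
        simp only [Nat.unpair_pair, decide_true, cond_true]
        exact (Part.mem_map_iff _).2 ⟨x, hn, rfl⟩
      · refine ⟨Nat.pair 1 n + 1, ?_⟩
        rw [hq']
        simp only [Nat.unpair_pair, one_ne_zero, decide_false, cond_false]
        exact (Part.mem_map_iff _).2 ⟨x, hn, rfl⟩
  -- the three classes
  have hprsg : ¬ jump G (pr d) (sg d) := by
    rw [jump_ran hG]
    rintro ⟨h1, _⟩
    obtain ⟨y, hy, hxy⟩ := h1 d.2.1 ((Rpr _).2 (Or.inl rfl))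
    rw [Rsg] at hy
    rw [hy] at hxy
    exact hTU hxy
  have hs_true : ∀ e x, (∃ y ∈ Ran e, F x y) → jump G (s ((d, e), x)) (pr d) := by
    rintro e x ⟨y, hy, hxy⟩
    rw [jump_ran hG]
    constructor
    · intro z hz
      rcases (Rs e x z).1 hz with rfl | ⟨y', _, rfl⟩
      · exact ⟨_, (Rpr _).2 (Or.inr rfl), hG.refl _⟩
      · by_cases h : F x y'
        · exact ⟨_, (Rpr _).2 (Or.inl rfl), (hτ' x y').1 h⟩
        · exact ⟨_, (Rpr _).2 (Or.inr rfl), (hτ' x y').2 h⟩
    · intro z hz
      rcases (Rpr z).1 hz with rfl | rfl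
      · exact ⟨τ x y, (Rs e x _).2 (Or.inr ⟨y, hy, rfl⟩), (hτ' x y).1 hxy⟩
      · exact ⟨_, (Rs e x _).2 (Or.inl rfl), hG.refl _⟩
  have hs_false : ∀ e x, (¬ ∃ y ∈ Ran e, F x y) → jump G (s ((d, e), x)) (sg d) := by
    intro e x h
    rw [jump_ran hG]
    constructor
    · intro z hz
      refine ⟨_, (Rsg _).2 rfl, ?_⟩
      rcases (Rs e x z).1 hz with rfl | ⟨y', hy', rfl⟩
      · exact hG.refl _
      · exact (hτ' x y').2 fun h' => h ⟨y', hy', h'⟩
    · intro z hz
      rw [Rsg] at hz
      subst hz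
      exact ⟨_, (Rs e x _).2 (Or.inl rfl), hG.refl _⟩
  refine ⟨?_, fun e e' => q ((d, e), e'), ?_, ?_⟩
  · change ¬ jump (jump G) (T' d) (U' d)
    rw [jump_ran hG1]
    rintro ⟨_, h2⟩
    obtain ⟨x, hx, hxy⟩ := h2 (sg d) ((RU _).2 (Or.inr rfl))
    rw [RT] at hx
    rw [hx] at hxy
    exact hprsg hxy
  · intro e e'
    rw [ht']
    simp
  · intro e e'
    change (jump F e e' → jump (jump G) (q ((d, e), e')) (T' d)) ∧
      (¬ jump F e e' → jump (jump G) (q ((d, e), e')) (U' d))
    constructor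
    · intro h
      rw [jump_ran hF] at h
      have hall : ∀ z ∈ Ran (q ((d, e), e')), jump G z (pr d) := by
        intro z hz
        rcases (Rq e e' z).1 hz with rfl | ⟨x, hx, rfl⟩ | ⟨y, hy, rfl⟩
        · exact hG1.refl _
        · exact hs_true e' x (h.1 x hx)
        · obtain ⟨x, hx, hxy⟩ := h.2 y hy
          exact hs_true e y ⟨x, hx, hF.symm hxy⟩
      rw [jump_ran hG1]
      constructor
      · intro z hz
        exact ⟨_, (RT _).2 rfl, hall z hz⟩
      · intro z hz
        rw [RT] at hz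
        subst hz
        exact ⟨_, (Rq _ _ _).2 (Or.inl rfl), hG1.refl _⟩
    · intro h
      rw [jump_ran hF] at h
      have hcase : ∀ z ∈ Ran (q ((d, e), e')), jump G z (pr d) ∨ jump G z (sg d) := by
        intro z hz
        rcases (Rq e e' z).1 hz with rfl | ⟨x, hx, rfl⟩ | ⟨y, hy, rfl⟩
        · exact Or.inl (hG1.refl _)
        · by_cases h' : ∃ y ∈ Ran e', F x y
          · exact Or.inl (hs_true _ _ h')
          · exact Or.inr (hs_false _ _ h')
        · by_cases h' : ∃ x ∈ Ran e, F y x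
          · exact Or.inl (hs_true _ _ h')
          · exact Or.inr (hs_false _ _ h')
      have hex : ∃ z ∈ Ran (q ((d, e), e')), jump G z (sg d) := by
        by_contra hno
        apply h
        constructor
        · intro x hx
          by_contra h'
          exact hno ⟨_, (Rq e e' _).2 (Or.inr (Or.inl ⟨x, hx, rfl⟩)), hs_false _ _ h'⟩
        · intro y hy
          by_contra h'
          refine hno ⟨_, (Rq e e' _).2 (Or.inr (Or.inr ⟨y, hy, rfl⟩)), hs_false _ _ ?_⟩
          rintro ⟨x, hx, hyx⟩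
          exact h' ⟨x, hx, hF.symm hyx⟩
      rw [jump_ran hG1]
      constructor
      · intro z hz
        rcases hcase z hz with h1 | h1
        · exact ⟨_, (RU _).2 (Or.inl rfl), h1⟩
        · exact ⟨_, (RU _).2 (Or.inr rfl), h1⟩
      · intro z hz
        rcases (RU z).1 hz with rfl | rfl
        · exact ⟨_, (Rq _ _ _).2 (Or.inl rfl), hG1.refl _⟩
        · exact hex

end Pool.Agent.H68.FS
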