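import Mathlib

/-!
# The computable FS-jump and its iterates along notations in Kleene's O

Definitions for problem MP_52a9f3_lc.
-/

namespace Pool.Agent.H68.FS

/-- The `e`-th partial computable function `φ_e`, in the standard numbering given by Mathlib's
encoding of codes for partial recursive functions. -/
def phi (e : ℕ) : ℕ →. ℕ := (Denumerable.ofNat Nat.Partrec.Code e).eval

/-- Computable reducibility `E ≤ F`: there is a computable function `f` such that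
`m E n ↔ f(m) F f(n)` for all `m, n`. -/
def Red (E F : ℕ → ℕ → Prop) : Prop :=
  ∃ f : ℕ → ℕ, Computable f ∧ ∀ m n, E m n ↔ F (f m) (f n)

/-- The set `{[φ_e(n)]_E : φ_e(n)↓}` of `E`-classes. -/
def classes (E : ℕ → ℕ → Prop) (e : ℕ) : Set (Set ℕ) :=
  {C | ∃ n x, x ∈ phi e n ∧ C = {y | E x y}}

/-- The computable FS-jump `E⁺` of `E`: `e E⁺ e'` iff
`{[φ_e(n)]_E : φ_e(n)↓} = {[φ_{e'}(n)]_E : φ_{e'}(n)↓}`. -/
def jump (E : ℕ → ℕ → Prop) (e e' : ℕ) : Prop := classes E e = classes E e'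

/-- `b` is an immediate predecessor of `a` for Kleene's ordering: `a = 2^b`, or `a = 3·5^e` and
`b` is a value of `φ_e`. -/
def Below (b a : ℕ) : Prop := a = 2 ^ b ∨ ∃ e n, a = 3 * 5 ^ e ∧ b ∈ phi e n

/-- The relation `<_O`. -/
def LtO (b a : ℕ) : Prop := Relation.TransGen Below b a

/-- `Denotes a α`: the number `a` is in Kleene's `O` and denotes the ordinal `α`.
* `1` denotes `0`;
* if `a` denotes `α`, then `2^a` denotes `α + 1`;
* if `φ_e` is total, with values `φ_e(0) <_O φ_e(1) <_O ...` denoting `α_n`, then `3·5^e` denotes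
  `sup_n α_n`. -/
inductive Denotes : ℕ → Ordinal.{0} → Prop
  | zero : Denotes 1 0
  | succ (a : ℕ) (α : Ordinal.{0}) (h : Denotes a α) : Denotes (2 ^ a) (α + 1)
  | lim (e : ℕ) (f : ℕ → ℕ) (α : ℕ → Ordinal.{0}) (hf : ∀ n, f n ∈ phi e n)
      (hα : ∀ n, Denotes (f n) (α n)) (hlt : ∀ n, LtO (f n) (f (n + 1))) :
      Denotes (3 * 5 ^ e) (⨆ n, α n)

/-- The direct sum of the relations `F 0, F 1, ...`: `⟨m, x⟩` and `⟨n, y⟩` are related iff
`m = n` and `x (F m) y`. -/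
def dsum (F : ℕ → ℕ → ℕ → Prop) (p q : ℕ) : Prop :=
  (Nat.unpair p).1 = (Nat.unpair q).1 ∧ F (Nat.unpair p).1 (Nat.unpair p).2 (Nat.unpair q).2

/-- `Iter E a F`: the number `a` is in Kleene's `O` and `F` is the iterate `E^{+a}` of the
FS-jump.
* `E^{+1} = E`;
* `E^{+2^b} = (E^{+b})⁺`;
* `⟨m, x⟩ E^{+3·5^e} ⟨n, y⟩` iff `m = n` and `x E^{+φ_e(m)} y`. -/
inductive Iter (E : ℕ → ℕ → Prop) : ℕ → (ℕ → ℕ → Prop) → Prop
  | zero : Iter E 1 E
  | succ (b : ℕ) (F : ℕ → ℕ → Prop) (h : Iter E b F) : Iter E (2 ^ b) (jump F)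
  | lim (e : ℕ) (f : ℕ → ℕ) (F : ℕ → ℕ → ℕ → Prop) (hf : ∀ n, f n ∈ phi e n)
      (hF : ∀ n, Iter E (f n) (F n)) (hlt : ∀ n, LtO (f n) (f (n + 1))) :
      Iter E (3 * 5 ^ e) (dsum F)

end Pool.Agent.H68.FS
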