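import Pool.Agent.H68.FSNot

/-!
# The diagonal construction
-/

namespace Pool.Agent.H68.FS

open Nat.Partrec (Code)
open Nat.Partrec.Code
open Ordinal

/-- an index of the empty function -/
noncomputable def e₀ : ℕ := exists_empty.choose

theorem e₀_spec (n : ℕ) : phi e₀ n = Part.none := exists_empty.choose_spec n

/-- The value `φ_m(⟨m, e₀⟩)` if it is found by stage `k`. -/
noncomputable def st (m k : ℕ) : Option ℕ := evaln k (Denumerable.ofNat Code m) (Nat.pair m e₀)

theorem computable_st : Computable₂ st := by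
  have h1 : Computable fun p : (ℕ × Code) × ℕ => evaln p.1.1 p.1.2 p.2 := primrec_evaln.to_comp
  have h2 : Computable fun p : ℕ × ℕ =>
      ((p.2, Denumerable.ofNat Code p.1), Nat.pair p.1 e₀) :=
    ((Computable.snd.pair ((Computable.ofNat Code).comp Computable.fst))).pair
      ((Primrec₂.natPair.to_comp).comp Computable.fst (Computable.const e₀))
  exact h1.comp h2

theorem st_mono {m k l : ℕ} (h : k ≤ l) {v : ℕ} (hv : st m k = some v) : st m l = some v :=
  Option.mem_def.1 (evaln_mono h (Option.mem_def.2 hv))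

/-- The index of the summand in which `φ_m(⟨m, e₀⟩)` lies, if this value is found exactly at
stage `k + 1`. -/
noncomputable def trig (m k : ℕ) : Option ℕ :=
  Option.casesOn (st m k) ((st m (k + 1)).map fun v => (Nat.unpair v).1) fun _ => none

theorem computable_trig : Computable₂ trig := by
  have h : Computable fun p : ℕ × ℕ => (Option.casesOn (st p.1 p.2)
      ((st p.1 (p.2 + 1)).map fun v => (Nat.unpair v).1) fun _ => none : Option ℕ) := by
    refine Computable.option_casesOn
      (g := fun (_ : ℕ × ℕ) (_ : ℕ) => (Option.none : Option ℕ)) computable_st ?_ ?_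
    · refine Computable.option_map ?_ ?_
      · exact computable_st.comp Computable.fst (Computable.succ.comp Computable.snd)
      · exact Computable.fst.comp (Computable.unpair.comp Computable.snd)
    · exact Computable.const none
  exact h

theorem trig_of_some {m k v : ℕ} (h : st m k = some v) : trig m k = none := by
  simp [trig, h]

theorem exists_trig_eventually (m : ℕ) : ∃ K, ∀ k, K ≤ k → trig m k = none := by
  by_cases h : ∃ K v, st m K = some v
  · obtain ⟨K, v, hv⟩ := h
    exact ⟨K, fun k hk => trig_of_some (st_mono hk hv)⟩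
  · refine ⟨0, fun k _ => ?_⟩
    have h1 : ∀ K, st m K = none := by
      intro K
      cases h2 : st m K with
      | none => rfl
      | some v => exact absurd ⟨K, v, h2⟩ h
    simp [trig, h1]

theorem exists_trig {m v : ℕ} (h : v ∈ phi m (Nat.pair m e₀)) :
    ∃ k, trig m k = some (Nat.unpair v).1 := by
  classical
  have h1 : ∃ k, st m k = some v := by
    obtain ⟨k, hk⟩ := evaln_complete.1 h
    exact ⟨k, Option.mem_def.1 hk⟩
  have h2 : st m 0 = none := by
    simp [st, evaln]
  have h3 := Nat.find_spec h1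
  have h4 : Nat.find h1 ≠ 0 := by
    intro h0
    rw [h0, h2] at h3
    exact absurd h3 (by simp)
  obtain ⟨k, hk⟩ := Nat.exists_eq_succ_of_ne_zero h4
  have h5 : st m k = none := by
    cases h6 : st m k with
    | none => rfl
    | some w =>
      have h7 := st_mono (Nat.le_succ k) h6
      rw [← hk, h3] at h7
      have h8 : st m k = some v := by
        rw [h6, ← Option.some.inj h7]
      exact absurd h8 (Nat.find_min h1 (by omega))
  refine ⟨k, ?_⟩
  rw [hk] at h3
  simp [trig, h5, h3]

/-- The sequence with limit `c(m, x)`. -/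
noncomputable def seq (m x k : ℕ) : ℕ :=
  Nat.rec x (fun k y => Option.casesOn (trig m k) (2 ^ y) fun n => limNs (2 ^ y) n) k

theorem seq_zero (m x : ℕ) : seq m x 0 = x := rfl

theorem seq_none {m x k : ℕ} (h : trig m k = none) : seq m x (k + 1) = 2 ^ seq m x k := by
  simp [seq, h]

theorem seq_some {m x k n : ℕ} (h : trig m k = some n) :
    seq m x (k + 1) = limNs (2 ^ seq m x k) n := by
  simp [seq, h]

theorem computable_seq : Computable fun p : (ℕ × ℕ) × ℕ => seq p.1.1 p.1.2 p.2 := by
  have h := Computable.nat_rec (α := (ℕ × ℕ) × ℕ) (σ := ℕ) (f := fun p => p.2)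
    (g := fun p => p.1.2)
    (h := fun p q => Option.casesOn (trig p.1.1 q.1) (2 ^ q.2) fun n => limNs (2 ^ q.2) n)
    Computable.snd (Computable.snd.comp Computable.fst) (by
      refine Computable.option_casesOn (α := ((ℕ × ℕ) × ℕ) × (ℕ × ℕ)) (β := ℕ) (σ := ℕ)
        (o := fun p => trig p.1.1.1 p.2.1) (f := fun p => 2 ^ p.2.2)
        (g := fun p n => limNs (2 ^ p.2.2) n) ?_ ?_ ?_
      · exact computable_trig.comp
          (Computable.fst.comp (Computable.fst.comp Computable.fst))
          (Computable.fst.comp Computable.snd)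
      · exact computable_pow.comp (Computable.snd.comp Computable.snd)
      · exact computable_limNs.comp
          (computable_pow.comp (Computable.snd.comp (Computable.snd.comp Computable.fst)))
          Computable.snd)
  exact h

theorem lt_seq (m x k : ℕ) : LtO (seq m x k) (seq m x (k + 1)) := by
  cases h : trig m k with
  | none =>
    rw [seq_none h]
    exact LtO.pow _
  | some n =>
    rw [seq_some h]
    exact lt_limNs_pow _ _

theorem exists_seqIdx : ∃ g : ℕ × ℕ → ℕ, Computable g ∧
    ∀ p k, seq p.1 p.2 k ∈ phi (g p) k := by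
  obtain ⟨g, hg, hg'⟩ := exists_index (α := ℕ × ℕ)
    (f := fun p k => Part.some (seq p.1 p.2 k)) computable_seq
  exact ⟨g, hg, fun p k => by rw [hg']; exact Part.mem_some _⟩

/-- an index of the sequence `seq m x` -/
noncomputable def seqIdx : ℕ × ℕ → ℕ := exists_seqIdx.choose

theorem computable_seqIdx : Computable seqIdx := exists_seqIdx.choose_spec.1

theorem seqIdx_spec (m x k : ℕ) : seq m x k ∈ phi (seqIdx (m, x)) k :=
  exists_seqIdx.choose_spec.2 (m, x) k

/-- the limit of the sequence `seq m x` -/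
noncomputable def lm (m x : ℕ) : ℕ := 3 * 5 ^ seqIdx (m, x)

theorem computable_lm : Computable₂ lm := by
  have h : Computable fun p : ℕ × ℕ => 3 * 5 ^ seqIdx (p.1, p.2) :=
    computable_three_mul.comp (computable_seqIdx.comp (Computable.fst.pair Computable.snd))
  exact h

theorem lt_lm (m x : ℕ) : LtO x (lm m x) := LtO.lim (seqIdx_spec m x 0)

/-- The value of the limit notation. -/
theorem denotes_lm (m : ℕ) {x : ℕ} {α : Ordinal.{0}} (h : Denotes x α)
    (hα : α < ω ^ (2 : Ordinal.{0})) :
    ∃ γ, Denotes (lm m x) γ ∧ α + ω ≤ γ ∧ γ < ω ^ (2 : Ordinal.{0}) := by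
  let o : ℕ → Ordinal.{0} := fun k => Nat.rec α
    (fun k y => Option.casesOn (trig m k) (y + 1) fun n => y + 1 + ω * (n : Ordinal.{0})) k
  have o0 : o 0 = α := rfl
  have on : ∀ k, trig m k = none → o (k + 1) = o k + 1 := by
    intro k hk
    simp [o, hk]
  have os : ∀ k n, trig m k = some n → o (k + 1) = o k + 1 + ω * (n : Ordinal.{0}) := by
    intro k n hk
    simp [o, hk]
  have hden : ∀ k, Denotes (seq m x k) (o k) := by
    intro k
    induction k with
    | zero => exact h
    | succ k ih =>
      cases hk : trig m k with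
      | none =>
        rw [seq_none hk, on k hk]
        exact Denotes.succ _ _ ih
      | some n =>
        rw [seq_some hk, os k n hk]
        exact (Denotes.succ _ _ ih).limNs n
  have hlt : ∀ k, o k < ω ^ (2 : Ordinal.{0}) := by
    intro k
    induction k with
    | zero => exact hα
    | succ k ih =>
      have h1 : o k + 1 < ω ^ (2 : Ordinal.{0}) :=
        add_lt_omega_sq ih (by simpa using nat_lt_omega_sq 1)
      cases hk : trig m k with
      | none =>
        rw [on k hk]
        exact h1
      | some n =>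
        rw [os k n hk]
        exact add_lt_omega_sq h1 (omega_mul_nat_lt n)
  have hstep : ∀ k, o k + 1 ≤ o (k + 1) := by
    intro k
    cases hk : trig m k with
    | none => rw [on k hk]
    | some n =>
      rw [os k n hk]
      exact le_self_add
  have hmono : ∀ k l, k ≤ l → o k ≤ o l := by
    intro k l hkl
    induction hkl with
    | refl => exact le_rfl
    | step _ ih => exact ih.trans (le_self_add.trans (hstep _))
  have hge : ∀ k : ℕ, α + (k : Ordinal.{0}) ≤ o k := by
    intro k
    induction k with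
    | zero => simp [o0]
    | succ k ih =>
      rw [Nat.cast_succ, ← add_assoc]
      exact (add_le_add_left ih 1).trans (hstep k)
  obtain ⟨K, hK⟩ := exists_trig_eventually m
  have hK' : ∀ j : ℕ, o (K + j) = o K + (j : Ordinal.{0}) := by
    intro j
    induction j with
    | zero => simp
    | succ j ih =>
      rw [← add_assoc K j 1, on _ (hK _ (Nat.le_add_right _ _)), ih, Nat.cast_succ, add_assoc]
  have hbd : ∀ k, o k ≤ o K + ω := by
    intro k
    rcases le_total k K with hk | hk
    · exact (hmono k K hk).trans le_self_add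
    · obtain ⟨j, rfl⟩ := Nat.exists_eq_add_of_le hk
      rw [hK']
      exact add_le_add_right (natCast_lt_omega0 j).le _
  refine ⟨⨆ k, o k, Denotes.lim _ (seq m x) o (seqIdx_spec m x) hden (lt_seq m x), ?_, ?_⟩
  · rw [← add_omega_eq_iSup]
    exact Ordinal.iSup_le fun k => (hge k).trans (Ordinal.le_iSup o k)
  · exact (Ordinal.iSup_le hbd).trans_lt (add_lt_omega_sq (hlt K) omega_lt_omega_sq)

/-! ## The notation `a` -/

/-- The sequence with limit `a`. -/
noncomputable def aSeq (m : ℕ) : ℕ :=
  Nat.rec (2 ^ lm 0 1) (fun m y => 2 ^ lm (m + 1) y) m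

theorem aSeq_zero : aSeq 0 = 2 ^ lm 0 1 := rfl

theorem aSeq_succ (m : ℕ) : aSeq (m + 1) = 2 ^ lm (m + 1) (aSeq m) := rfl

theorem computable_aSeq : Computable aSeq := by
  have h := Computable.nat_rec (α := ℕ) (σ := ℕ) (f := fun m => m)
    (g := fun _ => 2 ^ lm 0 1) (h := fun _ q => 2 ^ lm (q.1 + 1) q.2) Computable.id
    (Computable.const _) (computable_pow.comp (computable_lm.comp
      (Computable.succ.comp (Computable.fst.comp Computable.snd))
      (Computable.snd.comp Computable.snd)))
  exact h

theorem lt_aSeq (m : ℕ) : LtO (aSeq m) (aSeq (m + 1)) := by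
  rw [aSeq_succ]
  exact (lt_lm _ _).trans (LtO.pow _)

theorem exists_aSeq_eq (m : ℕ) : ∃ x, aSeq m = 2 ^ lm m x := by
  cases m with
  | zero => exact ⟨1, rfl⟩
  | succ m => exact ⟨_, aSeq_succ m⟩

theorem exists_denotes_aSeq (m : ℕ) : ∃ α, Denotes (aSeq m) α ∧ ω * (m : Ordinal.{0}) ≤ α ∧
    α < ω ^ (2 : Ordinal.{0}) := by
  induction m with
  | zero =>
    obtain ⟨γ, h1, h2, h3⟩ := denotes_lm 0 Denotes.zero (by simpa using nat_lt_omega_sq 0)
    refine ⟨γ + 1, Denotes.succ _ _ h1, by simp, ?_⟩
    exact add_lt_omega_sq h3 (by simpa using nat_lt_omega_sq 1)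
  | succ m ih =>
    obtain ⟨α, h1, h2, h3⟩ := ih
    obtain ⟨γ, h4, h5, h6⟩ := denotes_lm (m + 1) h1 h3
    refine ⟨γ + 1, Denotes.succ _ _ h4, ?_, ?_⟩
    · rw [Nat.cast_succ, mul_add_one]
      exact ((add_le_add_left h2 ω).trans h5).trans le_self_add
    · exact add_lt_omega_sq h6 (by simpa using nat_lt_omega_sq 1)

theorem exists_aIdx : ∃ e : ℕ, ∀ n, aSeq n ∈ phi e n := by
  obtain ⟨e, he⟩ := exists_phi (f := fun n => Part.some (aSeq n)) computable_aSeq
  exact ⟨e, fun n => by rw [he]; exact Part.mem_some _⟩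

/-- an index of the sequence `aSeq` -/
noncomputable def aIdx : ℕ := exists_aIdx.choose

theorem aIdx_spec (n : ℕ) : aSeq n ∈ phi aIdx n := exists_aIdx.choose_spec n

theorem denotes_a : Denotes (3 * 5 ^ aIdx) (ω ^ (2 : Ordinal.{0})) := by
  choose α h1 h2 h3 using exists_denotes_aSeq
  rw [← iSup_eq_omega_sq h3 h2]
  exact Denotes.lim _ _ _ aIdx_spec h1 lt_aSeq

/-! ## The diagonalization -/

theorem not_red {F : ℕ → ℕ → Prop} (hF : Iter Eq (3 * 5 ^ aIdx) F) :
    ¬ Red F (dsum fun n => wsum^[n] Eq) := by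
  rintro ⟨f, hf, hf'⟩
  obtain ⟨f', F, h1, h2, rfl⟩ := Iter.inv_lim hF
  have h3 : f' = aSeq := funext fun n => Part.mem_unique (h1 n) (aIdx_spec n)
  subst h3
  -- `φ_m = f`
  obtain ⟨m, hm⟩ := exists_phi (f := fun x => Part.some (f x)) hf
  obtain ⟨x, hx⟩ := exists_aSeq_eq m
  have h4 := h2 m
  rw [hx] at h4
  obtain ⟨C, hC, hCF⟩ := Iter.inv_pow (by unfold lm; positivity) h4
  have hCe : Equivalence C := hC.equivalence eq_equivalence
  -- the reduction of `C⁺` to a summand
  have hpc : Computable fun x => Nat.pair m x :=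
    (Primrec₂.natPair.to_comp).comp (Computable.const m) Computable.id
  have h5 : Red (jump C) (wsum^[(Nat.unpair (f (Nat.pair m e₀))).1] Eq) := by
    refine indecomposable (f := fun x => f (Nat.pair m x)) (F := fun n => wsum^[n] Eq)
      (hf.comp hpc) ?_ e₀_spec
    intro x y
    rw [← hf']
    simp only [dsum, Nat.unpair_pair, true_and]
    rw [hCF]
  obtain ⟨k, hk⟩ := exists_trig (m := m) (v := f (Nat.pair m e₀))
    (by rw [hm]; exact Part.mem_some _)
  set n₀ := (Nat.unpair (f (Nat.pair m e₀))).1 with hn₀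
  obtain ⟨s, S, h6, h7, h8⟩ := Iter.inv_lim hC
  have h9 : s = seq m x := funext fun n => Part.mem_unique (h6 n) (seqIdx_spec m x n)
  subst h9
  have hSe : ∀ k, Equivalence (S k) := fun k => (h7 k).equivalence eq_equivalence
  have h10 : Iter Eq (seq m x (k + 1)) (wsum^[n₀] (jump (S k))) := by
    rw [seq_some hk]
    exact (Iter.succ _ _ (h7 k)).limNs n₀
  have h11 : S (k + 1) = wsum^[n₀] (jump (S k)) := (h7 (k + 1)).unique h10
  have h12 : Red Eq (jump (S k)) := ((h7 k).red eq_equivalence).trans (red_jump (hSe k))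
  have h13 : Red (wsum^[n₀] Eq) (S (k + 1)) := by
    rw [h11]
    exact (Red.iterate_wsum (jump_equivalence _) h12 n₀).1
  have h14 : Red (S (k + 1)) C := by
    rw [h8]
    exact red_dsum S (k + 1)
  have h15 : Red (jump (wsum^[n₀] Eq)) (jump C) :=
    (h13.trans h14).jump (iterate_wsum_equivalence n₀) hCe
  exact not_red_jump_iterate_wsum n₀ (h15.trans h5)

/-- The main result. -/
theorem main : ∃ (a b : ℕ) (F G : ℕ → ℕ → Prop),
    Denotes a (ω ^ (2 : Ordinal.{0})) ∧ Denotes b (ω ^ (2 : Ordinal.{0})) ∧
    Iter Eq a F ∧ Iter Eq b G ∧ ¬ Red F G := by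
  obtain ⟨F, hF⟩ := denotes_a.exists_iter Eq
  exact ⟨_, _, F, _, denotes_a, denotes_b, hF, iter_b, not_red hF⟩

end Pool.Agent.H68.FS
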