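import Pool.Agent.H68.FSBasic

/-!
# A jump which reduces to a direct sum reduces to a summand
-/

namespace Pool.Agent.H68.FS

/-- an index of the empty function -/
theorem exists_empty : ∃ e₀ : ℕ, ∀ n, phi e₀ n = Part.none :=
  exists_phi (f := fun _ => Part.none) Partrec.none

theorem jump_of_empty {E : ℕ → ℕ → Prop} {e e' : ℕ} (h : ∀ n, phi e n = Part.none)
    (h' : ∀ n, phi e' n = Part.none) : jump E e e' := by
  have : ∀ e, (∀ n, phi e n = Part.none) → classes E e = ∅ := by
    intro e he
    apply Set.eq_empty_of_forall_notMem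
    rintro C ⟨n, x, hx, _⟩
    rw [he] at hx
    exact Part.notMem_none _ hx
  exact (this e h).trans (this e' h').symm

/-- If `f` reduces `E⁺` to `⊕ F_n` and maps an index of the empty function to an element of the
`n₀`-th summand, then `E⁺` reduces to `F_{n₀}`. -/
theorem indecomposable {E : ℕ → ℕ → Prop} {F : ℕ → ℕ → ℕ → Prop}
    {f : ℕ → ℕ} (hf : Computable f) (hred : ∀ x y, jump E x y ↔ dsum F (f x) (f y))
    {e₀ : ℕ} (he₀ : ∀ n, phi e₀ n = Part.none) :
    Red (jump E) (F (Nat.unpair (f e₀)).1) := by
  set n₀ := (Nat.unpair (f e₀)).1 with hn₀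
  -- `φ_{p e} = φ_e` if `f (p e)` lies in the `n₀`-th summand, and is empty otherwise
  obtain ⟨p, hp, hp'⟩ := exists_rec
    (f := fun e q x => bif decide ((Nat.unpair (f q)).1 = n₀) then phi e x else Part.none) (by
      refine Partrec.cond ?_ ?_ Partrec.none
      · have h1 : Computable fun p : (ℕ × ℕ) × ℕ => (Nat.unpair (f p.1.2)).1 :=
          Computable.fst.comp (Computable.unpair.comp
            (hf.comp (Computable.snd.comp Computable.fst)))
        exact (Primrec.eq.decide.to_comp).comp h1 (Computable.const n₀)
      · exact phi_part.comp (Computable.fst.comp Computable.fst) Computable.snd)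
  have hsum : ∀ e, (Nat.unpair (f (p e))).1 = n₀ := by
    intro e
    by_contra hne
    have hemp : ∀ n, phi (p e) n = Part.none := by
      intro n
      rw [hp']
      simp [hne]
    have h1 : jump E (p e) e₀ := jump_of_empty hemp he₀
    exact hne ((hred _ _).1 h1).1
  have hphi : ∀ e, phi (p e) = phi e := by
    intro e
    funext n
    rw [hp']
    simp [hsum e]
  have hclass : ∀ e, classes E (p e) = classes E e := by
    intro e
    simp only [classes, hphi]
  refine ⟨fun e => (Nat.unpair (f (p e))).2, ?_, fun x y => ?_⟩
  · exact Computable.snd.comp (Computable.unpair.comp (hf.comp hp))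
  · have h1 : jump E x y ↔ jump E (p x) (p y) := by
      simp only [jump, hclass]
    rw [h1, hred]
    unfold dsum
    rw [hsum x, hsum y]
    simp

end Pool.Agent.H68.FS
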