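import Pool.Agent.H68.FSSum

/-!
# Notations
-/

namespace Pool.Agent.H68.FS

open Nat.Partrec (Code)
open Nat.Partrec.Code
open Ordinal

/-! ## The relation `<_O` -/

theorem LtO.pow (x : ℕ) : LtO x (2 ^ x) := Relation.TransGen.single (Or.inl rfl)

theorem LtO.lim {e n x : ℕ} (h : x ∈ phi e n) : LtO x (3 * 5 ^ e) :=
  Relation.TransGen.single (Or.inr ⟨e, n, rfl, h⟩)

theorem LtO.trans {x y z : ℕ} (h : LtO x y) (h' : LtO y z) : LtO x z := Relation.TransGen.trans h h'

/-! ## Inversion and uniqueness -/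

theorem three_mul_inj {e e' : ℕ} (h : 3 * 5 ^ e = 3 * 5 ^ e') : e = e' := by
  have h1 : 5 ^ e = 5 ^ e' := Nat.eq_of_mul_eq_mul_left (by norm_num) h
  exact Nat.pow_right_injective (by norm_num) h1

theorem three_mul_ne_one (e : ℕ) : 3 * 5 ^ e ≠ 1 := by
  have h : 0 < 5 ^ e := Nat.pow_pos (by norm_num)
  generalize 5 ^ e = z at h
  omega

theorem two_pow_ne_three_mul (b e : ℕ) : 2 ^ b ≠ 3 * 5 ^ e := by
  intro h
  have h1 : 3 ∣ 2 ^ b := ⟨5 ^ e, h⟩
  have h2 := Nat.Prime.dvd_of_dvd_pow Nat.prime_three h1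
  omega

theorem Iter.inv {E : ℕ → ℕ → Prop} {a : ℕ} {F : ℕ → ℕ → Prop} (h : Iter E a F) :
    (a = 1 ∧ F = E) ∨ (∃ b G, a = 2 ^ b ∧ Iter E b G ∧ F = jump G) ∨
    ∃ (e : ℕ) (f : ℕ → ℕ) (G : ℕ → ℕ → ℕ → Prop), a = 3 * 5 ^ e ∧ (∀ n, f n ∈ phi e n) ∧
      (∀ n, Iter E (f n) (G n)) ∧ F = dsum G := by
  cases h with
  | zero => exact Or.inl ⟨rfl, rfl⟩
  | succ b G h => exact Or.inr (Or.inl ⟨b, G, rfl, h, rfl⟩)
  | lim e f G hf hG hlt => exact Or.inr (Or.inr ⟨e, f, G, rfl, hf, hG, rfl⟩)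

theorem Iter.pos {E : ℕ → ℕ → Prop} {a : ℕ} {F : ℕ → ℕ → Prop} (h : Iter E a F) : 0 < a := by
  rcases h.inv with ⟨rfl, _⟩ | ⟨b, G, rfl, _⟩ | ⟨e, f, G, rfl, _⟩
  · exact one_pos
  · positivity
  · positivity

theorem Iter.inv_pow {E : ℕ → ℕ → Prop} {b : ℕ} (hb : 0 < b) {F : ℕ → ℕ → Prop}
    (h : Iter E (2 ^ b) F) : ∃ G, Iter E b G ∧ F = jump G := by
  rcases h.inv with ⟨h1, _⟩ | ⟨b', G, h1, h2, h3⟩ | ⟨e, f, G, h1, _⟩
  · have : 2 ^ b ≠ 1 := by
      have := Nat.one_lt_two_pow hb.ne'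
      omega
    exact absurd h1 this
  · have : b = b' := Nat.pow_right_injective (le_refl 2) h1
    subst this
    exact ⟨G, h2, h3⟩
  · exact absurd h1 (two_pow_ne_three_mul b e)

theorem Iter.inv_lim {E : ℕ → ℕ → Prop} {e : ℕ} {F : ℕ → ℕ → Prop}
    (h : Iter E (3 * 5 ^ e) F) :
    ∃ (f : ℕ → ℕ) (G : ℕ → ℕ → ℕ → Prop), (∀ n, f n ∈ phi e n) ∧
      (∀ n, Iter E (f n) (G n)) ∧ F = dsum G := by
  rcases h.inv with ⟨h1, _⟩ | ⟨b', G, h1, h2, h3⟩ | ⟨e', f, G, h1, h2, h3, h4⟩
  · exact absurd h1 (three_mul_ne_one e)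
  · exact absurd h1.symm (two_pow_ne_three_mul b' e)
  · have := three_mul_inj h1
    subst this
    exact ⟨f, G, h2, h3, h4⟩

/-- The iterate `E^{+a}` is unique. -/
theorem Iter.unique {E : ℕ → ℕ → Prop} {a : ℕ} {F G : ℕ → ℕ → Prop} (h : Iter E a F)
    (h' : Iter E a G) : F = G := by
  induction h generalizing G with
  | zero =>
    rcases h'.inv with ⟨_, h2⟩ | ⟨b', H, h1, h2, _⟩ | ⟨e', f, G', h1, _⟩
    · exact h2.symm
    · have h4 : b' = 0 := by
        by_contra hne
        have h5 := Nat.one_lt_two_pow hne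
        omega
      have h6 := h2.pos
      omega
    · exact absurd h1.symm (three_mul_ne_one e')
  | succ b F h ih =>
    obtain ⟨H, h1, h2⟩ := Iter.inv_pow h.pos h'
    rw [h2, ih h1]
  | lim e f F hf hF hlt ih =>
    obtain ⟨f', H, h1, h2, h3⟩ := Iter.inv_lim h'
    have h4 : f' = f := funext fun n => Part.mem_unique (h1 n) (hf n)
    subst h4
    have h5 : F = H := funext fun n => ih n (h2 n)
    rw [h3, h5]

/-- Every notation has an iterate. -/
theorem Denotes.exists_iter (E : ℕ → ℕ → Prop) {a : ℕ} {α : Ordinal.{0}} (h : Denotes a α) :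
    ∃ F, Iter E a F := by
  induction h with
  | zero => exact ⟨E, Iter.zero⟩
  | succ a α h ih =>
    obtain ⟨F, hF⟩ := ih
    exact ⟨jump F, Iter.succ _ _ hF⟩
  | lim e f α hf hα hlt ih =>
    choose F hF using ih
    exact ⟨dsum F, Iter.lim e f F hf hF hlt⟩

/-! ## Computability of the basic operations -/

theorem computable_pow : Computable fun x : ℕ => 2 ^ x := by
  have h : Primrec₂ fun (x y : ℕ) => x ^ y := Primrec₂.unpaired'.1 Nat.Primrec.pow
  exact (h.comp (Primrec.const 2) Primrec.id).to_comp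

theorem computable_three_mul : Computable fun x : ℕ => 3 * 5 ^ x := by
  have h : Primrec₂ fun (x y : ℕ) => x ^ y := Primrec₂.unpaired'.1 Nat.Primrec.pow
  exact (Primrec.nat_mul.comp (Primrec.const 3) (h.comp (Primrec.const 5) Primrec.id)).to_comp

/-- `up x k` is the notation of `|x| + k` extending `x`. -/
def up (x k : ℕ) : ℕ := Nat.rec x (fun _ y => 2 ^ y) k

theorem computable_up : Computable₂ up := by
  have h := Computable.nat_rec (α := ℕ × ℕ) (σ := ℕ) (f := fun p => p.2) (g := fun p => p.1)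
    (h := fun _ q => 2 ^ q.2) Computable.snd Computable.fst
    (computable_pow.comp (Computable.snd.comp Computable.snd))
  exact h

theorem up_zero (x : ℕ) : up x 0 = x := rfl

theorem up_succ (x k : ℕ) : up x (k + 1) = 2 ^ up x k := rfl

/-- an index of the sequence `k ↦ up x k` -/
theorem exists_limIdx : ∃ l : ℕ → ℕ, Computable l ∧ ∀ x k, up x k ∈ phi (l x) k := by
  obtain ⟨l, hl, hl'⟩ := exists_index (α := ℕ) (f := fun x k => Part.some (up x k)) computable_up
  exact ⟨l, hl, fun x k => by rw [hl']; exact Part.mem_some _⟩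

/-- a computable function choosing an index of the sequence `k ↦ up x k` -/
noncomputable def limIdx : ℕ → ℕ := exists_limIdx.choose

theorem computable_limIdx : Computable limIdx := exists_limIdx.choose_spec.1

theorem limIdx_spec (x k : ℕ) : up x k ∈ phi (limIdx x) k := exists_limIdx.choose_spec.2 x k

/-- `limN x` is a notation of `|x| + ω` above `x`. -/
noncomputable def limN (x : ℕ) : ℕ := 3 * 5 ^ limIdx x

theorem computable_limN : Computable limN := computable_three_mul.comp computable_limIdx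

theorem lt_limN (x : ℕ) : LtO x (limN x) := LtO.lim (limIdx_spec x 0)

/-- `limNs x n` is a notation of `|x| + ω·n`. -/
noncomputable def limNs (x n : ℕ) : ℕ := Nat.rec x (fun _ y => limN y) n

theorem computable_limNs : Computable₂ limNs := by
  have h := Computable.nat_rec (α := ℕ × ℕ) (σ := ℕ) (f := fun p => p.2) (g := fun p => p.1)
    (h := fun _ q => limN q.2) Computable.snd Computable.fst
    (computable_limN.comp (Computable.snd.comp Computable.snd))
  exact h

theorem limNs_succ (x n : ℕ) : limNs x (n + 1) = limN (limNs x n) := rfl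

theorem lt_limNs_pow (x n : ℕ) : LtO x (limNs (2 ^ x) n) := by
  induction n with
  | zero => exact LtO.pow x
  | succ n ih => exact ih.trans (lt_limN _)

/-! ## Ordinals -/

theorem add_omega_eq_iSup (α : Ordinal.{0}) : (⨆ k : ℕ, (α + (k : Ordinal.{0}))) = α + ω := by
  apply le_antisymm
  · exact Ordinal.iSup_le fun k => by gcongr; exact (natCast_lt_omega0 k).le
  · rw [add_le_iff_of_isSuccLimit isSuccLimit_omega0]
    intro b hb
    obtain ⟨n, rfl⟩ := lt_omega0.1 hb
    exact Ordinal.le_iSup (fun k : ℕ => α + (k : Ordinal.{0})) n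

theorem Denotes.up {x : ℕ} {α : Ordinal.{0}} (h : Denotes x α) (k : ℕ) :
    Denotes (FS.up x k) (α + (k : Ordinal.{0})) := by
  induction k with
  | zero => simpa [FS.up] using h
  | succ k ih =>
    rw [up_succ, Nat.cast_succ, ← add_assoc]
    exact Denotes.succ _ _ ih

theorem Denotes.limN {x : ℕ} {α : Ordinal.{0}} (h : Denotes x α) :
    Denotes (FS.limN x) (α + ω) := by
  rw [← add_omega_eq_iSup]
  exact Denotes.lim _ (FS.up x) _ (limIdx_spec x) (fun k => h.up k) fun k => LtO.pow _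

theorem Denotes.limNs {x : ℕ} {α : Ordinal.{0}} (h : Denotes x α) (n : ℕ) :
    Denotes (FS.limNs x n) (α + ω * (n : Ordinal.{0})) := by
  induction n with
  | zero => simpa [FS.limNs] using h
  | succ n ih =>
    rw [limNs_succ, Nat.cast_succ, mul_add_one, ← add_assoc]
    exact ih.limN

theorem add_lt_omega_sq {α β : Ordinal.{0}} (hα : α < ω ^ (2 : Ordinal.{0}))
    (hβ : β < ω ^ (2 : Ordinal.{0})) : α + β < ω ^ (2 : Ordinal.{0}) :=
  isPrincipal_add_omega0_opow _ hα hβ

theorem omega_sq_eq : (ω : Ordinal.{0}) ^ (2 : Ordinal.{0}) = ω * ω := by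
  have : (2 : Ordinal.{0}) = ((2 : ℕ) : Ordinal.{0}) := by norm_num
  rw [this, opow_natCast, pow_two]

theorem omega_mul_nat_lt (n : ℕ) : ω * (n : Ordinal.{0}) < ω ^ (2 : Ordinal.{0}) := by
  rw [omega_sq_eq]
  exact mul_lt_mul_of_pos_left (natCast_lt_omega0 n) omega0_pos

theorem nat_lt_omega_sq (n : ℕ) : (n : Ordinal.{0}) < ω ^ (2 : Ordinal.{0}) := by
  refine (natCast_lt_omega0 n).trans ?_
  have := omega_mul_nat_lt 1
  simpa using this

theorem omega_lt_omega_sq : (ω : Ordinal.{0}) < ω ^ (2 : Ordinal.{0}) := by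
  have := omega_mul_nat_lt 1
  simpa using this

theorem iSup_eq_omega_sq {α : ℕ → Ordinal.{0}} (h1 : ∀ n, α n < ω ^ (2 : Ordinal.{0}))
    (h2 : ∀ n : ℕ, ω * (n : Ordinal.{0}) ≤ α n) : (⨆ n, α n) = ω ^ (2 : Ordinal.{0}) := by
  apply le_antisymm
  · exact Ordinal.iSup_le fun n => (h1 n).le
  · rw [omega_sq_eq, mul_le_iff_of_isSuccLimit isSuccLimit_omega0]
    intro b hb
    obtain ⟨n, rfl⟩ := lt_omega0.1 hb
    exact (h2 n).trans (Ordinal.le_iSup α n)

/-! ## The standard notation of `ω²` -/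

theorem exists_bIdx : ∃ e : ℕ, ∀ n, limNs 1 n ∈ phi e n := by
  obtain ⟨e, he⟩ := exists_phi (f := fun n => Part.some (limNs 1 n))
    (computable_limNs.comp (Computable.const 1) Computable.id)
  exact ⟨e, fun n => by rw [he]; exact Part.mem_some _⟩

/-- an index of the sequence of the standard notations of `ω·n` -/
noncomputable def bIdx : ℕ := exists_bIdx.choose

theorem bIdx_spec (n : ℕ) : limNs 1 n ∈ phi bIdx n := exists_bIdx.choose_spec n

theorem denotes_b : Denotes (3 * 5 ^ bIdx) (ω ^ (2 : Ordinal.{0})) := by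
  have h : ∀ n : ℕ, Denotes (limNs 1 n) (0 + ω * n) := fun n => Denotes.zero.limNs n
  have h2 : (⨆ n : ℕ, (0 + ω * (n : Ordinal.{0}))) = ω ^ (2 : Ordinal.{0}) :=
    iSup_eq_omega_sq (fun n => by rw [zero_add]; exact omega_mul_nat_lt n)
      (fun n => by rw [zero_add])
  rw [← h2]
  exact Denotes.lim _ _ _ bIdx_spec h fun n => lt_limN _

/-! ## Iterates along `limN` -/

theorem Iter.up {E : ℕ → ℕ → Prop} {x : ℕ} {F : ℕ → ℕ → Prop} (h : Iter E x F) (k : ℕ) :
    Iter E (FS.up x k) (jump^[k] F) := by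
  induction k with
  | zero => exact h
  | succ k ih =>
    rw [up_succ, Function.iterate_succ_apply']
    exact Iter.succ _ _ ih

theorem Iter.limN {E : ℕ → ℕ → Prop} {x : ℕ} {F : ℕ → ℕ → Prop} (h : Iter E x F) :
    Iter E (FS.limN x) (wsum F) :=
  Iter.lim _ (FS.up x) _ (limIdx_spec x) (fun k => h.up k) fun k => LtO.pow _

theorem Iter.limNs {E : ℕ → ℕ → Prop} {x : ℕ} {F : ℕ → ℕ → Prop} (h : Iter E x F) (n : ℕ) :
    Iter E (FS.limNs x n) (wsum^[n] F) := by
  induction n with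
  | zero => exact h
  | succ n ih =>
    rw [limNs_succ, Function.iterate_succ_apply']
    exact ih.limN

theorem iter_b : Iter Eq (3 * 5 ^ bIdx) (dsum fun n => wsum^[n] Eq) :=
  Iter.lim _ _ _ bIdx_spec (fun n => Iter.zero.limNs n) fun n => lt_limN _

theorem Red.wsum {E F : ℕ → ℕ → Prop} (hE : Equivalence E) (hF : Equivalence F) (h : Red E F) :
    Red (FS.wsum E) (FS.wsum F) := by
  obtain ⟨r, hr⟩ := h.redW
  obtain ⟨J, hJ, hJ'⟩ := exists_jumpRed
  have hk : ∀ k : ℕ, RedW (FS.jump^[k] E) (FS.jump^[k] F) (J^[k] r) := by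
    intro k
    induction k with
    | zero => exact hr
    | succ k ih =>
      rw [Function.iterate_succ_apply', Function.iterate_succ_apply', Function.iterate_succ_apply']
      exact hJ' _ _ (iterate_jump_equivalence hE k) (iterate_jump_equivalence hF k) _ ih
  choose f hf hf' using hk
  refine ⟨fun p => Nat.pair (Nat.unpair p).1 (f (Nat.unpair p).1 (Nat.unpair p).2), ?_, ?_⟩
  · have h1 : Partrec fun p : ℕ => phi (J^[(Nat.unpair p).1] r) (Nat.unpair p).2 :=
      phi_part.comp ((computable_iterate hJ r).comp (Computable.fst.comp Computable.unpair))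
        (Computable.snd.comp Computable.unpair)
    have h2 : (fun p : ℕ => phi (J^[(Nat.unpair p).1] r) (Nat.unpair p).2)
        = fun p => Part.some (f (Nat.unpair p).1 (Nat.unpair p).2) :=
      funext fun p => Part.eq_some_iff.2 (hf _ _)
    rw [h2] at h1
    have h3 : Computable fun p : ℕ => f (Nat.unpair p).1 (Nat.unpair p).2 := h1
    exact (Primrec₂.natPair.to_comp).comp (Computable.fst.comp Computable.unpair) h3
  · intro p q
    simp only [FS.wsum, dsum, Nat.unpair_pair]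
    constructor
    · rintro ⟨h1, h2⟩
      refine ⟨h1, ?_⟩
      rw [← h1]
      exact (hf' _ _ _).1 h2
    · rintro ⟨h1, h2⟩
      refine ⟨h1, ?_⟩
      rw [← h1] at h2
      exact (hf' _ _ _).2 h2

theorem Red.iterate_wsum {F : ℕ → ℕ → Prop} (hF : Equivalence F) (h : Red Eq F) (n : ℕ) :
    Red (FS.wsum^[n] Eq) (FS.wsum^[n] F) ∧ Equivalence (FS.wsum^[n] F) := by
  induction n with
  | zero => exact ⟨h, hF⟩
  | succ n ih =>
    rw [Function.iterate_succ_apply', Function.iterate_succ_apply']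
    exact ⟨ih.1.wsum (iterate_wsum_equivalence n) ih.2, wsum_equivalence ih.2⟩

end Pool.Agent.H68.FS
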