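import Pool.Agent.H68.FSDec

/-!
# Direct sums of iterated jumps
-/

namespace Pool.Agent.H68.FS

theorem iterate_jump_equivalence {F : ℕ → ℕ → Prop} (hF : Equivalence F) (k : ℕ) :
    Equivalence (jump^[k] F) := by
  cases k with
  | zero => exact hF
  | succ k =>
    rw [Function.iterate_succ_apply']
    exact jump_equivalence _

/-- `F ⊕ F⁺ ⊕ F⁺⁺ ⊕ ...` -/
def wsum (F : ℕ → ℕ → Prop) : ℕ → ℕ → Prop := dsum fun k => jump^[k] F

theorem wsum_equivalence {F : ℕ → ℕ → Prop} (hF : Equivalence F) : Equivalence (wsum F) :=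
  dsum_equivalence (iterate_jump_equivalence hF)

theorem computable_iterate {α : Type*} [Primcodable α] {L : α → α} (hL : Computable L) (d : α) :
    Computable fun k : ℕ => L^[k] d := by
  have h : Computable fun k : ℕ => (Nat.rec d (fun _ x => L x) k : α) :=
    Computable.nat_rec (f := fun k : ℕ => k) (g := fun _ => d) (h := fun _ p => L p.2)
      Computable.id (Computable.const d) (hL.comp (Computable.snd.comp Computable.snd))
  refine h.of_eq fun k => ?_
  induction k with
  | zero => rfl
  | succ k ih => rw [Function.iterate_succ_apply', ← ih]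

/-- If `F` can be decided in `F^{+j}`, then `⊕_k F^{+k}` can be decided in its second jump. -/
theorem decW_wsum {F : ℕ → ℕ → Prop} (hF : Equivalence F) {j : ℕ} {d : ℕ × ℕ × ℕ}
    (hd : DecW F (jump^[j] F) d) : ∃ d', DecW (wsum F) (jump (jump (wsum F))) d' := by
  obtain ⟨L, hL, hL'⟩ := exists_decJump
  -- `D k` decides `F^{+k}` in `F^{+(2k+j)}`
  let D : ℕ → ℕ × ℕ × ℕ := fun k => L^[k] d
  have hDc : Computable D := computable_iterate hL d
  have hD : ∀ k, DecW (jump^[k] F) (jump^[2 * k + j] F) (D k) := by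
    intro k
    induction k with
    | zero => simpa [D] using hd
    | succ k ih =>
      have h1 : D (k + 1) = L (D k) := Function.iterate_succ_apply' L k d
      have h2 : 2 * (k + 1) + j = (2 * k + j) + 1 + 1 := by ring
      rw [h1, h2, Function.iterate_succ_apply', Function.iterate_succ_apply',
        Function.iterate_succ_apply']
      exact hL' _ _ (iterate_jump_equivalence hF _) (iterate_jump_equivalence hF _) _ ih
  have hW := wsum_equivalence hF
  have hW1 := jump_equivalence (wsum F)
  have hW2 := jump_equivalence (jump (wsum F))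
  let TR : ℕ → ℕ := fun k => Nat.pair (2 * k + j) (D k).2.1
  let FA : ℕ → ℕ := fun k => Nat.pair (2 * k + j) (D k).2.2
  have hk : Computable fun k : ℕ => 2 * k + j :=
    (Primrec.nat_add.comp (Primrec.nat_mul.comp (Primrec.const 2) Primrec.id)
      (Primrec.const j)).to_comp
  have hTRc : Computable TR := (Primrec₂.natPair.to_comp).comp hk
    (Computable.fst.comp (Computable.snd.comp hDc))
  have hFAc : Computable FA := (Primrec₂.natPair.to_comp).comp hk
    (Computable.snd.comp (Computable.snd.comp hDc))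
  have hTT : ∀ k i, wsum F (TR k) (TR i) ↔ k = i := by
    intro k i
    constructor
    · rintro ⟨h1, _⟩
      simp only [TR, Nat.unpair_pair] at h1
      omega
    · rintro rfl
      exact hW.refl _
  have hFF : ∀ k i, wsum F (FA k) (FA i) ↔ k = i := by
    intro k i
    constructor
    · rintro ⟨h1, _⟩
      simp only [FA, Nat.unpair_pair] at h1
      omega
    · rintro rfl
      exact hW.refl _
  have hTF : ∀ k i, ¬ wsum F (TR k) (FA i) := by
    rintro k i ⟨h1, h2⟩
    simp only [TR, FA, Nat.unpair_pair] at h1 h2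
    have : k = i := by omega
    subst this
    exact (hD k).1 h2
  -- `V (v, k)` enumerates `{v} ∪ {TR i : i} ∪ {FA i : i ≠ k}`
  obtain ⟨V, hV, hV'⟩ := exists_index_total (α := ℕ × ℕ)
    (g := fun p n => Nat.casesOn n p.1 fun m => bif decide ((Nat.unpair m).1 = 0)
      then TR (Nat.unpair m).2
      else bif decide ((Nat.unpair m).2 = p.2) then p.1 else FA (Nat.unpair m).2) (by
      refine Computable.nat_casesOn Computable.snd (Computable.fst.comp Computable.fst) ?_
      refine Computable.cond ?_ ?_ (Computable.cond ?_ ?_ ?_)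
      · exact (Primrec.eq.decide.to_comp).comp
          (Computable.fst.comp (Computable.unpair.comp Computable.snd)) (Computable.const 0)
      · exact hTRc.comp (Computable.snd.comp (Computable.unpair.comp Computable.snd))
      · exact (Primrec.eq.decide.to_comp).comp
          (Computable.snd.comp (Computable.unpair.comp Computable.snd))
          (Computable.snd.comp (Computable.fst.comp Computable.fst))
      · exact Computable.fst.comp (Computable.fst.comp Computable.fst)
      · exact hFAc.comp (Computable.snd.comp (Computable.unpair.comp Computable.snd)))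
  have RV : ∀ v k z, z ∈ Ran (V (v, k)) ↔ z = v ∨ (∃ i, z = TR i) ∨ ∃ i, i ≠ k ∧ z = FA i := by
    intro v k z
    rw [hV']
    constructor
    · rintro ⟨n, rfl⟩
      cases n with
      | zero => exact Or.inl rfl
      | succ m =>
        by_cases h : (Nat.unpair m).1 = 0
        · exact Or.inr (Or.inl ⟨(Nat.unpair m).2, by simp only [h, decide_true, cond_true]⟩)
        · by_cases h' : (Nat.unpair m).2 = k
          · exact Or.inl (by simp only [h, h', decide_false, cond_false, decide_true, cond_true])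
          · exact Or.inr (Or.inr ⟨(Nat.unpair m).2, h', by
              simp only [h, h', decide_false, cond_false]⟩)
    · rintro (rfl | ⟨i, rfl⟩ | ⟨i, hi, rfl⟩)
      · exact ⟨0, rfl⟩
      · exact ⟨Nat.pair 0 i + 1, by simp⟩
      · exact ⟨Nat.pair 1 i + 1, by simp [hi]⟩
  -- `A` enumerates `{TR i, FA i : i}`
  obtain ⟨A', _, hA'⟩ := exists_index_total (α := ℕ)
    (g := fun _ n => bif decide ((Nat.unpair n).1 = 0)
      then TR (Nat.unpair n).2 else FA (Nat.unpair n).2) (by
      refine Computable.cond ?_ ?_ ?_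
      · exact (Primrec.eq.decide.to_comp).comp
          (Computable.fst.comp (Computable.unpair.comp Computable.snd)) (Computable.const 0)
      · exact hTRc.comp (Computable.snd.comp (Computable.unpair.comp Computable.snd))
      · exact hFAc.comp (Computable.snd.comp (Computable.unpair.comp Computable.snd)))
  set A := A' 0 with hAdef
  have RA : ∀ z, z ∈ Ran A ↔ (∃ i, z = TR i) ∨ ∃ i, z = FA i := by
    intro z
    rw [hAdef, hA']
    constructor
    · rintro ⟨n, rfl⟩
      by_cases h : (Nat.unpair n).1 = 0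
      · exact Or.inl ⟨(Nat.unpair n).2, by simp only [h, decide_true, cond_true]⟩
      · exact Or.inr ⟨(Nat.unpair n).2, by simp only [h, decide_false, cond_false]⟩
    · rintro (⟨i, rfl⟩ | ⟨i, rfl⟩)
      · exact ⟨Nat.pair 0 i, by simp⟩
      · exact ⟨Nat.pair 1 i, by simp⟩
  -- `M i` enumerates `{TR i : i} ∪ {FA i : i ≠ k}`
  let M : ℕ → ℕ := fun i => V (TR i, i)
  have hMc : Computable M := hV.comp (hTRc.pair Computable.id)
  have hV_true : ∀ v k, wsum F v (TR k) → jump (wsum F) (V (v, k)) (M k) := by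
    intro v k h
    rw [jump_ran hW]
    constructor
    · intro z hz
      rcases (RV v k z).1 hz with rfl | ⟨i, rfl⟩ | ⟨i, hi, rfl⟩
      · exact ⟨_, (RV _ _ _).2 (Or.inl rfl), h⟩
      · exact ⟨_, (RV _ _ _).2 (Or.inr (Or.inl ⟨i, rfl⟩)), hW.refl _⟩
      · exact ⟨_, (RV _ _ _).2 (Or.inr (Or.inr ⟨i, hi, rfl⟩)), hW.refl _⟩
    · intro z hz
      rcases (RV _ k z).1 hz with rfl | ⟨i, rfl⟩ | ⟨i, hi, rfl⟩
      · exact ⟨_, (RV _ _ _).2 (Or.inl rfl), h⟩
      · exact ⟨_, (RV _ _ _).2 (Or.inr (Or.inl ⟨i, rfl⟩)), hW.refl _⟩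
      · exact ⟨_, (RV _ _ _).2 (Or.inr (Or.inr ⟨i, hi, rfl⟩)), hW.refl _⟩
  have hV_false : ∀ v k, wsum F v (FA k) → jump (wsum F) (V (v, k)) A := by
    intro v k h
    rw [jump_ran hW]
    constructor
    · intro z hz
      rcases (RV v k z).1 hz with rfl | ⟨i, rfl⟩ | ⟨i, hi, rfl⟩
      · exact ⟨_, (RA _).2 (Or.inr ⟨k, rfl⟩), h⟩
      · exact ⟨_, (RA _).2 (Or.inl ⟨i, rfl⟩), hW.refl _⟩
      · exact ⟨_, (RA _).2 (Or.inr ⟨i, rfl⟩), hW.refl _⟩
    · intro z hz
      rcases (RA z).1 hz with ⟨i, rfl⟩ | ⟨i, rfl⟩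
      · exact ⟨_, (RV _ _ _).2 (Or.inr (Or.inl ⟨i, rfl⟩)), hW.refl _⟩
      · by_cases hik : i = k
        · subst hik
          exact ⟨_, (RV _ _ _).2 (Or.inl rfl), h⟩
        · exact ⟨_, (RV _ _ _).2 (Or.inr (Or.inr ⟨i, hik, rfl⟩)), hW.refl _⟩
  have hMA : ∀ k, ¬ jump (wsum F) (M k) A := by
    intro k h
    rw [jump_ran hW] at h
    obtain ⟨z, hz, hzA⟩ := h.2 (FA k) ((RA _).2 (Or.inr ⟨k, rfl⟩))
    rcases (RV _ _ _).1 hz with rfl | ⟨i, rfl⟩ | ⟨i, hi, rfl⟩
    · exact hTF _ _ hzA
    · exact hTF _ _ hzA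
    · exact hi ((hFF _ _).1 hzA)
  -- `W p` enumerates `{V p} ∪ {M i : i}`
  obtain ⟨W, hWc, hW'⟩ := exists_index_total (α := ℕ × ℕ)
    (g := fun p n => Nat.casesOn n (V p) M) (by
      refine Computable.nat_casesOn Computable.snd (hV.comp Computable.fst) ?_
      exact hMc.comp Computable.snd)
  have RW : ∀ p z, z ∈ Ran (W p) ↔ z = V p ∨ ∃ i, z = M i := by
    intro p z
    rw [hW']
    constructor
    · rintro ⟨n, rfl⟩
      cases n with
      | zero => exact Or.inl rfl
      | succ m => exact Or.inr ⟨m, rfl⟩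
    · rintro (rfl | ⟨i, rfl⟩)
      · exact ⟨0, rfl⟩
      · exact ⟨i + 1, rfl⟩
  obtain ⟨T', _, hT'⟩ := exists_index_total (α := ℕ) (g := fun _ n => M n)
    (hMc.comp Computable.snd)
  obtain ⟨U', _, hU'⟩ := exists_index_total (α := ℕ)
    (g := fun _ n => Nat.casesOn n A M) (by
      refine Computable.nat_casesOn Computable.snd (Computable.const A) ?_
      exact hMc.comp Computable.snd)
  have RT : ∀ z, z ∈ Ran (T' 0) ↔ ∃ i, z = M i := by
    intro z
    rw [hT']
    constructor
    · rintro ⟨n, rfl⟩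
      exact ⟨n, rfl⟩
    · rintro ⟨n, rfl⟩
      exact ⟨n, rfl⟩
  have RU : ∀ z, z ∈ Ran (U' 0) ↔ z = A ∨ ∃ i, z = M i := by
    intro z
    rw [hU']
    constructor
    · rintro ⟨n, rfl⟩
      cases n with
      | zero => exact Or.inl rfl
      | succ m => exact Or.inr ⟨m, rfl⟩
    · rintro (rfl | ⟨i, rfl⟩)
      · exact ⟨0, rfl⟩
      · exact ⟨i + 1, rfl⟩
  choose τ hτ hτ' using fun k => (hD k).2
  -- the value `v(x, y)`
  let vf : ℕ → ℕ → ℕ := fun x y =>
    if (Nat.unpair x).1 = (Nat.unpair y).1 then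
      Nat.pair (2 * (Nat.unpair x).1 + j) (τ (Nat.unpair x).1 (Nat.unpair x).2 (Nat.unpair y).2)
    else FA (Nat.unpair x).1
  have hvf : ∀ x y, (wsum F x y → wsum F (vf x y) (TR (Nat.unpair x).1)) ∧
      (¬ wsum F x y → wsum F (vf x y) (FA (Nat.unpair x).1)) := by
    intro x y
    constructor
    · rintro ⟨h1, h2⟩
      have h3 := (hτ' _ _ _).1 h2
      simp only [vf, TR, h1, if_true]
      rw [← h1]
      refine ⟨by simp, ?_⟩
      simpa using h3
    · intro h
      by_cases h1 : (Nat.unpair x).1 = (Nat.unpair y).1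
      · have h2 : ¬ (jump^[(Nat.unpair x).1] F) (Nat.unpair x).2 (Nat.unpair y).2 :=
          fun h2 => h ⟨h1, h2⟩
        have h3 := (hτ' _ _ _).2 h2
        simp only [vf, FA, h1, if_true]
        rw [← h1]
        refine ⟨by simp, ?_⟩
        simpa using h3
      · simp only [vf, h1, if_false]
        exact hW.refl _
  obtain ⟨t', ht'⟩ := exists_phi
    (f := fun p => bif decide ((Nat.unpair (Nat.unpair p).1).1 = (Nat.unpair (Nat.unpair p).2).1)
      then (phi (D (Nat.unpair (Nat.unpair p).1).1).1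
        (Nat.pair (Nat.unpair (Nat.unpair p).1).2 (Nat.unpair (Nat.unpair p).2).2)).map fun z =>
          W (Nat.pair (2 * (Nat.unpair (Nat.unpair p).1).1 + j) z, (Nat.unpair (Nat.unpair p).1).1)
      else Part.some (W (FA (Nat.unpair (Nat.unpair p).1).1, (Nat.unpair (Nat.unpair p).1).1))) (by
      have c1 : Computable fun p => (Nat.unpair (Nat.unpair p).1).1 :=
        Computable.fst.comp (Computable.unpair.comp (Computable.fst.comp Computable.unpair))
      have c2 : Computable fun p => (Nat.unpair (Nat.unpair p).2).1 :=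
        Computable.fst.comp (Computable.unpair.comp (Computable.snd.comp Computable.unpair))
      have c3 : Computable fun p => (Nat.unpair (Nat.unpair p).1).2 :=
        Computable.snd.comp (Computable.unpair.comp (Computable.fst.comp Computable.unpair))
      have c4 : Computable fun p => (Nat.unpair (Nat.unpair p).2).2 :=
        Computable.snd.comp (Computable.unpair.comp (Computable.snd.comp Computable.unpair))
      refine Partrec.cond ?_ ?_ ?_
      · exact (Primrec.eq.decide.to_comp).comp c1 c2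
      · refine Partrec.map ?_ ?_
        · exact phi_part.comp (Computable.fst.comp (hDc.comp c1))
            ((Primrec₂.natPair.to_comp).comp c3 c4)
        · exact hWc.comp (Computable.pair
            ((Primrec₂.natPair.to_comp).comp (hk.comp (c1.comp Computable.fst)) Computable.snd)
            (c1.comp Computable.fst))
      · exact hWc.comp (Computable.pair (hFAc.comp c1) c1))
  refine ⟨(t', T' 0, U' 0), ?_, fun x y => W (vf x y, (Nat.unpair x).1), ?_, ?_⟩
  · change ¬ jump (jump (wsum F)) (T' 0) (U' 0)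
    rw [jump_ran hW1]
    rintro ⟨_, h2⟩
    obtain ⟨z, hz, hzA⟩ := h2 A ((RU _).2 (Or.inl rfl))
    obtain ⟨i, rfl⟩ := (RT z).1 hz
    exact hMA i hzA
  · intro x y
    rw [ht']
    by_cases h1 : (Nat.unpair x).1 = (Nat.unpair y).1
    · simp only [Nat.unpair_pair, h1, decide_true, cond_true, vf, if_true]
      refine (Part.mem_map_iff _).2 ⟨_, hτ _ _ _, rfl⟩
    · simp only [Nat.unpair_pair, h1, decide_false, cond_false, vf, if_false]
      exact Part.mem_some _
  · intro x y
    change (wsum F x y → jump (jump (wsum F)) (W (vf x y, (Nat.unpair x).1)) (T' 0)) ∧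
      (¬ wsum F x y → jump (jump (wsum F)) (W (vf x y, (Nat.unpair x).1)) (U' 0))
    constructor
    · intro h
      have h1 := hV_true _ _ ((hvf x y).1 h)
      rw [jump_ran hW1]
      constructor
      · intro z hz
        rcases (RW _ z).1 hz with rfl | ⟨i, rfl⟩
        · exact ⟨_, (RT _).2 ⟨_, rfl⟩, h1⟩
        · exact ⟨_, (RT _).2 ⟨i, rfl⟩, hW1.refl _⟩
      · intro z hz
        obtain ⟨i, rfl⟩ := (RT z).1 hz
        exact ⟨_, (RW _ _).2 (Or.inr ⟨i, rfl⟩), hW1.refl _⟩
    · intro h
      have h1 := hV_false _ _ ((hvf x y).2 h)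
      rw [jump_ran hW1]
      constructor
      · intro z hz
        rcases (RW _ z).1 hz with rfl | ⟨i, rfl⟩
        · exact ⟨_, (RU _).2 (Or.inl rfl), h1⟩
        · exact ⟨_, (RU _).2 (Or.inr ⟨i, rfl⟩), hW1.refl _⟩
      · intro z hz
        rcases (RU z).1 hz with rfl | ⟨i, rfl⟩
        · exact ⟨_, (RW _ _).2 (Or.inl rfl), h1⟩
        · exact ⟨_, (RW _ _).2 (Or.inr ⟨i, rfl⟩), hW1.refl _⟩

theorem red_iterate_of_red_jump {F : ℕ → ℕ → Prop} (hF : Equivalence F) (h : Red (jump F) F)
    (k : ℕ) : Red (jump^[k] F) F := by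
  induction k with
  | zero => exact Red.refl F
  | succ k ih =>
    rw [Function.iterate_succ_apply']
    exact (ih.jump (iterate_jump_equivalence hF k) hF).trans h

/-- `F⁺` does not reduce to `F` if `F` can be decided in some finite iterate of its jump. -/
theorem not_red_jump {F : ℕ → ℕ → Prop} (hF : Equivalence F) {j : ℕ} {d : ℕ × ℕ × ℕ}
    (hd : DecW F (jump^[j] F) d) : ¬ Red (jump F) F := by
  intro h
  obtain ⟨d', hd'⟩ := hd.comp (red_iterate_of_red_jump hF h j)
  exact hd'.not_red hF h

theorem decW_eq : ∃ d, DecW Eq Eq d := by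
  obtain ⟨t, ht⟩ := exists_phi
    (f := fun p => Part.some (bif decide ((Nat.unpair p).1 = (Nat.unpair p).2) then 1 else 0)) (by
      refine Computable.cond ?_ (Computable.const 1) (Computable.const 0)
      exact (Primrec.eq.decide.to_comp).comp (Computable.fst.comp Computable.unpair)
        (Computable.snd.comp Computable.unpair))
  refine ⟨(t, 1, 0), by simp, fun x y => bif decide (x = y) then 1 else 0, fun x y => ?_,
    fun x y => ⟨fun h => by simp [h], fun h => by simp [h]⟩⟩
  rw [ht]
  simp

/-- The relations `id^{+ω·n}` for the standard notations of `ω·n`. -/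
theorem iterate_wsum_equivalence (n : ℕ) : Equivalence (wsum^[n] Eq) := by
  induction n with
  | zero => exact eq_equivalence
  | succ n ih =>
    rw [Function.iterate_succ_apply']
    exact wsum_equivalence ih

/-- Strictness of the jump at `id^{+ω·n}`. -/
theorem not_red_jump_iterate_wsum (n : ℕ) : ¬ Red (jump (wsum^[n] Eq)) (wsum^[n] Eq) := by
  have key : ∃ j d, DecW (wsum^[n] Eq) (jump^[j] (wsum^[n] Eq)) d := by
    induction n with
    | zero =>
      obtain ⟨d, hd⟩ := decW_eq
      exact ⟨0, d, hd⟩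
    | succ n ih =>
      obtain ⟨j, d, hd⟩ := ih
      obtain ⟨d', hd'⟩ := decW_wsum (iterate_wsum_equivalence n) hd
      refine ⟨2, d', ?_⟩
      rw [Function.iterate_succ_apply']
      exact hd'
  obtain ⟨j, d, hd⟩ := key
  exact not_red_jump (iterate_wsum_equivalence n) hd

end Pool.Agent.H68.FS
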