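import Pool.Agent.H68.GCSDefs

/-!
# Uniform continuity and boundedness of formulas on bounded sets
-/

namespace Pool.Agent.H68.GCS

universe u v

section

variable {A : Type v} [CStarAlgebra A]

theorem CTerm.bdd_lip {n : ℕ} (t : CTerm n) (R : ℝ) :
    ∃ C : ℝ, ∃ K : ℝ, 0 ≤ C ∧ 0 ≤ K ∧ (∀ v : Fin n → A, ‖v‖ ≤ R → ‖CTerm.eval A v t‖ ≤ C) ∧
      ∀ v w : Fin n → A, ‖v‖ ≤ R → ‖w‖ ≤ R →
        ‖CTerm.eval A v t - CTerm.eval A w t‖ ≤ K * ‖v - w‖ := by
  induction t with
  | var i =>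
    refine ⟨|R|, 1, abs_nonneg _, zero_le_one, fun v hv => ?_, fun v w hv hw => ?_⟩
    · exact (norm_le_pi_norm v i).trans (hv.trans (le_abs_self R))
    · rw [one_mul]
      exact norm_le_pi_norm (v - w) i
  | zero =>
    refine ⟨0, 0, le_rfl, le_rfl, fun v hv => ?_, fun v w hv hw => ?_⟩
    · simp [CTerm.eval]
    · simp [CTerm.eval]
  | one =>
    refine ⟨‖(1 : A)‖, 0, norm_nonneg _, le_rfl, fun v hv => ?_, fun v w hv hw => ?_⟩
    · simp [CTerm.eval]
    · simp [CTerm.eval]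
  | add s t hs ht =>
    obtain ⟨C, K, hC, hK, h1, h2⟩ := hs
    obtain ⟨C', K', hC', hK', h1', h2'⟩ := ht
    refine ⟨C + C', K + K', add_nonneg hC hC', add_nonneg hK hK', fun v hv => ?_,
      fun v w hv hw => ?_⟩
    · exact (norm_add_le _ _).trans (add_le_add (h1 v hv) (h1' v hv))
    · have e : CTerm.eval A v (s.add t) - CTerm.eval A w (s.add t)
          = (CTerm.eval A v s - CTerm.eval A w s) + (CTerm.eval A v t - CTerm.eval A w t) := by
        simp only [CTerm.eval]; abel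
      rw [e, add_mul]
      exact (norm_add_le _ _).trans (add_le_add (h2 v w hv hw) (h2' v w hv hw))
  | neg s hs =>
    obtain ⟨C, K, hC, hK, h1, h2⟩ := hs
    refine ⟨C, K, hC, hK, fun v hv => ?_, fun v w hv hw => ?_⟩
    · simp only [CTerm.eval, norm_neg]; exact h1 v hv
    · have e : CTerm.eval A v s.neg - CTerm.eval A w s.neg
          = -(CTerm.eval A v s - CTerm.eval A w s) := by
        simp only [CTerm.eval]; abel
      rw [e, norm_neg]
      exact h2 v w hv hw
  | mul s t hs ht =>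
    obtain ⟨C, K, hC, hK, h1, h2⟩ := hs
    obtain ⟨C', K', hC', hK', h1', h2'⟩ := ht
    refine ⟨C * C', K * C' + C * K', mul_nonneg hC hC',
      add_nonneg (mul_nonneg hK hC') (mul_nonneg hC hK'), fun v hv => ?_, fun v w hv hw => ?_⟩
    · exact (norm_mul_le _ _).trans (mul_le_mul (h1 v hv) (h1' v hv) (norm_nonneg _) hC)
    · have e : CTerm.eval A v (s.mul t) - CTerm.eval A w (s.mul t)
          = (CTerm.eval A v s - CTerm.eval A w s) * CTerm.eval A v t
            + CTerm.eval A w s * (CTerm.eval A v t - CTerm.eval A w t) := by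
        simp only [CTerm.eval]; noncomm_ring
      rw [e, add_mul]
      refine (norm_add_le _ _).trans (add_le_add ?_ ?_)
      · refine (norm_mul_le _ _).trans ?_
        calc _ ≤ (K * ‖v - w‖) * C' :=
              mul_le_mul (h2 v w hv hw) (h1' v hv) (norm_nonneg _)
                (mul_nonneg hK (norm_nonneg _))
          _ = _ := by ring
      · refine (norm_mul_le _ _).trans ?_
        calc _ ≤ C * (K' * ‖v - w‖) :=
              mul_le_mul (h1 w hw) (h2' v w hv hw) (norm_nonneg _) hC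
          _ = _ := by ring
  | adj s hs =>
    obtain ⟨C, K, hC, hK, h1, h2⟩ := hs
    refine ⟨C, K, hC, hK, fun v hv => ?_, fun v w hv hw => ?_⟩
    · simp only [CTerm.eval, norm_star]; exact h1 v hv
    · have e : CTerm.eval A v s.adj - CTerm.eval A w s.adj
          = star (CTerm.eval A v s - CTerm.eval A w s) := by
        simp only [CTerm.eval, star_sub]
      rw [e, norm_star]
      exact h2 v w hv hw
  | smul c s hs =>
    obtain ⟨C, K, hC, hK, h1, h2⟩ := hs
    refine ⟨‖c‖ * C, ‖c‖ * K, mul_nonneg (norm_nonneg _) hC, mul_nonneg (norm_nonneg _) hK,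
      fun v hv => ?_, fun v w hv hw => ?_⟩
    · simp only [CTerm.eval, norm_smul]
      exact mul_le_mul_of_nonneg_left (h1 v hv) (norm_nonneg _)
    · have e : CTerm.eval A v (s.smul c) - CTerm.eval A w (s.smul c)
          = c • (CTerm.eval A v s - CTerm.eval A w s) := by
        simp only [CTerm.eval, smul_sub]
      rw [e, norm_smul, mul_assoc]
      exact mul_le_mul_of_nonneg_left (h2 v w hv hw) (norm_nonneg _)

/-- boundedness and uniform continuity on bounded sets -/
def Good {n : ℕ} (F : (Fin n → A) → ℝ) : Prop :=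
  ∀ R : ℝ, (∃ C : ℝ, ∀ v, ‖v‖ ≤ R → |F v| ≤ C) ∧
    ∀ ε > 0, ∃ δ > 0, ∀ v w, ‖v‖ ≤ R → ‖w‖ ≤ R → ‖v - w‖ < δ → |F v - F w| < ε

theorem norm_snoc_le {n : ℕ} {v : Fin n → A} {x : A} {R : ℝ} (hR : 0 ≤ R) (hv : ‖v‖ ≤ R)
    (hx : ‖x‖ ≤ R) : ‖(Fin.snoc v x : Fin (n + 1) → A)‖ ≤ R := by
  rw [pi_norm_le_iff_of_nonneg hR]
  intro i
  refine Fin.lastCases ?_ (fun i => ?_) i
  · rw [Fin.snoc_last]; exact hx
  · rw [Fin.snoc_castSucc]; exact (norm_le_pi_norm v i).trans hv

theorem norm_snoc_sub_snoc_le {n : ℕ} (v w : Fin n → A) (x : A) :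
    ‖(Fin.snoc v x : Fin (n + 1) → A) - (Fin.snoc w x : Fin (n + 1) → A)‖ ≤ ‖v - w‖ := by
  rw [pi_norm_le_iff_of_nonneg (norm_nonneg _)]
  intro i
  refine Fin.lastCases ?_ (fun i => ?_) i
  · rw [Pi.sub_apply, Fin.snoc_last, Fin.snoc_last, sub_self, norm_zero]
    exact norm_nonneg _
  · rw [Pi.sub_apply, Fin.snoc_castSucc, Fin.snoc_castSucc]
    exact norm_le_pi_norm (v - w) i

theorem Good.term {n : ℕ} (t : CTerm n) : Good (A := A) fun v => ‖CTerm.eval A v t‖ := by
  intro R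
  obtain ⟨C, K, hC, hK, h1, h2⟩ := t.bdd_lip (A := A) R
  refine ⟨⟨C, fun v hv => ?_⟩, fun ε hε => ⟨ε / (K + 1), by positivity, fun v w hv hw hvw => ?_⟩⟩
  · rw [abs_norm]; exact h1 v hv
  · refine (abs_norm_sub_norm_le _ _).trans_lt ((h2 v w hv hw).trans_lt ?_)
    rw [lt_div_iff₀ (by positivity)] at hvw
    nlinarith [norm_nonneg (v - w)]

theorem Good.conn {n k : ℕ} (f : C(Fin k → ℝ, ℝ)) (F : Fin k → (Fin n → A) → ℝ)
    (hF : ∀ i, Good (F i)) : Good fun v => f fun i => F i v := by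
  intro R
  choose C hC using fun i => (hF i R).1
  set B : ℝ := ∑ i, |C i| with hB
  have hCB : ∀ i, |C i| ≤ B := fun i =>
    Finset.single_le_sum (f := fun i => |C i|) (fun i _ => abs_nonneg _) (Finset.mem_univ i)
  have hB0 : 0 ≤ B := Finset.sum_nonneg fun i _ => abs_nonneg _
  have hmem : ∀ v, ‖v‖ ≤ R → (fun i => F i v) ∈ Metric.closedBall (0 : Fin k → ℝ) B := by
    intro v hv
    rw [mem_closedBall_zero_iff, pi_norm_le_iff_of_nonneg hB0]
    intro i
    exact (hC i v hv).trans ((le_abs_self _).trans (hCB i))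
  have hcpt : IsCompact (Metric.closedBall (0 : Fin k → ℝ) B) := isCompact_closedBall _ _
  constructor
  · obtain ⟨D, hD⟩ := hcpt.exists_bound_of_continuousOn (f := f) f.continuous.continuousOn
    exact ⟨D, fun v hv => hD _ (hmem v hv)⟩
  · intro ε hε
    have huc := hcpt.uniformContinuousOn_of_continuous (f := f) f.continuous.continuousOn
    rw [Metric.uniformContinuousOn_iff] at huc
    obtain ⟨η, hη, h⟩ := huc ε hε
    choose δ hδ hδ' using fun i => (hF i R).2 (η / 2) (by positivity)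
    by_cases hk : Nonempty (Fin k)
    · refine ⟨Finset.univ.inf' Finset.univ_nonempty δ, ?_, fun v w hv hw hvw => ?_⟩
      · rw [gt_iff_lt, Finset.lt_inf'_iff]
        exact fun i _ => hδ i
      · have := h _ (hmem v hv) _ (hmem w hw) ?_
        · rwa [Real.dist_eq] at this
        · refine ((dist_pi_le_iff (by positivity)).2 fun i => ?_).trans_lt (half_lt_self hη)
          rw [Real.dist_eq]
          refine (hδ' i v w hv hw (hvw.trans_le ?_)).le
          exact Finset.inf'_le _ (Finset.mem_univ i)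
    · refine ⟨1, one_pos, fun v w hv hw hvw => ?_⟩
      have : (fun i => F i v) = fun i => F i w := by
        funext i
        exact absurd ⟨i⟩ hk
      change |f (fun i => F i v) - f (fun i => F i w)| < ε
      rw [this, sub_self, abs_zero]
      exact hε

/-- The ball used for the quantifiers. -/
theorem Good.bdd {n : ℕ} {F : (Fin (n + 1) → A) → ℝ} (hF : Good F) (r : ℕ) (v : Fin n → A) :
    ∃ C : ℝ, ∀ x : Metric.closedBall (0 : A) r, |F (Fin.snoc v (x : A))| ≤ C := by
  obtain ⟨C, hC⟩ := (hF (max ‖v‖ r)).1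
  refine ⟨C, fun x => hC _ (norm_snoc_le ?_ (le_max_left _ _) ?_)⟩
  · exact (norm_nonneg v).trans (le_max_left _ _)
  · exact (mem_closedBall_zero_iff.1 x.2).trans (le_max_right _ _)

theorem Good.bddAbove {n : ℕ} {F : (Fin (n + 1) → A) → ℝ} (hF : Good F) (r : ℕ)
    (v : Fin n → A) :
    BddAbove (Set.range fun x : Metric.closedBall (0 : A) r => F (Fin.snoc v (x : A))) := by
  obtain ⟨C, hC⟩ := hF.bdd r v
  refine ⟨C, ?_⟩
  rintro _ ⟨x, rfl⟩
  exact (le_abs_self _).trans (hC x)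

theorem Good.bddBelow {n : ℕ} {F : (Fin (n + 1) → A) → ℝ} (hF : Good F) (r : ℕ)
    (v : Fin n → A) :
    BddBelow (Set.range fun x : Metric.closedBall (0 : A) r => F (Fin.snoc v (x : A))) := by
  obtain ⟨C, hC⟩ := hF.bdd r v
  refine ⟨-C, ?_⟩
  rintro _ ⟨x, rfl⟩
  exact (abs_le.1 (hC x)).1

instance (r : ℕ) : Nonempty (Metric.closedBall (0 : A) r) :=
  ⟨⟨0, by simp⟩⟩

theorem Good.neg {n : ℕ} {F : (Fin n → A) → ℝ} (hF : Good F) : Good fun v => -F v := by
  intro R
  refine ⟨?_, fun ε hε => ?_⟩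
  · obtain ⟨C, hC⟩ := (hF R).1
    exact ⟨C, fun v hv => by rw [abs_neg]; exact hC v hv⟩
  · obtain ⟨δ, hδ, h⟩ := (hF R).2 ε hε
    refine ⟨δ, hδ, fun v w hv hw hvw => ?_⟩
    have := h v w hv hw hvw
    rwa [neg_sub_neg, abs_sub_comm]

theorem Good.sup {n : ℕ} {F : (Fin (n + 1) → A) → ℝ} (hF : Good F) (r : ℕ) :
    Good fun v => ⨆ x : Metric.closedBall (0 : A) r, F (Fin.snoc v (x : A)) := by
  intro R
  have hR : ∀ {v : Fin n → A} (x : Metric.closedBall (0 : A) r), ‖v‖ ≤ R →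
      ‖(Fin.snoc v (x : A) : Fin (n + 1) → A)‖ ≤ max R r := by
    intro v x hv
    refine norm_snoc_le ?_ (hv.trans (le_max_left _ _)) ?_
    · exact ((norm_nonneg v).trans hv).trans (le_max_left _ _)
    · exact (mem_closedBall_zero_iff.1 x.2).trans (le_max_right _ _)
  constructor
  · obtain ⟨C, hC⟩ := (hF (max R r)).1
    refine ⟨C, fun v hv => abs_le.2 ⟨?_, ?_⟩⟩
    · obtain ⟨x⟩ := (inferInstance : Nonempty (Metric.closedBall (0 : A) r))
      exact (abs_le.1 (hC _ (hR x hv))).1.trans (le_ciSup (hF.bddAbove r v) x)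
    · exact ciSup_le fun x => (abs_le.1 (hC _ (hR x hv))).2
  · intro ε hε
    obtain ⟨δ, hδ, h⟩ := (hF (max R r)).2 (ε / 2) (by positivity)
    refine ⟨δ, hδ, fun v w hv hw hvw => ?_⟩
    have key : ∀ {v w : Fin n → A}, ‖v‖ ≤ R → ‖w‖ ≤ R → ‖v - w‖ < δ →
        (⨆ x : Metric.closedBall (0 : A) r, F (Fin.snoc v (x : A)))
          ≤ (⨆ x : Metric.closedBall (0 : A) r, F (Fin.snoc w (x : A))) + ε / 2 := by
      intro v w hv hw hvw
      refine ciSup_le fun x => ?_
      have h1 := h _ _ (hR x hv) (hR x hw) ((norm_snoc_sub_snoc_le v w x).trans_lt hvw)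
      have h2 := le_ciSup (hF.bddAbove r w) x
      have h3 := (abs_lt.1 h1).2
      linarith
    have k1 := key hv hw hvw
    have k2 := key hw hv (by rwa [norm_sub_rev])
    rw [abs_lt]
    constructor <;> linarith

theorem Good.inf {n : ℕ} {F : (Fin (n + 1) → A) → ℝ} (hF : Good F) (r : ℕ) :
    Good fun v => ⨅ x : Metric.closedBall (0 : A) r, F (Fin.snoc v (x : A)) := by
  have h := (hF.neg.sup r).neg
  have e : (fun v : Fin n → A => ⨅ x : Metric.closedBall (0 : A) r, F (Fin.snoc v (x : A)))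
      = fun v => -⨆ x : Metric.closedBall (0 : A) r, -F (Fin.snoc v (x : A)) := by
    funext v
    rw [iInf, Real.sInf_def, iSup]
    congr 2
    ext y
    simp only [Set.mem_neg, Set.mem_range]
    constructor
    · rintro ⟨x, hx⟩
      exact ⟨x, by rw [hx, neg_neg]⟩
    · rintro ⟨x, hx⟩
      exact ⟨x, by rw [← hx, neg_neg]⟩
  rw [e]
  exact h

theorem CFormula.good {n : ℕ} (φ : CFormula n) : Good (A := A) (φ.val A) := by
  induction φ with
  | norm t => exact Good.term t
  | conn f φ ih => exact Good.conn f _ ih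
  | sup r φ ih => exact ih.sup r
  | inf r φ ih => exact ih.inf r

theorem Good.continuous {n : ℕ} {F : (Fin n → A) → ℝ} (hF : Good F) : Continuous F := by
  rw [Metric.continuous_iff]
  intro v ε hε
  obtain ⟨δ, hδ, h⟩ := (hF (‖v‖ + 1)).2 ε hε
  refine ⟨min δ 1, lt_min hδ one_pos, fun w hw => ?_⟩
  rw [Real.dist_eq]
  rw [dist_eq_norm] at hw
  refine h w v ?_ (by linarith) (hw.trans_le (min_le_left _ _))
  have : ‖w‖ ≤ ‖v‖ + ‖w - v‖ := by
    have := norm_add_le v (w - v)
    simpa using this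
  linarith [min_le_right δ 1]

end

end Pool.Agent.H68.GCS
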