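import Mathlib

/-!
# Universal group C*-algebras, continuous logic, and the tuple back-and-forth game

Definitions for problem MP_a32272_lc.
-/

namespace Pool.Agent.H68.GCS

universe u v w

/-! ## The universal norm and the universal group C*-algebra -/

section UnivNorm

variable {G : Type u} [Group G]

/-- The linear extension `ℂ[G] → A` of a homomorphism `π` from the group `G` to the unitary group
of the C*-algebra `A`, i.e. the map sending `∑ c_g g` to `∑ c_g π(g)`. For `A = B(V)`, `V` a
Hilbert space, `π` is a unitary representation of `G` on `V`. -/
noncomputable def linExt {A : Type v} [CStarAlgebra A] (π : G →* unitary A) :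
    MonoidAlgebra ℂ G →ₐ[ℂ] A :=
  MonoidAlgebra.lift ℂ A G ((unitary A).subtype.comp π)

/-- The type of unitary representations `ρ : G → U(V)` of the group `G` on the complex Hilbert
space `V`. -/
def UnitaryRep (G : Type u) [Group G] (V : Type v) [NormedAddCommGroup V] [InnerProductSpace ℂ V]
    [CompleteSpace V] : Type (max u v) :=
  G →* unitary (V →L[ℂ] V)

/-- The operator norm `‖ρ(x)‖`, for a unitary representation `ρ` of `G` and `x` in `ℂ[G]`. -/
noncomputable def UnitaryRep.opNorm {V : Type v} [NormedAddCommGroup V] [InnerProductSpace ℂ V]
    [CompleteSpace V] (ρ : UnitaryRep G V) (x : MonoidAlgebra ℂ G) : ℝ :=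
  ‖linExt (A := V →L[ℂ] V) ρ x‖

/-- The universal norm of an element `x` of `ℂ[G]`: the supremum of `‖ρ(x)‖` over all unitary
representations `ρ : G → U(V)` of `G` on complex Hilbert spaces `V`. -/
noncomputable def univNorm (x : MonoidAlgebra ℂ G) : ℝ :=
  sSup {r : ℝ | ∃ (V : Type u) (_ : NormedAddCommGroup V) (_ : InnerProductSpace ℂ V)
    (_ : CompleteSpace V) (ρ : UnitaryRep G V), ρ.opNorm x = r}

/-- `IsUnivGroupCStar π`: the C*-algebra `A`, with the homomorphism `π` from `G` to the unitary
group of `A`, is (a model of) the universal group C*-algebra `C*(G)`, that is, of the completion of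
the group algebra `ℂ[G]` in the universal norm: the linear extension `ℂ[G] → A` of `π` (which is a
unital *-homomorphism) has dense range and carries the universal norm of `ℂ[G]` to the norm
of `A`. -/
def IsUnivGroupCStar {A : Type v} [CStarAlgebra A] (π : G →* unitary A) : Prop :=
  DenseRange (linExt π) ∧ ∀ x : MonoidAlgebra ℂ G, ‖linExt π x‖ = univNorm x

end UnivNorm

/-! ## Continuous first-order logic in the language of C*-algebras -/

/-- Terms of the language of unital C*-algebras in the variables `x_0, ..., x_{n-1}`:
the (noncommutative) *-polynomials with complex coefficients. -/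
inductive CTerm (n : ℕ) : Type
  /-- the variable `x_i` -/
  | var (i : Fin n) : CTerm n
  /-- the constant `0` -/
  | zero : CTerm n
  /-- the constant `1` -/
  | one : CTerm n
  /-- the sum of two terms -/
  | add (s t : CTerm n) : CTerm n
  /-- the negative of a term -/
  | neg (s : CTerm n) : CTerm n
  /-- the product of two terms -/
  | mul (s t : CTerm n) : CTerm n
  /-- the adjoint of a term -/
  | adj (s : CTerm n) : CTerm n
  /-- a complex multiple of a term -/
  | smul (c : ℂ) (s : CTerm n) : CTerm n

/-- Formulas of continuous first-order logic in the language of (unital) C*-algebras, with free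
variables among `x_0, ..., x_{n-1}`. Atomic formulas are `‖t‖` for a term `t`, the connectives are
all continuous functions `ℝ^k → ℝ`, and the quantifiers are `sup` and `inf` over the closed ball
of radius `r`, for `r` a natural number. The bound variable is the last one. -/
inductive CFormula : ℕ → Type
  /-- the atomic formula `‖t‖` -/
  | norm {n : ℕ} (t : CTerm n) : CFormula n
  /-- the formula `f(φ_1, ..., φ_k)` for a continuous `f : ℝ^k → ℝ` -/
  | conn {n k : ℕ} (f : C(Fin k → ℝ, ℝ)) (φ : Fin k → CFormula n) : CFormula n
  /-- the formula `sup_{‖x_n‖ ≤ r} φ` -/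
  | sup {n : ℕ} (r : ℕ) (φ : CFormula (n + 1)) : CFormula n
  /-- the formula `inf_{‖x_n‖ ≤ r} φ` -/
  | inf {n : ℕ} (r : ℕ) (φ : CFormula (n + 1)) : CFormula n

section Semantics

variable (A : Type v) [CStarAlgebra A]

/-- The value of a term in the C*-algebra `A` at a tuple of elements. -/
def CTerm.eval {n : ℕ} (v : Fin n → A) : CTerm n → A
  | .var i => v i
  | .zero => 0
  | .one => 1
  | .add s t => CTerm.eval v s + CTerm.eval v t
  | .neg s => -CTerm.eval v s
  | .mul s t => CTerm.eval v s * CTerm.eval v t
  | .adj s => star (CTerm.eval v s)
  | .smul c s => c • CTerm.eval v s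

/-- The value of a formula in the C*-algebra `A` at a tuple of elements. (The suprema and infima
are over bounded nonempty sets of reals.) -/
noncomputable def CFormula.val : {n : ℕ} → CFormula n → (Fin n → A) → ℝ
  | _, .norm t, v => ‖CTerm.eval A v t‖
  | _, .conn f φ, v => f fun i => (φ i).val v
  | _, .sup r φ, v => ⨆ x : Metric.closedBall (0 : A) r, φ.val (Fin.snoc v (x : A))
  | _, .inf r φ, v => ⨅ x : Metric.closedBall (0 : A) r, φ.val (Fin.snoc v (x : A))

end Semantics

/-- Elementary equivalence of C*-algebras as metric structures: every sentence of continuous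
logic takes the same value in `A` and in `B`. -/
def ElementarilyEquivalent (A : Type u) (B : Type v) [CStarAlgebra A] [CStarAlgebra B] : Prop :=
  ∀ φ : CFormula 0, φ.val A Fin.elim0 = φ.val B Fin.elim0

/-! ## The back-and-forth game with tuples -/

section Game

variable {G : Type u} {H : Type v} [Group G] [Group H]

/-- `DuplicatorWins n a b`: Duplicator has a winning strategy in the `n` remaining rounds of the
back-and-forth game with tuples, when the concatenations of the moves made so far are the tuple
`a` of `G` and the tuple `b` of `H`. In each round Spoiler picks one of the groups and plays a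
finite tuple of any length, and Duplicator answers with a tuple of the same length of the other
group. At the end Duplicator wins if the two tuples satisfy the same equations `w = 1`, `w` a
group word. -/
def DuplicatorWins : (n : ℕ) → {k : ℕ} → (Fin k → G) → (Fin k → H) → Prop
  | 0, k, a, b => ∀ w : FreeGroup (Fin k), FreeGroup.lift a w = 1 ↔ FreeGroup.lift b w = 1
  | n + 1, _, a, b =>
    (∀ (m : ℕ) (c : Fin m → G), ∃ d : Fin m → H,
      DuplicatorWins n (Fin.append a c) (Fin.append b d)) ∧
    (∀ (m : ℕ) (d : Fin m → H), ∃ c : Fin m → G,
      DuplicatorWins n (Fin.append a c) (Fin.append b d))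

end Game

/-- `G ≡ᵇᶠ_ω H`: for every `n`, Duplicator has a winning strategy in the `n`-round
back-and-forth game with tuples between the groups `G` and `H`. -/
def BackAndForthEquiv (G : Type u) (H : Type v) [Group G] [Group H] : Prop :=
  ∀ n : ℕ, DuplicatorWins n (Fin.elim0 : Fin 0 → G) (Fin.elim0 : Fin 0 → H)

end Pool.Agent.H68.GCS
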