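import Pool.Agent.H68.GCSNorm

/-!
# Existence of the universal group C*-algebra

The completion of `ℂ[G]` in the universal norm is a model of `C*(G)`.
-/

namespace Pool.Agent.H68.GCS

universe u v w

/-! ## The universal group C*-algebra -/

/-- The complex group algebra `ℂ[G]`, to be equipped with the universal norm. -/
def GroupAlg (G : Type u) [Group G] : Type u := MonoidAlgebra ℂ G

namespace GroupAlg

variable {G : Type u} [Group G]

noncomputable instance : Ring (GroupAlg G) := inferInstanceAs (Ring (MonoidAlgebra ℂ G))

noncomputable instance : Algebra ℂ (GroupAlg G) := inferInstanceAs (Algebra ℂ (MonoidAlgebra ℂ G))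

/-- The seminormed ring structure on `ℂ[G]` given by the universal norm. -/
noncomputable instance : SeminormedRing (GroupAlg G) where
  norm x := univNorm (G := G) x
  dist x y := univNorm (G := G) (-x + y)
  dist_self x := by
    have : (-x + x : GroupAlg G) = 0 := neg_add_cancel x
    exact (congrArg (univNorm (G := G)) this).trans univNorm_zero
  dist_comm x y := by
    have : (-y + x : GroupAlg G) = -(-x + y) := by abel
    exact (univNorm_neg (G := G) (-x + y)).symm.trans (congrArg (univNorm (G := G)) this.symm)
  dist_triangle x y z := by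
    have : (-x + z : GroupAlg G) = (-x + y) + (-y + z) := by abel
    exact (congrArg (univNorm (G := G)) this).le.trans (univNorm_add_le (G := G) _ _)
  dist_eq x y := rfl
  norm_mul_le x y := univNorm_mul_le (G := G) x y

theorem norm_def (x : GroupAlg G) : ‖x‖ = univNorm (G := G) x := rfl

noncomputable instance : NormedSpace ℂ (GroupAlg G) where
  norm_smul_le c x := univNorm_smul_le (G := G) c x

noncomputable instance : StarRing (GroupAlg G) where
  star x := algStar (G := G) x
  star_involutive x := algStar_algStar (G := G) x
  star_mul x y := algStar_mul (G := G) x y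
  star_add x y := algStar_add (G := G) x y

theorem star_def (x : GroupAlg G) : star x = algStar (G := G) x := rfl

instance : StarModule ℂ (GroupAlg G) where
  star_smul c x := algStar_smul (G := G) c x

instance : NormedStarGroup (GroupAlg G) where
  norm_star_le x := (univNorm_algStar (G := G) x).le

theorem norm_mul_self_le (x : GroupAlg G) : ‖x‖ * ‖x‖ ≤ ‖star x * x‖ :=
  univNorm_mul_self_le (G := G) x

theorem uniformContinuous_star : UniformContinuous (star : GroupAlg G → GroupAlg G) := by
  refine (LipschitzWith.of_dist_le_mul (K := 1) fun x y => ?_).uniformContinuous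
  rw [NNReal.coe_one, one_mul, dist_eq_norm, dist_eq_norm, ← star_sub, norm_star]

end GroupAlg

/-- The universal group C*-algebra `C*(G)`: the completion of `ℂ[G]` in the universal norm. -/
def GroupCStar (G : Type u) [Group G] : Type u := UniformSpace.Completion (GroupAlg G)

namespace GroupCStar

open UniformSpace

variable {G : Type u} [Group G]

noncomputable instance : NormedRing (GroupCStar G) :=
  inferInstanceAs (NormedRing (Completion (GroupAlg G)))

instance : CompleteSpace (GroupCStar G) :=
  inferInstanceAs (CompleteSpace (Completion (GroupAlg G)))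

noncomputable instance : Algebra ℂ (GroupCStar G) :=
  inferInstanceAs (Algebra ℂ (Completion (GroupAlg G)))

noncomputable instance : NormedAlgebra ℂ (GroupCStar G) where
  norm_smul_le c x := norm_smul_le (β := Completion (GroupAlg G)) c x

/-- The canonical map `ℂ[G] → C*(G)`. -/
noncomputable def ofAlg (x : MonoidAlgebra ℂ G) : GroupCStar G :=
  ((show GroupAlg G from x : GroupAlg G) : Completion (GroupAlg G))

/-- The involution of `C*(G)`: the continuous extension of the involution of `ℂ[G]`. -/
noncomputable def starMap : GroupCStar G → GroupCStar G :=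
  Completion.map (star : GroupAlg G → GroupAlg G)

theorem starMap_ofAlg (x : MonoidAlgebra ℂ G) : starMap (ofAlg x) = ofAlg (algStar x) :=
  Completion.map_coe GroupAlg.uniformContinuous_star _

theorem denseRange_ofAlg : DenseRange (ofAlg : MonoidAlgebra ℂ G → GroupCStar G) :=
  Completion.denseRange_coe (α := GroupAlg G)

theorem norm_ofAlg (x : MonoidAlgebra ℂ G) : ‖ofAlg x‖ = univNorm x :=
  Completion.norm_coe (E := GroupAlg G) x

theorem ofAlg_add (x y : MonoidAlgebra ℂ G) : ofAlg (x + y) = ofAlg x + ofAlg y :=
  Completion.coe_add (α := GroupAlg G) x y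

theorem ofAlg_neg (x : MonoidAlgebra ℂ G) : ofAlg (-x) = -ofAlg x :=
  Completion.coe_neg (α := GroupAlg G) x

theorem ofAlg_zero : ofAlg (0 : MonoidAlgebra ℂ G) = 0 :=
  Completion.coe_zero (α := GroupAlg G)

theorem ofAlg_one : ofAlg (1 : MonoidAlgebra ℂ G) = 1 :=
  Completion.coe_one (α := GroupAlg G)

theorem ofAlg_mul (x y : MonoidAlgebra ℂ G) : ofAlg (x * y) = ofAlg x * ofAlg y :=
  Completion.coe_mul (α := GroupAlg G) x y

theorem ofAlg_smul (c : ℂ) (x : MonoidAlgebra ℂ G) : ofAlg (c • x) = c • ofAlg x :=
  Completion.coe_smul (X := GroupAlg G) c x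

theorem continuous_starMap : Continuous (starMap : GroupCStar G → GroupCStar G) :=
  Completion.continuous_map (α := GroupAlg G)

theorem eq_of_dense {f g : GroupCStar G → GroupCStar G} (hf : Continuous f) (hg : Continuous g)
    (h : ∀ a : MonoidAlgebra ℂ G, f (ofAlg a) = g (ofAlg a)) (a : GroupCStar G) : f a = g a :=
  congrFun (denseRange_ofAlg.equalizer hf hg (funext h)) a

theorem eq_of_dense₂ {f g : GroupCStar G → GroupCStar G → GroupCStar G}
    (hf : Continuous fun p : GroupCStar G × GroupCStar G => f p.1 p.2)
    (hg : Continuous fun p : GroupCStar G × GroupCStar G => g p.1 p.2)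
    (h : ∀ a b : MonoidAlgebra ℂ G, f (ofAlg a) (ofAlg b) = g (ofAlg a) (ofAlg b))
    (a b : GroupCStar G) : f a b = g a b :=
  eq_of_dense (f := fun a => f a b) (g := fun a => g a b)
    (hf.comp (continuous_id.prodMk continuous_const))
    (hg.comp (continuous_id.prodMk continuous_const))
    (fun a => eq_of_dense (f := fun b => f (ofAlg a) b) (g := fun b => g (ofAlg a) b)
      (hf.comp (continuous_const.prodMk continuous_id))
      (hg.comp (continuous_const.prodMk continuous_id)) (h a) b) a

theorem starMap_starMap (a : GroupCStar G) : starMap (starMap a) = a :=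
  eq_of_dense (f := fun a => starMap (starMap a)) (g := id)
    (continuous_starMap.comp continuous_starMap) continuous_id
    (fun a => by rw [starMap_ofAlg, starMap_ofAlg, algStar_algStar]; rfl) a

theorem starMap_mul (a b : GroupCStar G) : starMap (a * b) = starMap b * starMap a :=
  eq_of_dense₂ (f := fun a b => starMap (a * b)) (g := fun a b => starMap b * starMap a)
    (continuous_starMap.comp (continuous_fst.mul continuous_snd))
    ((continuous_starMap.comp continuous_snd).mul (continuous_starMap.comp continuous_fst))
    (fun a b => by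
      rw [← ofAlg_mul, starMap_ofAlg, starMap_ofAlg, starMap_ofAlg, algStar_mul, ofAlg_mul]) a b

theorem starMap_add (a b : GroupCStar G) : starMap (a + b) = starMap a + starMap b :=
  eq_of_dense₂ (f := fun a b => starMap (a + b)) (g := fun a b => starMap a + starMap b)
    (continuous_starMap.comp (continuous_fst.add continuous_snd))
    ((continuous_starMap.comp continuous_fst).add (continuous_starMap.comp continuous_snd))
    (fun a b => by
      rw [← ofAlg_add, starMap_ofAlg, starMap_ofAlg, starMap_ofAlg, algStar_add, ofAlg_add]) a b

theorem starMap_smul (c : ℂ) (a : GroupCStar G) :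
    starMap (c • a) = starRingEnd ℂ c • starMap a :=
  eq_of_dense (f := fun a => starMap (c • a)) (g := fun a => starRingEnd ℂ c • starMap a)
    (continuous_starMap.comp (continuous_const_smul c))
    ((continuous_const_smul (starRingEnd ℂ c)).comp continuous_starMap)
    (fun a => by rw [← ofAlg_smul, starMap_ofAlg, starMap_ofAlg, algStar_smul, ofAlg_smul]) a

noncomputable instance : StarRing (GroupCStar G) where
  star := starMap
  star_involutive := starMap_starMap
  star_mul := starMap_mul
  star_add := starMap_add

theorem star_def (a : GroupCStar G) : star a = starMap a := rfl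

theorem star_ofAlg (x : MonoidAlgebra ℂ G) : star (ofAlg x) = ofAlg (algStar x) :=
  starMap_ofAlg x

instance : StarModule ℂ (GroupCStar G) where
  star_smul := starMap_smul

instance : CStarRing (GroupCStar G) where
  norm_mul_self_le a := by
    have hcl : IsClosed {a : GroupCStar G | ‖a‖ * ‖a‖ ≤ ‖starMap a * a‖} :=
      isClosed_le (continuous_norm.mul continuous_norm)
        (continuous_norm.comp (continuous_starMap.mul continuous_id))
    have := denseRange_ofAlg.induction_on (p := fun a : GroupCStar G =>
      ‖a‖ * ‖a‖ ≤ ‖starMap a * a‖) a hcl (fun a => by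
        rw [starMap_ofAlg, ← ofAlg_mul, norm_ofAlg, norm_ofAlg]
        exact univNorm_mul_self_le a)
    exact this

noncomputable instance : CStarAlgebra (GroupCStar G) where

end GroupCStar


/-- the canonical unitaries of `C*(G)` -/
noncomputable def GroupCStar.unitaryMap (G : Type u) [Group G] : G →* unitary (GroupCStar G) where
  toFun g := ⟨GroupCStar.ofAlg (MonoidAlgebra.single g 1), by
    have h1 : (MonoidAlgebra.single g⁻¹ 1 * MonoidAlgebra.single g 1 : MonoidAlgebra ℂ G) = 1 := by
      rw [MonoidAlgebra.single_mul_single, inv_mul_cancel, one_mul, MonoidAlgebra.one_def]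
    have h2 : (MonoidAlgebra.single g 1 * MonoidAlgebra.single g⁻¹ 1 : MonoidAlgebra ℂ G) = 1 := by
      rw [MonoidAlgebra.single_mul_single, mul_inv_cancel, one_mul, MonoidAlgebra.one_def]
    rw [Unitary.mem_iff, GroupCStar.star_ofAlg, algStar_single, map_one,
      ← GroupCStar.ofAlg_mul, ← GroupCStar.ofAlg_mul, h1, h2, GroupCStar.ofAlg_one]
    exact ⟨rfl, rfl⟩⟩
  map_one' := Subtype.ext GroupCStar.ofAlg_one
  map_mul' g h := Subtype.ext (by
    have h1 : (MonoidAlgebra.single (g * h) 1 : MonoidAlgebra ℂ G)
        = MonoidAlgebra.single g 1 * MonoidAlgebra.single h 1 := by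
      rw [MonoidAlgebra.single_mul_single, one_mul]
    change GroupCStar.ofAlg (MonoidAlgebra.single (g * h) 1) = _
    rw [h1, GroupCStar.ofAlg_mul]
    rfl)

theorem GroupCStar.linExt_unitaryMap (G : Type u) [Group G] (x : MonoidAlgebra ℂ G) :
    linExt (GroupCStar.unitaryMap G) x = GroupCStar.ofAlg x := by
  induction x using MonoidAlgebra.induction_linear with
  | zero => rw [map_zero, GroupCStar.ofAlg_zero]
  | add x y hx hy => rw [map_add, hx, hy, GroupCStar.ofAlg_add]
  | single g c =>
    rw [linExt_single]
    have h3 : (MonoidAlgebra.single g c : MonoidAlgebra ℂ G) = c • MonoidAlgebra.single g 1 := by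
      rw [MonoidAlgebra.smul_single, smul_eq_mul, mul_one]
    rw [h3, GroupCStar.ofAlg_smul]
    rfl

/-- The completion of `ℂ[G]` in the universal norm is a model of the universal group
C*-algebra. -/
noncomputable def GroupCStar.model (G : Type u) [Group G] : UnivGroupCStar.{u, u} G where
  A := GroupCStar G
  π := GroupCStar.unitaryMap G
  dense := by
    have h : (linExt (GroupCStar.unitaryMap G) : MonoidAlgebra ℂ G → GroupCStar G)
        = GroupCStar.ofAlg := funext (GroupCStar.linExt_unitaryMap G)
    rw [h]
    exact GroupCStar.denseRange_ofAlg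
  norm_eq x := by
    rw [GroupCStar.linExt_unitaryMap, GroupCStar.norm_ofAlg]

end Pool.Agent.H68.GCS
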