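import Pool.Agent.H68.GCSInd

/-!
# Atomic positions of the game and universal norms
-/

namespace Pool.Agent.H68.GCS

universe u v w

theorem mapDomain_comp' {A B C : Type*} [Group A] [Group B] [Group C] (f : A →* B) (g : B →* C)
    (x : MonoidAlgebra ℂ A) :
    MonoidAlgebra.mapDomain g (MonoidAlgebra.mapDomain f x)
      = MonoidAlgebra.mapDomain (g.comp f) x := by
  induction x using MonoidAlgebra.induction_linear with
  | zero => simp
  | add x y hx hy => rw [MonoidAlgebra.mapDomain_add, MonoidAlgebra.mapDomain_add, hx, hy,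
      MonoidAlgebra.mapDomain_add]
  | single k c => simp

theorem univNorm_eq_of_ker {F : Type w} [Group F] {G : Type u} {H : Type v} [Group G] [Group H]
    (α : F →* G) (β : F →* H) (h : ∀ w, α w = 1 ↔ β w = 1) (x : MonoidAlgebra ℂ F) :
    univNorm (MonoidAlgebra.mapDomain α x) = univNorm (MonoidAlgebra.mapDomain β x) := by
  have hker : α.ker = β.ker := by
    ext w
    rw [MonoidHom.mem_ker, MonoidHom.mem_ker, h]
  let e := QuotientGroup.quotientKerEquivRange α
  let φ : α.range →* H :=
    (QuotientGroup.lift α.ker β (hker ▸ le_rfl)).comp e.symm.toMonoidHom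
  have hφ : ∀ w, φ (α.rangeRestrict w) = β w := by
    intro w
    have h1 : e (QuotientGroup.mk w) = α.rangeRestrict w := rfl
    have h2 : e.symm (α.rangeRestrict w) = QuotientGroup.mk w := by
      rw [← h1, MulEquiv.symm_apply_apply]
    change QuotientGroup.lift α.ker β (hker ▸ le_rfl) (e.symm (α.rangeRestrict w)) = β w
    rw [h2]
    rfl
  have hinj : Function.Injective φ := by
    rw [injective_iff_map_eq_one]
    rintro ⟨_, w, rfl⟩ hw
    have : (⟨α w, ⟨w, rfl⟩⟩ : α.range) = α.rangeRestrict w := rfl
    rw [this, hφ, ← h] at hw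
    exact Subtype.ext hw
  have e1 : MonoidAlgebra.mapDomain α x = MonoidAlgebra.mapDomain (α.range.subtype)
      (MonoidAlgebra.mapDomain α.rangeRestrict x) := by
    rw [mapDomain_comp']; rfl
  have e2 : MonoidAlgebra.mapDomain β x = MonoidAlgebra.mapDomain φ
      (MonoidAlgebra.mapDomain α.rangeRestrict x) := by
    rw [mapDomain_comp']
    congr 1
    ext w
    exact (hφ w).symm
  rw [e1, e2, univNorm_mapDomain _ α.range.subtype_injective, univNorm_mapDomain _ hinj]

section Game

variable {G : Type u} {H : Type v} [Group G] [Group H]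

theorem DuplicatorWins.zero_of_append {k m : ℕ} {a : Fin k → G} {b : Fin k → H}
    {c : Fin m → G} {d : Fin m → H}
    (h : DuplicatorWins 0 (Fin.append a c) (Fin.append b d)) : DuplicatorWins 0 a b := by
  intro w
  have key := h (FreeGroup.map (Fin.castAdd m) w)
  have e1 : ∀ {G : Type _} [Group G] (a : Fin k → G) (c : Fin m → G),
      FreeGroup.lift (Fin.append a c) (FreeGroup.map (Fin.castAdd m) w) = FreeGroup.lift a w := by
    intro G _ a c
    have : (FreeGroup.lift (Fin.append a c)).comp (FreeGroup.map (Fin.castAdd m))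
        = FreeGroup.lift a := by
      ext i
      simp
    exact DFunLike.congr_fun this w
  have e2 : ∀ {G : Type _} [Group G] (a : Fin k → G) (c : Fin m → G),
      FreeGroup.lift (Fin.append a c) (FreeGroup.map (Fin.castAdd m) w) = FreeGroup.lift a w := by
    intro G _ a c
    have : (FreeGroup.lift (Fin.append a c)).comp (FreeGroup.map (Fin.castAdd m))
        = FreeGroup.lift a := by
      ext i
      simp
    exact DFunLike.congr_fun this w
  rw [e1, e2] at key
  exact key

theorem DuplicatorWins.zero {n k : ℕ} {a : Fin k → G} {b : Fin k → H}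
    (h : DuplicatorWins n a b) : DuplicatorWins 0 a b := by
  induction n generalizing k with
  | zero => exact h
  | succ n ih =>
    obtain ⟨d, hd⟩ := h.1 0 Fin.elim0
    exact (ih hd).zero_of_append

theorem DuplicatorWins.pred {n k : ℕ} {a : Fin k → G} {b : Fin k → H}
    (h : DuplicatorWins (n + 1) a b) : DuplicatorWins n a b := by
  induction n generalizing k with
  | zero => exact h.zero
  | succ n ih =>
    refine ⟨fun m c => ?_, fun m d => ?_⟩
    · obtain ⟨d, hd⟩ := h.1 m c
      exact ⟨d, ih hd⟩
    · obtain ⟨c, hc⟩ := h.2 m d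
      exact ⟨c, ih hc⟩

theorem DuplicatorWins.mono {n n' k : ℕ} {a : Fin k → G} {b : Fin k → H}
    (hn : n ≤ n') (h : DuplicatorWins n' a b) : DuplicatorWins n a b := by
  induction hn with
  | refl => exact h
  | step _ ih => exact ih h.pred

end Game

end Pool.Agent.H68.GCS
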