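import Pool.Agent.H68.GCSNorm

/-!
# Induced unitary representations and `C*(K) ⊆ C*(G)`
-/

namespace Pool.Agent.H68.GCS

universe u v w

open scoped ENNReal

section Perm

variable {Q : Type u} {V : Type v} [NormedAddCommGroup V] [InnerProductSpace ℂ V]

omit [InnerProductSpace ℂ V] in
theorem summable_norm_sq (ξ : lp (fun _ : Q => V) 2) : Summable fun q => ‖ξ q‖ ^ 2 := by
  have := (lp.memℓp ξ).summable (by norm_num)
  simpa using this

/-- permute the coordinates and apply a family of isometries -/
noncomputable def twist (e : Q ≃ Q) (s : Q → (V →ₗᵢ[ℂ] V)) :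
    lp (fun _ : Q => V) 2 →ₗᵢ[ℂ] lp (fun _ : Q => V) 2 where
  toFun ξ := ⟨fun q => s q (ξ (e q)), by
    refine memℓp_gen ?_
    have h := (summable_norm_sq ξ)
    have h2 := (e.summable_iff (f := fun q => ‖ξ q‖ ^ 2)).2 h
    simpa [Function.comp_def] using h2⟩
  map_add' ξ η := by
    ext q
    exact map_add (s q) _ _
  map_smul' c ξ := by
    ext q
    exact map_smul (s q) _ _
  norm_map' ξ := by
    have h2 : (0 : ℝ) < (2 : ℝ≥0∞).toReal := by norm_num
    refine (Real.rpow_left_inj (norm_nonneg _) (norm_nonneg _) h2.ne').1 ?_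
    rw [lp.norm_rpow_eq_tsum h2, lp.norm_rpow_eq_tsum h2]
    have := e.tsum_eq (fun q => ‖ξ q‖ ^ (2 : ℝ≥0∞).toReal)
    rw [← this]
    refine tsum_congr fun q => ?_
    exact congrArg (· ^ (2 : ℝ≥0∞).toReal) ((s q).norm_map _)

theorem twist_apply (e : Q ≃ Q) (s : Q → (V →ₗᵢ[ℂ] V)) (ξ : lp (fun _ : Q => V) 2) (q : Q) :
    twist e s ξ q = s q (ξ (e q)) := rfl

end Perm

section Induced

variable {K : Type u} {G : Type v} [Group K] [Group G] (j : K →* G) (hj : Function.Injective j)
  {V : Type w} [NormedAddCommGroup V] [InnerProductSpace ℂ V] [CompleteSpace V]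
  (σ : K →* unitary (V →L[ℂ] V))

/-- a section of the quotient map -/
noncomputable def sec (q : G ⧸ j.range) : G := Quotient.out q

theorem mk_sec (q : G ⧸ j.range) : (QuotientGroup.mk (sec j q) : G ⧸ j.range) = q :=
  QuotientGroup.out_eq' q

theorem cocycle_mem (g : G) (q : G ⧸ j.range) :
    (sec j q)⁻¹ * g * sec j (g⁻¹ • q) ∈ j.range := by
  rw [mul_assoc, ← QuotientGroup.eq]
  have h : (QuotientGroup.mk (g * sec j (g⁻¹ • q)) : G ⧸ j.range)
      = g • (QuotientGroup.mk (sec j (g⁻¹ • q)) : G ⧸ j.range) := rfl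
  rw [h, mk_sec, mk_sec, smul_inv_smul]

/-- the cocycle of the induced representation -/
noncomputable def cocycle (g : G) (q : G ⧸ j.range) : K := (cocycle_mem j g q).choose

theorem cocycle_spec (g : G) (q : G ⧸ j.range) :
    j (cocycle j g q) = (sec j q)⁻¹ * g * sec j (g⁻¹ • q) := (cocycle_mem j g q).choose_spec

include hj in
theorem cocycle_one (q : G ⧸ j.range) : cocycle j 1 q = 1 := by
  apply hj
  rw [cocycle_spec, inv_one, one_smul, mul_one, inv_mul_cancel, map_one]

include hj in
theorem cocycle_mul (g h : G) (q : G ⧸ j.range) :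
    cocycle j (g * h) q = cocycle j g q * cocycle j h (g⁻¹ • q) := by
  apply hj
  rw [map_mul, cocycle_spec, cocycle_spec, cocycle_spec, mul_inv_rev, mul_smul]
  group

/-- the operators of the induced representation -/
noncomputable def indT (g : G) : lp (fun _ : G ⧸ j.range => V) 2 →ₗᵢ[ℂ]
    lp (fun _ : G ⧸ j.range => V) 2 :=
  twist (MulAction.toPerm g⁻¹) fun q =>
    (Unitary.linearIsometryEquiv (σ (cocycle j g q))).toLinearIsometry

theorem indT_apply (g : G) (ξ : lp (fun _ : G ⧸ j.range => V) 2) (q : G ⧸ j.range) :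
    indT j σ g ξ q = (σ (cocycle j g q) : V →L[ℂ] V) (ξ (g⁻¹ • q)) := rfl

include hj in
theorem indT_one (ξ : lp (fun _ : G ⧸ j.range => V) 2) : indT j σ 1 ξ = ξ := by
  ext q
  rw [indT_apply, cocycle_one j hj, inv_one, one_smul, map_one]
  rfl

include hj in
theorem indT_mul (g h : G) (ξ : lp (fun _ : G ⧸ j.range => V) 2) :
    indT j σ (g * h) ξ = indT j σ g (indT j σ h ξ) := by
  ext q
  rw [indT_apply, indT_apply, indT_apply, cocycle_mul j hj, map_mul, mul_inv_rev, mul_smul]
  rfl

/-- The representation of `G` induced by `σ`. -/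
noncomputable def indRep :
    G →* unitary (lp (fun _ : G ⧸ j.range => V) 2 →L[ℂ] lp (fun _ : G ⧸ j.range => V) 2) :=
  mkRep (indT j σ) (indT_one j hj σ) (indT_mul j hj σ)

theorem indRep_apply (g : G) (ξ : lp (fun _ : G ⧸ j.range => V) 2) :
    (indRep j hj σ g : _ →L[ℂ] _) ξ = indT j σ g ξ := rfl

/-- the base point of `G / K` -/
def base : G ⧸ j.range := QuotientGroup.mk 1

theorem sec_base_mem : sec j (base j) ∈ j.range := by
  have h := mk_sec j (base j)
  have h2 : (QuotientGroup.mk (1 : G) : G ⧸ j.range) = QuotientGroup.mk (sec j (base j)) := h.symm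
  rw [QuotientGroup.eq] at h2
  simpa using h2

/-- the element `k₀` of `K` with `j k₀ = sec base` -/
noncomputable def k0 : K := (sec_base_mem j).choose

theorem k0_spec : j (k0 j) = sec j (base j) := (sec_base_mem j).choose_spec

theorem smul_base (k : K) : (j k)⁻¹ • base j = base j := by
  have h : (j k)⁻¹ • base j = (QuotientGroup.mk ((j k)⁻¹ * 1) : G ⧸ j.range) := rfl
  rw [h, base, QuotientGroup.eq]
  exact ⟨k, by simp⟩

open Classical in
/-- the embedding of `V` into the induced representation -/
noncomputable def indJ (v : V) : lp (fun _ : G ⧸ j.range => V) 2 :=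
  lp.single 2 (base j) ((σ (k0 j)⁻¹ : V →L[ℂ] V) v)

theorem sigma_mul_apply (a b : K) (v : V) :
    (σ (a * b) : V →L[ℂ] V) v = (σ a : V →L[ℂ] V) ((σ b : V →L[ℂ] V) v) := by
  rw [map_mul]; rfl

open Classical in
theorem norm_indJ (v : V) : ‖indJ j σ v‖ = ‖v‖ := by
  rw [indJ, lp.norm_single (by norm_num), norm_unitary_apply]

open Classical in
theorem indJ_zero : indJ j σ 0 = 0 := by
  rw [indJ, map_zero, lp.single_zero]

open Classical in
theorem indJ_add (v w : V) : indJ j σ (v + w) = indJ j σ v + indJ j σ w := by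
  rw [indJ, indJ, indJ, map_add, lp.single_add]

open Classical in
theorem indJ_smul (c : ℂ) (v : V) : indJ j σ (c • v) = c • indJ j σ v := by
  rw [indJ, indJ, map_smul, lp.single_smul]

open Classical in
include hj in
theorem indT_indJ (k : K) (v : V) :
    indT j σ (j k) (indJ j σ v) = indJ j σ ((σ k : V →L[ℂ] V) v) := by
  have hc : cocycle j (j k) (base j) = (k0 j)⁻¹ * k * k0 j := by
    apply hj
    rw [cocycle_spec, smul_base, map_mul, map_mul, map_inv, k0_spec]
  ext q
  rw [indT_apply]
  by_cases hq : q = base j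
  · subst hq
    rw [smul_base, hc, indJ, indJ, lp.single_apply_self, lp.single_apply_self]
    have h1 : ((k0 j)⁻¹ * k * k0 j) * (k0 j)⁻¹ = (k0 j)⁻¹ * k := by group
    rw [← sigma_mul_apply, h1, sigma_mul_apply]
  · have hq' : (j k)⁻¹ • q ≠ base j := by
      intro h
      apply hq
      have h3 := smul_base j k⁻¹
      rw [map_inv, inv_inv] at h3
      rw [← h3, ← h, smul_inv_smul]
    rw [indJ, indJ, lp.single_apply_ne _ _ _ hq, lp.single_apply_ne _ _ _ hq', map_zero]

theorem linExt_indRep (x : MonoidAlgebra ℂ K) (v : V) :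
    linExt (indRep j hj σ) (MonoidAlgebra.mapDomain j x) (indJ j σ v)
      = indJ j σ (linExt σ x v) := by
  induction x using MonoidAlgebra.induction_linear with
  | zero => simp [indJ_zero]
  | add x y hx hy =>
    rw [MonoidAlgebra.mapDomain_add, map_add, map_add, _root_.add_apply, hx, hy,
      _root_.add_apply, indJ_add]
  | single k c =>
    rw [MonoidAlgebra.mapDomain_single, linExt_single, linExt_single,
      _root_.smul_apply, _root_.smul_apply, indRep_apply,
      indT_indJ j hj, indJ_smul]

theorem norm_linExt_le_ind (x : MonoidAlgebra ℂ K) :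
    ‖linExt σ x‖ ≤ ‖linExt (indRep j hj σ) (MonoidAlgebra.mapDomain j x)‖ := by
  refine ContinuousLinearMap.opNorm_le_bound _ (norm_nonneg _) fun v => ?_
  rw [← norm_indJ j σ (linExt σ x v), ← linExt_indRep j hj σ x v, ← norm_indJ j σ v]
  exact ContinuousLinearMap.le_opNorm _ _

theorem linExt_comp (π : G →* unitary (V →L[ℂ] V)) (x : MonoidAlgebra ℂ K) :
    linExt (π.comp j) x = linExt π (MonoidAlgebra.mapDomain j x) := by
  induction x using MonoidAlgebra.induction_linear with
  | zero => simp
  | add x y hx hy => rw [MonoidAlgebra.mapDomain_add, map_add, map_add, hx, hy]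
  | single k c => rw [MonoidAlgebra.mapDomain_single, linExt_single, linExt_single]; rfl

include hj in
/-- For an injective homomorphism `j : K → G`, the induced map `ℂ[K] → ℂ[G]` preserves the
universal norms. -/
theorem univNorm_mapDomain (x : MonoidAlgebra ℂ K) :
    univNorm (MonoidAlgebra.mapDomain j x) = univNorm x := by
  apply le_antisymm
  · refine univNorm_le (univNorm_nonneg _) fun V _ _ _ π => ?_
    rw [← linExt_comp]
    exact norm_linExt_le_univNorm _ _
  · refine univNorm_le (univNorm_nonneg _) fun V _ _ _ σ => ?_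
    exact (norm_linExt_le_ind j hj σ x).trans (norm_linExt_le_univNorm _ _)

end Induced

end Pool.Agent.H68.GCS
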