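import Pool.Agent.H68.GCSCont
import Pool.Agent.H68.GCSGame

/-!
# The Ehrenfeucht-Fraisse argument
-/

namespace Pool.Agent.H68.GCS

universe u v w z t

theorem DuplicatorWins.symm {G : Type u} {H : Type v} [Group G] [Group H] {n k : ℕ}
    {a : Fin k → G} {b : Fin k → H} (h : DuplicatorWins n a b) : DuplicatorWins n b a := by
  induction n generalizing k with
  | zero => exact fun w => (h w).symm
  | succ n ih =>
    refine ⟨fun m c => ?_, fun m d => ?_⟩
    · obtain ⟨d, hd⟩ := h.2 m c
      exact ⟨d, ih hd⟩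
    · obtain ⟨c, hc⟩ := h.1 m d
      exact ⟨c, ih hc⟩

/-! ## Evaluation of terms in the group algebra -/

/-- The value of a term in the group algebra. -/
noncomputable def CTerm.algEval {F : Type t} [Group F] {n : ℕ} (v : Fin n → MonoidAlgebra ℂ F) :
    CTerm n → MonoidAlgebra ℂ F
  | .var i => v i
  | .zero => 0
  | .one => 1
  | .add s t => CTerm.algEval v s + CTerm.algEval v t
  | .neg s => -CTerm.algEval v s
  | .mul s t => CTerm.algEval v s * CTerm.algEval v t
  | .adj s => algStar (CTerm.algEval v s)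
  | .smul c s => c • CTerm.algEval v s

theorem mapDomain_algStar {F : Type t} {G : Type u} [Group F] [Group G] (α : F →* G)
    (x : MonoidAlgebra ℂ F) :
    MonoidAlgebra.mapDomain α (algStar x) = algStar (MonoidAlgebra.mapDomain α x) := by
  induction x using MonoidAlgebra.induction_linear with
  | zero => simp [algStar_zero]
  | add x y hx hy =>
    rw [algStar_add, MonoidAlgebra.mapDomain_add, MonoidAlgebra.mapDomain_add, algStar_add, hx, hy]
  | single g c =>
    rw [algStar_single, MonoidAlgebra.mapDomain_single, MonoidAlgebra.mapDomain_single,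
      algStar_single, map_inv]

section Push

variable {G : Type u} [Group G] (A : UnivGroupCStar.{u, w} G)

/-- the map `ℂ[F] → C*(G)` induced by a homomorphism `F → G` -/
noncomputable def push {F : Type t} [Group F] (α : F →* G)
    (x : MonoidAlgebra ℂ F) : A.A := linExt A.π (MonoidAlgebra.mapDomain α x)

theorem eval_push {F : Type t} [Group F] (α : F →* G) {n : ℕ}
    (w : Fin n → MonoidAlgebra ℂ F) (t : CTerm n) :
    CTerm.eval A.A (fun i => push A α (w i)) t = push A α (t.algEval w) := by
  induction t with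
  | var i => rfl
  | zero => simp [CTerm.eval, CTerm.algEval, push]
  | one =>
    simp only [CTerm.eval, CTerm.algEval, push]
    rw [MonoidAlgebra.mapDomain_one, map_one]
  | add s t hs ht =>
    simp only [CTerm.eval, CTerm.algEval, push] at *
    rw [MonoidAlgebra.mapDomain_add, map_add, hs, ht]
  | neg s hs =>
    simp only [CTerm.eval, CTerm.algEval, push] at *
    have : MonoidAlgebra.mapDomain α (-s.algEval w) = -MonoidAlgebra.mapDomain α (s.algEval w) :=
      map_neg (MonoidAlgebra.mapDomainRingHom ℂ α) _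
    rw [this, map_neg, hs]
  | mul s t hs ht =>
    simp only [CTerm.eval, CTerm.algEval, push] at *
    rw [MonoidAlgebra.mapDomain_mul, map_mul, hs, ht]
  | adj s hs =>
    simp only [CTerm.eval, CTerm.algEval, push] at *
    rw [mapDomain_algStar, linExt_algStar, hs]
  | smul c s hs =>
    simp only [CTerm.eval, CTerm.algEval, push] at *
    have : MonoidAlgebra.mapDomain α (c • s.algEval w)
        = c • MonoidAlgebra.mapDomain α (s.algEval w) :=
      map_smul (MonoidAlgebra.mapDomainAlgHom ℂ ℂ α) _ _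
    rw [this, map_smul, hs]

theorem push_append_left {k m : ℕ} (a : Fin k → G) (c : Fin m → G)
    (w : MonoidAlgebra ℂ (FreeGroup (Fin k))) :
    push A (FreeGroup.lift (Fin.append a c))
      (MonoidAlgebra.mapDomain (FreeGroup.map (Fin.castAdd m)) w)
      = push A (FreeGroup.lift a) w := by
  rw [push, mapDomain_comp', push]
  congr 2
  have : (FreeGroup.lift (Fin.append a c)).comp (FreeGroup.map (Fin.castAdd m))
      = FreeGroup.lift a := by
    ext i
    simp
  rw [this]

theorem push_append_right {k m : ℕ} (a : Fin k → G) (c : Fin m → G)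
    (w : MonoidAlgebra ℂ (FreeGroup (Fin m))) :
    push A (FreeGroup.lift (Fin.append a c))
      (MonoidAlgebra.mapDomain (FreeGroup.map (Fin.natAdd k)) w)
      = push A (FreeGroup.lift c) w := by
  rw [push, mapDomain_comp', push]
  congr 2
  have : (FreeGroup.lift (Fin.append a c)).comp (FreeGroup.map (Fin.natAdd k))
      = FreeGroup.lift c := by
    ext i
    simp
  rw [this]

theorem push_add {F : Type t} [Group F] (α : F →* G)
    (x y : MonoidAlgebra ℂ F) : push A α (x + y) = push A α x + push A α y := by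
  rw [push, MonoidAlgebra.mapDomain_add, map_add]; rfl

theorem exists_push (x : MonoidAlgebra ℂ G) :
    ∃ (m : ℕ) (c : Fin m → G) (w : MonoidAlgebra ℂ (FreeGroup (Fin m))),
      push A (FreeGroup.lift c) w = linExt A.π x := by
  induction x using MonoidAlgebra.induction_linear with
  | zero => exact ⟨0, Fin.elim0, 0, by simp [push]⟩
  | add x y hx hy =>
    obtain ⟨m, c, w, hw⟩ := hx
    obtain ⟨m', c', w', hw'⟩ := hy
    refine ⟨m + m', Fin.append c c', MonoidAlgebra.mapDomain (FreeGroup.map (Fin.castAdd m')) w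
      + MonoidAlgebra.mapDomain (FreeGroup.map (Fin.natAdd m)) w', ?_⟩
    rw [push_add, push_append_left, push_append_right, hw, hw', map_add]
  | single g r =>
    refine ⟨1, fun _ => g, MonoidAlgebra.single (FreeGroup.of 0) r, ?_⟩
    rw [push, MonoidAlgebra.mapDomain_single, FreeGroup.lift_apply_of]

/-- To bound a supremum over a ball of `C*(G)` it suffices to bound the values at the elements
of the group algebra. -/
theorem sup_le_of_alg {n : ℕ} {F : (Fin (n + 1) → A.A) → ℝ}
    (hF : Good F) (r : ℕ) (v : Fin n → A.A) (S : ℝ)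
    (h : ∀ x : MonoidAlgebra ℂ G, ‖linExt A.π x‖ ≤ r →
      F (Fin.snoc (α := fun _ => A.A) v (linExt A.π x)) ≤ S) :
    (⨆ x : Metric.closedBall (0 : A.A) r,
      F (Fin.snoc (α := fun _ => A.A) v (x : A.A))) ≤ S := by
  refine ciSup_le ?_
  rintro ⟨x, hx⟩
  have hcont : Continuous fun x : A.A =>
      F (Fin.snoc (α := fun _ => A.A) v x) := by
    refine hF.continuous.comp ?_
    refine continuous_pi fun i => ?_
    refine Fin.lastCases ?_ (fun i => ?_) i
    · simpa using continuous_id'
    · simpa using continuous_const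
  have hclosed : IsClosed {x : A.A |
      F (Fin.snoc (α := fun _ => A.A) v x) ≤ S} :=
    isClosed_le hcont continuous_const
  by_cases hr : r = 0
  · subst hr
    have hx0 : x = 0 := by simpa using hx
    subst hx0
    have := h 0 (by simp)
    rwa [map_zero] at this
  · have hr' : (r : ℝ) ≠ 0 := by exact_mod_cast hr
    have hsub : Metric.ball (0 : A.A) r ∩ Set.range (linExt A.π) ⊆ {x : A.A |
        F (Fin.snoc (α := fun _ => A.A) v x) ≤ S} := by
      rintro _ ⟨hy, x, rfl⟩
      exact h x (mem_ball_zero_iff.1 hy).le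
    have h1 : Metric.ball (0 : A.A) r ⊆ closure
        (Metric.ball (0 : A.A) r ∩ Set.range (linExt A.π)) :=
      A.dense.open_subset_closure_inter Metric.isOpen_ball
    have h2 : Metric.closedBall (0 : A.A) r ⊆ closure
        (Metric.ball (0 : A.A) r ∩ Set.range (linExt A.π)) := by
      rw [← closure_ball (0 : A.A) hr']
      exact closure_minimal h1 isClosed_closure
    exact (closure_minimal hsub hclosed) (h2 hx)

theorem snoc_push {F : Type t} [Group F] (α : F →* G) {n : ℕ}
    (w : Fin n → MonoidAlgebra ℂ F) (x : MonoidAlgebra ℂ F) :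
    (fun i => push A α ((Fin.snoc (α := fun _ => MonoidAlgebra ℂ F) w x) i))
      = Fin.snoc (α := fun _ => A.A) (fun i => push A α (w i)) (push A α x) := by
  funext i
  refine Fin.lastCases ?_ (fun i => ?_) i
  · rw [Fin.snoc_last, Fin.snoc_last]
  · rw [Fin.snoc_castSucc, Fin.snoc_castSucc]

end Push

theorem inf_eq_neg_sup {A : Type w} [CStarAlgebra A] {n : ℕ} (F : (Fin (n + 1) → A) → ℝ) (r : ℕ)
    (v : Fin n → A) :
    (⨅ x : Metric.closedBall (0 : A) r, F (Fin.snoc (α := fun _ => A) v (x : A)))
      = -⨆ x : Metric.closedBall (0 : A) r,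
        (fun v => -F v) (Fin.snoc (α := fun _ => A) v (x : A)) := by
  rw [iInf, Real.sInf_def, iSup]
  congr 2
  ext y
  simp only [Set.mem_neg, Set.mem_range]
  constructor
  · rintro ⟨x, hx⟩
    exact ⟨x, by rw [hx, neg_neg]⟩
  · rintro ⟨x, hx⟩
    exact ⟨x, by rw [← hx, neg_neg]⟩

/-- The quantifier rank. -/
def CFormula.rank : {n : ℕ} → CFormula n → ℕ
  | _, .norm _ => 0
  | _, .conn _ φ => Finset.univ.sup fun i => (φ i).rank
  | _, .sup _ φ => φ.rank + 1
  | _, .inf _ φ => φ.rank + 1

section EF

variable {G : Type u} {H : Type v} [Group G] [Group H]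

theorem norm_push_eq (A : UnivGroupCStar.{u, w} G) (B : UnivGroupCStar.{v, z} H)
    {k : ℕ} {a : Fin k → G} {b : Fin k → H}
    (h : DuplicatorWins 0 a b) (w : MonoidAlgebra ℂ (FreeGroup (Fin k))) :
    ‖push A (FreeGroup.lift a) w‖ = ‖push B (FreeGroup.lift b) w‖ := by
  rw [push, push, A.norm_eq, B.norm_eq]
  exact univNorm_eq_of_ker _ _ h w

/-- One half of the quantifier step. -/
theorem sup_half {G : Type u} {H : Type v} [Group G] [Group H] (A : UnivGroupCStar.{u, w} G)
    (B : UnivGroupCStar.{v, z} H) {n N : ℕ} {FG : (Fin (n + 1) → A.A) → ℝ}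
    {FH : (Fin (n + 1) → B.A) → ℝ} (hFG : Good FG) (hFH : Good FH) (r : ℕ)
    (ih : ∀ {k : ℕ} (a : Fin k → G) (b : Fin k → H)
      (w : Fin (n + 1) → MonoidAlgebra ℂ (FreeGroup (Fin k))), DuplicatorWins N a b →
      FG (fun i => push A (FreeGroup.lift a) (w i)) = FH (fun i => push B (FreeGroup.lift b) (w i)))
    {k : ℕ} (a : Fin k → G) (b : Fin k → H) (w : Fin n → MonoidAlgebra ℂ (FreeGroup (Fin k)))
    (hwin : DuplicatorWins (N + 1) a b) :
    (⨆ x : Metric.closedBall (0 : A.A) r,
      FG (Fin.snoc (α := fun _ => A.A) (fun i => push A (FreeGroup.lift a) (w i)) (x : A.A)))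
    ≤ ⨆ x : Metric.closedBall (0 : B.A) r,
      FH (Fin.snoc (α := fun _ => B.A) (fun i => push B (FreeGroup.lift b) (w i)) (x : B.A)) := by
  refine sup_le_of_alg A hFG r _ _ fun x hx => ?_
  obtain ⟨m, c, w', hw'⟩ := exists_push A x
  obtain ⟨d, hd⟩ := hwin.1 m c
  have e := ih (Fin.append a c) (Fin.append b d)
    (Fin.snoc (α := fun _ => MonoidAlgebra ℂ (FreeGroup (Fin (k + m))))
      (fun i => MonoidAlgebra.mapDomain (FreeGroup.map (Fin.castAdd m)) (w i))
      (MonoidAlgebra.mapDomain (FreeGroup.map (Fin.natAdd k)) w')) hd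
  rw [snoc_push, snoc_push] at e
  simp only [push_append_left, push_append_right] at e
  rw [← hw', e]
  have hnorm : ‖push B (FreeGroup.lift d) w'‖ ≤ r := by
    have h0 : DuplicatorWins 0 (Fin.append a c) (Fin.append b d) := hd.zero
    have := norm_push_eq A B h0 (MonoidAlgebra.mapDomain (FreeGroup.map (Fin.natAdd k)) w')
    rw [push_append_right, push_append_right] at this
    rw [← this, hw']
    exact hx
  exact le_ciSup (hFH.bddAbove r _)
    ⟨push B (FreeGroup.lift d) w', mem_closedBall_zero_iff.2 hnorm⟩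

theorem sup_eq (A : UnivGroupCStar.{u, w} G) (B : UnivGroupCStar.{v, z} H)
    {n N : ℕ} {FG : (Fin (n + 1) → A.A) → ℝ}
    {FH : (Fin (n + 1) → B.A) → ℝ} (hFG : Good FG) (hFH : Good FH) (r : ℕ)
    (ih : ∀ {k : ℕ} (a : Fin k → G) (b : Fin k → H)
      (w : Fin (n + 1) → MonoidAlgebra ℂ (FreeGroup (Fin k))), DuplicatorWins N a b →
      FG (fun i => push A (FreeGroup.lift a) (w i)) = FH (fun i => push B (FreeGroup.lift b) (w i)))
    {k : ℕ} (a : Fin k → G) (b : Fin k → H) (w : Fin n → MonoidAlgebra ℂ (FreeGroup (Fin k)))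
    (hwin : DuplicatorWins (N + 1) a b) :
    (⨆ x : Metric.closedBall (0 : A.A) r,
      FG (Fin.snoc (α := fun _ => A.A) (fun i => push A (FreeGroup.lift a) (w i)) (x : A.A)))
    = ⨆ x : Metric.closedBall (0 : B.A) r,
      FH (Fin.snoc (α := fun _ => B.A) (fun i => push B (FreeGroup.lift b) (w i)) (x : B.A)) :=
  le_antisymm (sup_half A B hFG hFH r ih a b w hwin)
    (sup_half B A hFH hFG r (fun b a w h => (ih a b w h.symm).symm) b a w hwin.symm)

theorem val_eq (A : UnivGroupCStar.{u, w} G) (B : UnivGroupCStar.{v, z} H)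
    {n : ℕ} (φ : CFormula n) : ∀ {k : ℕ} (a : Fin k → G) (b : Fin k → H)
    (w : Fin n → MonoidAlgebra ℂ (FreeGroup (Fin k))), DuplicatorWins φ.rank a b →
    φ.val A.A (fun i => push A (FreeGroup.lift a) (w i))
      = φ.val B.A (fun i => push B (FreeGroup.lift b) (w i)) := by
  induction φ with
  | norm t =>
    intro k a b w h
    simp only [CFormula.val]
    rw [eval_push, eval_push]
    exact norm_push_eq A B h _
  | conn f φ ih =>
    intro k a b w h
    simp only [CFormula.val]
    congr 1
    funext i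
    refine ih i a b w (h.mono ?_)
    simp only [CFormula.rank]
    exact Finset.le_sup (f := fun i => (φ i).rank) (Finset.mem_univ i)
  | sup r φ ih =>
    intro k a b w h
    simp only [CFormula.val]
    exact sup_eq A B φ.good φ.good r ih a b w h
  | inf r φ ih =>
    intro k a b w h
    simp only [CFormula.val]
    rw [inf_eq_neg_sup, inf_eq_neg_sup]
    rw [sup_eq A B φ.good.neg φ.good.neg r (fun a b w h => by rw [ih a b w h]) a b w h]

theorem main (h : BackAndForthEquiv G H) (A : UnivGroupCStar.{u, w} G)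
    (B : UnivGroupCStar.{v, z} H) : ElementarilyEquivalent A.A B.A := by
  intro φ
  have := val_eq A B φ (Fin.elim0 : Fin 0 → G) (Fin.elim0 : Fin 0 → H) Fin.elim0 (h _)
  have e1 : (fun i : Fin 0 => push A (FreeGroup.lift (Fin.elim0 : Fin 0 → G))
    ((Fin.elim0 : Fin 0 → MonoidAlgebra ℂ (FreeGroup (Fin 0))) i)) = Fin.elim0 := by
    funext i; exact i.elim0
  have e2 : (fun i : Fin 0 => push B (FreeGroup.lift (Fin.elim0 : Fin 0 → H))
    ((Fin.elim0 : Fin 0 → MonoidAlgebra ℂ (FreeGroup (Fin 0))) i)) = Fin.elim0 := by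
    funext i; exact i.elim0
  rwa [e1, e2] at this

end EF

end Pool.Agent.H68.GCS
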