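import Pool.Agent.H68.GCSDefs

/-!
# Basic properties of the universal norm
-/

namespace Pool.Agent.H68.GCS

universe u v w

section Star

variable {G : Type u} [Group G]

/-- The involution of `ℂ[G]`: the conjugate-linear map sending `g` to `g⁻¹`. -/
noncomputable def algStar (x : MonoidAlgebra ℂ G) : MonoidAlgebra ℂ G :=
  MonoidAlgebra.map (starRingEnd ℂ : ℂ →+ ℂ) (MonoidAlgebra.mapDomain (fun g : G => g⁻¹) x)

theorem algStar_single (g : G) (c : ℂ) :
    algStar (MonoidAlgebra.single g c) = MonoidAlgebra.single g⁻¹ (starRingEnd ℂ c) := by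
  simp [algStar]

theorem algStar_add (x y : MonoidAlgebra ℂ G) : algStar (x + y) = algStar x + algStar y := by
  simp [algStar, MonoidAlgebra.mapDomain_add, MonoidAlgebra.map_add]

theorem algStar_zero : algStar (0 : MonoidAlgebra ℂ G) = 0 := by
  simp [algStar]

theorem algStar_algStar (x : MonoidAlgebra ℂ G) : algStar (algStar x) = x := by
  induction x using MonoidAlgebra.induction_linear with
  | zero => simp [algStar_zero]
  | add x y hx hy => rw [algStar_add, algStar_add, hx, hy]
  | single g c => simp [algStar_single]

theorem algStar_mul (x y : MonoidAlgebra ℂ G) : algStar (x * y) = algStar y * algStar x := by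
  induction x using MonoidAlgebra.induction_linear with
  | zero => simp [algStar_zero]
  | add x x' hx hx' => rw [add_mul, algStar_add, algStar_add, mul_add, hx, hx']
  | single g c =>
    induction y using MonoidAlgebra.induction_linear with
    | zero => simp [algStar_zero]
    | add x x' hx hx' => rw [mul_add, algStar_add, algStar_add, add_mul, hx, hx']
    | single h d => simp [algStar_single, MonoidAlgebra.single_mul_single, mul_comm]

theorem algStar_smul (c : ℂ) (x : MonoidAlgebra ℂ G) :
    algStar (c • x) = starRingEnd ℂ c • algStar x := by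
  induction x using MonoidAlgebra.induction_linear with
  | zero => simp [algStar_zero]
  | add x y hx hy => rw [smul_add, algStar_add, algStar_add, smul_add, hx, hy]
  | single g d => simp [algStar_single]

end Star

section LinExt

variable {G : Type u} [Group G] {A : Type v} [CStarAlgebra A] (π : G →* unitary A)

theorem linExt_single (g : G) (c : ℂ) :
    linExt π (MonoidAlgebra.single g c) = c • (π g : A) := by
  simp [linExt, MonoidAlgebra.lift_single]

theorem linExt_algStar (x : MonoidAlgebra ℂ G) :
    linExt π (algStar x) = star (linExt π x) := by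
  induction x using MonoidAlgebra.induction_linear with
  | zero => simp [algStar_zero]
  | add x y hx hy => rw [algStar_add, map_add, map_add, star_add, hx, hy]
  | single g d =>
    rw [algStar_single, linExt_single, linExt_single, star_smul, map_inv]
    rfl

end LinExt

section Hilbert

variable {G : Type u} [Group G] {V : Type v} [NormedAddCommGroup V] [InnerProductSpace ℂ V]
  [CompleteSpace V]

theorem norm_unitary_apply (z : unitary (V →L[ℂ] V)) (x : V) : ‖(z : V →L[ℂ] V) x‖ = ‖x‖ :=
  (Unitary.linearIsometryEquiv z).norm_map x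

theorem norm_unitary_le (z : unitary (V →L[ℂ] V)) : ‖(z : V →L[ℂ] V)‖ ≤ 1 := by
  refine ContinuousLinearMap.opNorm_le_bound _ zero_le_one fun x => ?_
  rw [norm_unitary_apply, one_mul]

theorem norm_linExt_le (π : G →* unitary (V →L[ℂ] V)) (x : MonoidAlgebra ℂ G) :
    ‖linExt π x‖ ≤ x.coeff.sum fun _ c => ‖c‖ := by
  have hx : x = x.coeff.sum MonoidAlgebra.single := (MonoidAlgebra.sum_coeff_single x).symm
  conv_lhs => rw [hx]
  rw [Finsupp.sum, map_sum]
  refine (norm_sum_le _ _).trans ?_
  refine Finset.sum_le_sum fun g _ => ?_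
  rw [linExt_single, norm_smul]
  exact mul_le_of_le_one_right (norm_nonneg _) (norm_unitary_le _)

end Hilbert

section UnivNorm

variable {G : Type u} [Group G]

variable (G) in
/-- The bundled form of `IsUnivGroupCStar`. -/
structure UnivGroupCStar where
  /-- the C*-algebra -/
  A : Type v
  [instA : CStarAlgebra A]
  /-- the canonical map of `G` to the unitary group -/
  π : G →* unitary A
  /-- the image of `ℂ[G]` is dense -/
  dense : DenseRange (linExt π)
  /-- the norm is the universal norm -/
  norm_eq : ∀ x : MonoidAlgebra ℂ G, ‖linExt π x‖ = univNorm x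

attribute [instance] UnivGroupCStar.instA

theorem bddAbove_normSet (x : MonoidAlgebra ℂ G) :
    BddAbove {r : ℝ | ∃ (V : Type u) (_ : NormedAddCommGroup V) (_ : InnerProductSpace ℂ V)
      (_ : CompleteSpace V) (ρ : UnitaryRep G V), ρ.opNorm x = r} := by
  refine ⟨x.coeff.sum fun _ c => ‖c‖, ?_⟩
  rintro r ⟨V, _, _, _, ρ, rfl⟩
  exact norm_linExt_le (V := V) ρ x

theorem norm_linExt_le_univNorm' {V : Type u} [NormedAddCommGroup V] [InnerProductSpace ℂ V]
    [CompleteSpace V] (π : G →* unitary (V →L[ℂ] V)) (x : MonoidAlgebra ℂ G) :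
    ‖linExt π x‖ ≤ univNorm x :=
  le_csSup (bddAbove_normSet x) ⟨V, _, _, _, π, rfl⟩

theorem univNorm_le {x : MonoidAlgebra ℂ G} {C : ℝ} (hC : 0 ≤ C)
    (h : ∀ (V : Type u) [NormedAddCommGroup V] [InnerProductSpace ℂ V] [CompleteSpace V]
      (π : G →* unitary (V →L[ℂ] V)), ‖linExt π x‖ ≤ C) : univNorm x ≤ C := by
  refine Real.sSup_le ?_ hC
  rintro r ⟨V, _, _, _, ρ, rfl⟩
  exact h V ρ

theorem univNorm_nonneg (x : MonoidAlgebra ℂ G) : 0 ≤ univNorm x := by
  refine Real.sSup_nonneg ?_
  rintro r ⟨V, _, _, _, ρ, rfl⟩
  exact norm_nonneg _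

theorem univNorm_zero : univNorm (0 : MonoidAlgebra ℂ G) = 0 :=
  le_antisymm (univNorm_le le_rfl fun V _ _ _ π => by simp) (univNorm_nonneg _)

theorem univNorm_smul_le (c : ℂ) (x : MonoidAlgebra ℂ G) :
    univNorm (c • x) ≤ ‖c‖ * univNorm x := by
  refine univNorm_le (mul_nonneg (norm_nonneg _) (univNorm_nonneg _)) fun V _ _ _ π => ?_
  rw [map_smul]
  exact (norm_smul_le _ _).trans
    (mul_le_mul_of_nonneg_left (norm_linExt_le_univNorm' π x) (norm_nonneg _))

theorem univNorm_neg (x : MonoidAlgebra ℂ G) : univNorm (-x) = univNorm x := by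
  have h : ∀ y : MonoidAlgebra ℂ G, univNorm (-y) ≤ univNorm y := fun y =>
    univNorm_le (univNorm_nonneg _) fun V _ _ _ π => by
      rw [map_neg, norm_neg]; exact norm_linExt_le_univNorm' π y
  refine le_antisymm (h x) ?_
  simpa using h (-x)

theorem univNorm_add_le (x y : MonoidAlgebra ℂ G) :
    univNorm (x + y) ≤ univNorm x + univNorm y := by
  refine univNorm_le (add_nonneg (univNorm_nonneg _) (univNorm_nonneg _)) fun V _ _ _ π => ?_
  rw [map_add]
  exact (norm_add_le _ _).trans
    (add_le_add (norm_linExt_le_univNorm' π x) (norm_linExt_le_univNorm' π y))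

theorem univNorm_mul_le (x y : MonoidAlgebra ℂ G) :
    univNorm (x * y) ≤ univNorm x * univNorm y := by
  refine univNorm_le (mul_nonneg (univNorm_nonneg _) (univNorm_nonneg _)) fun V _ _ _ π => ?_
  rw [map_mul]
  exact (norm_mul_le _ _).trans
    (mul_le_mul (norm_linExt_le_univNorm' π x) (norm_linExt_le_univNorm' π y) (norm_nonneg _)
      (univNorm_nonneg _))

theorem univNorm_algStar (x : MonoidAlgebra ℂ G) : univNorm (algStar x) = univNorm x := by
  have h : ∀ y : MonoidAlgebra ℂ G, univNorm (algStar y) ≤ univNorm y := fun y =>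
    univNorm_le (univNorm_nonneg _) fun V _ _ _ π => by
      rw [linExt_algStar, norm_star]; exact norm_linExt_le_univNorm' π y
  refine le_antisymm (h x) ?_
  simpa [algStar_algStar] using h (algStar x)

theorem univNorm_mul_self_le (x : MonoidAlgebra ℂ G) :
    univNorm x * univNorm x ≤ univNorm (algStar x * x) := by
  have h : univNorm x ≤ √(univNorm (algStar x * x)) := by
    refine univNorm_le (Real.sqrt_nonneg _) fun V _ _ _ π => ?_
    refine Real.le_sqrt_of_sq_le ?_
    have := norm_linExt_le_univNorm' π (algStar x * x)
    rw [map_mul, linExt_algStar, CStarRing.norm_star_mul_self] at this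
    rw [sq]; exact this
  calc univNorm x * univNorm x
      ≤ √(univNorm (algStar x * x)) * √(univNorm (algStar x * x)) :=
        mul_le_mul h h (univNorm_nonneg _) (Real.sqrt_nonneg _)
    _ = univNorm (algStar x * x) := Real.mul_self_sqrt (univNorm_nonneg _)

end UnivNorm

/-! ## A homomorphism to the monoid of linear isometries gives a unitary representation -/

/-- a homomorphism from a group to the monoid of linear isometries gives a unitary
representation -/
noncomputable def mkRep {G : Type u} [Group G] {W : Type v} [NormedAddCommGroup W]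
    [InnerProductSpace ℂ W] [CompleteSpace W] (T : G → (W →ₗᵢ[ℂ] W))
    (h1 : ∀ x, T 1 x = x) (hmul : ∀ g h x, T (g * h) x = T g (T h x)) :
    G →* unitary (W →L[ℂ] W) :=
  (Unitary.linearIsometryEquiv (𝕜 := ℂ) (H := W)).symm.toMonoidHom.comp
    { toFun := fun g =>
        { (T g).toLinearMap with
          invFun := T g⁻¹
          left_inv := fun x => by
            change T g⁻¹ (T g x) = x
            rw [← hmul, inv_mul_cancel, h1]
          right_inv := fun x => by
            change T g (T g⁻¹ x) = x
            rw [← hmul, mul_inv_cancel, h1]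
          norm_map' := (T g).norm_map }
      map_one' := by
        ext x
        exact h1 x
      map_mul' := fun g h => by
        ext x
        exact hmul g h x }

theorem mkRep_apply {G : Type u} [Group G] {W : Type v} [NormedAddCommGroup W]
    [InnerProductSpace ℂ W] [CompleteSpace W] (T : G → (W →ₗᵢ[ℂ] W))
    (h1 : ∀ x, T 1 x = x) (hmul : ∀ g h x, T (g * h) x = T g (T h x)) (g : G) (x : W) :
    (mkRep T h1 hmul g : W →L[ℂ] W) x = T g x := rfl

/-! ## Representations in other universes -/

section Cyclic

open UniformSpace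

variable {G : Type u} [Group G] {V : Type v} [NormedAddCommGroup V] [InnerProductSpace ℂ V]
  [CompleteSpace V]

/-- `ℂ[G]` with the pre-inner product `⟪x, y⟫ = ⟪π(x) v, π(y) v⟫`. -/
def PreCyc (_π : G →* unitary (V →L[ℂ] V)) (_v : V) : Type u := MonoidAlgebra ℂ G

variable (π : G →* unitary (V →L[ℂ] V)) (v : V)

noncomputable instance : AddCommGroup (PreCyc π v) :=
  inferInstanceAs (AddCommGroup (MonoidAlgebra ℂ G))

noncomputable instance : Module ℂ (PreCyc π v) :=
  inferInstanceAs (Module ℂ (MonoidAlgebra ℂ G))

/-- the map `x ↦ π(x) v` -/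
noncomputable def cycMap : PreCyc π v →ₗ[ℂ] V where
  toFun x := linExt π (show MonoidAlgebra ℂ G from x) v
  map_add' x y := by
    have := map_add (linExt π) (show MonoidAlgebra ℂ G from x) (show MonoidAlgebra ℂ G from y)
    exact congrArg (fun T : V →L[ℂ] V => T v) this
  map_smul' c x := by
    have := map_smul (linExt π) c (show MonoidAlgebra ℂ G from x)
    exact congrArg (fun T : V →L[ℂ] V => T v) this

theorem cycMap_apply (x : MonoidAlgebra ℂ G) : cycMap π v x = linExt π x v := rfl

noncomputable instance : SeminormedAddCommGroup (PreCyc π v) :=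
  SeminormedAddCommGroup.induced _ _ (cycMap π v)

noncomputable instance : InnerProductSpace ℂ (PreCyc π v) :=
  InnerProductSpace.induced (cycMap π v)

theorem norm_preCyc (x : PreCyc π v) : ‖x‖ = ‖cycMap π v x‖ := rfl

/-- left translation on `PreCyc` -/
noncomputable def cycT (g : G) : PreCyc π v →ₗᵢ[ℂ] PreCyc π v where
  toFun x := (MonoidAlgebra.single g 1 * (show MonoidAlgebra ℂ G from x) : MonoidAlgebra ℂ G)
  map_add' x y := mul_add (MonoidAlgebra.single g 1) (show MonoidAlgebra ℂ G from x)
    (show MonoidAlgebra ℂ G from y)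
  map_smul' c x := mul_smul_comm c (MonoidAlgebra.single g 1 : MonoidAlgebra ℂ G)
    (show MonoidAlgebra ℂ G from x)
  norm_map' x := by
    rw [norm_preCyc, norm_preCyc]
    have h : cycMap π v (MonoidAlgebra.single g 1 * (show MonoidAlgebra ℂ G from x) :
        MonoidAlgebra ℂ G) = (π g : V →L[ℂ] V) (cycMap π v x) := by
      rw [cycMap_apply, map_mul, linExt_single, one_smul]
      rfl
    exact (congrArg norm h).trans (norm_unitary_apply _ _)

theorem cycT_apply (g : G) (x : MonoidAlgebra ℂ G) :
    (cycT π v g x : MonoidAlgebra ℂ G) = MonoidAlgebra.single g 1 * x := rfl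

/-- left translation on the completion of `PreCyc` -/
noncomputable def cycT' (g : G) : Completion (PreCyc π v) →ₗᵢ[ℂ] Completion (PreCyc π v) where
  toLinearMap := (cycT π v g).toContinuousLinearMap.completion.toLinearMap
  norm_map' x := by
    refine Completion.induction_on x (isClosed_eq ?_ continuous_norm) fun x => ?_
    · exact continuous_norm.comp
        ((cycT π v g).toContinuousLinearMap.completion.continuous)
    · have := (cycT π v g).toContinuousLinearMap.completion_apply_coe x
      exact (congrArg norm this).trans ((Completion.norm_coe _).trans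
        (((cycT π v g).norm_map x).trans (Completion.norm_coe _).symm))

theorem cycT'_coe (g : G) (x : PreCyc π v) :
    cycT' π v g (x : Completion (PreCyc π v)) = ((cycT π v g x : PreCyc π v) : Completion _) :=
  (cycT π v g).toContinuousLinearMap.completion_apply_coe x

theorem cycT'_one (x : Completion (PreCyc π v)) : cycT' π v 1 x = x := by
  refine Completion.induction_on x (isClosed_eq (cycT' π v 1).continuous continuous_id) fun x => ?_
  rw [cycT'_coe]
  congr 1
  exact one_mul (show MonoidAlgebra ℂ G from x)

theorem cycT'_mul (g h : G) (x : Completion (PreCyc π v)) :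
    cycT' π v (g * h) x = cycT' π v g (cycT' π v h x) := by
  refine Completion.induction_on x (isClosed_eq (cycT' π v _).continuous
    ((cycT' π v g).continuous.comp (cycT' π v h).continuous)) fun x => ?_
  rw [cycT'_coe, cycT'_coe, cycT'_coe]
  congr 1
  have h1 : (MonoidAlgebra.single (g * h) 1 : MonoidAlgebra ℂ G)
      = MonoidAlgebra.single g 1 * MonoidAlgebra.single h 1 := by
    rw [MonoidAlgebra.single_mul_single, one_mul]
  change (MonoidAlgebra.single (g * h) 1 * (show MonoidAlgebra ℂ G from x) : MonoidAlgebra ℂ G)
    = MonoidAlgebra.single g 1 * (MonoidAlgebra.single h 1 * (show MonoidAlgebra ℂ G from x))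
  rw [h1, mul_assoc]

/-- the cyclic representation generated by `v`, on a Hilbert space in the universe of `G` -/
noncomputable def cycRep : G →* unitary (Completion (PreCyc π v) →L[ℂ] Completion (PreCyc π v)) :=
  mkRep (cycT' π v) (cycT'_one π v) (cycT'_mul π v)

theorem linExt_cycRep (x y : MonoidAlgebra ℂ G) :
    linExt (cycRep π v) x ((show PreCyc π v from y : PreCyc π v) : Completion (PreCyc π v))
      = ((show PreCyc π v from x * y : PreCyc π v) : Completion (PreCyc π v)) := by
  induction x using MonoidAlgebra.induction_linear with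
  | zero =>
    rw [map_zero, zero_mul]
    exact (Completion.coe_zero (α := PreCyc π v)).symm
  | add x x' hx hx' =>
    rw [map_add, _root_.add_apply, hx, hx', add_mul]
    exact (Completion.coe_add (α := PreCyc π v) _ _).symm
  | single g c =>
    rw [linExt_single, _root_.smul_apply]
    have h1 : (cycRep π v g : Completion (PreCyc π v) →L[ℂ] Completion (PreCyc π v))
        ((show PreCyc π v from y : PreCyc π v) : Completion (PreCyc π v))
        = ((cycT π v g y : PreCyc π v) : Completion _) := cycT'_coe π v g y
    rw [h1]
    have h2 := (Completion.coe_smul (X := PreCyc π v) c (cycT π v g y)).symm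
    refine h2.trans ?_
    congr 1
    have h3 : (MonoidAlgebra.single g c : MonoidAlgebra ℂ G) = c • MonoidAlgebra.single g 1 := by
      rw [MonoidAlgebra.smul_single, smul_eq_mul, mul_one]
    rw [h3, smul_mul_assoc]
    rfl

theorem norm_linExt_apply_le (x : MonoidAlgebra ℂ G) :
    ‖linExt π x v‖ ≤ univNorm x * ‖v‖ := by
  have h1 := linExt_cycRep π v x 1
  have h2 : ‖((show PreCyc π v from (1 : MonoidAlgebra ℂ G) : PreCyc π v) :
      Completion (PreCyc π v))‖ = ‖v‖ := by
    rw [Completion.norm_coe, norm_preCyc]
    refine congrArg norm ?_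
    rw [cycMap_apply, map_one]
    rfl
  have h3 : ‖((show PreCyc π v from x * (1 : MonoidAlgebra ℂ G) : PreCyc π v) :
      Completion (PreCyc π v))‖ = ‖linExt π x v‖ := by
    rw [Completion.norm_coe, norm_preCyc, mul_one]
    rfl
  rw [← h3, ← h1, ← h2]
  exact (ContinuousLinearMap.le_opNorm _ _).trans
    (mul_le_mul_of_nonneg_right (norm_linExt_le_univNorm' _ _) (norm_nonneg _))

/-- The norm of `π(x)` is at most the universal norm of `x`, also for unitary representations
on Hilbert spaces in other universes. -/
theorem norm_linExt_le_univNorm (x : MonoidAlgebra ℂ G) : ‖linExt π x‖ ≤ univNorm x :=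
  ContinuousLinearMap.opNorm_le_bound _ (univNorm_nonneg _) fun v =>
    norm_linExt_apply_le π v x

end Cyclic

/-! ## Comparison with the definitions of the statement -/

section Compare

variable {G : Type u} [Group G]

/-- The bundled form. -/
noncomputable def IsUnivGroupCStar.model {A : Type v} [CStarAlgebra A] {π : G →* unitary A}
    (h : IsUnivGroupCStar π) : UnivGroupCStar.{u, v} G where
  A := A
  π := π
  dense := h.1
  norm_eq := h.2

theorem UnivGroupCStar.is (M : UnivGroupCStar.{u, v} G) : IsUnivGroupCStar M.π :=
  ⟨M.dense, M.norm_eq⟩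

end Compare

end Pool.Agent.H68.GCS
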