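import Pool.Agent.H75.CapHard

/-!
# Every language in NP reduces to a clique problem with an adjacency test of the loop language
-/

namespace Pool.Agent.H68.NPClique

open Pool.Agent.H75

/-- Cook-Levin theorem, as a clique problem: the number of vertices, the size of the clique and the
adjacency test (in the variables `20` and `21`) are given by the loop language. -/
theorem np_clique {L : Set (List Bool)} (hL : InNP L) :
    ∃ (N k : List Bool → ℕ) (adj : List Bool → ℕ → ℕ → Bool),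
      (IsEx fun x _ => N x) ∧ (IsEx fun x _ => k x) ∧ (∀ x, 2 ≤ k x) ∧
      (∀ x a b, adj x a b = adj x b a) ∧ (∀ x a, adj x a a = false) ∧
      (IsB fun x ρ => ρ 20 < N x ∧ ρ 21 < N x ∧ adj x (ρ 20) (ρ 21) = true) ∧
      ∀ x, x ∈ L ↔ HasClique (N x) (adj x) (k x) := by
  obtain ⟨M, q₀, k0, kf, wf, c0, c1, cs, P, T, hq, hk0, hkf, hform⟩ := np_form hL
  let pn : List Bool → ℕ := fun x => P.eval x.length
  let tt : List Bool → ℕ := fun x => T.eval x.length
  let H : List Bool → ℕ := fun x => x.length + pn x + tt x + 3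
  let X : List Bool → ℕ := fun x => (tt x + 1) * M.κ * H x
  let ini : List Bool → ℕ → ℕ → ℕ → Prop := fun x => iniP k0 c0 c1 cs x (pn x)
  let adj : List Bool → ℕ → ℕ → Bool := fun x => adjV M q₀ (tt x) (H x) kf wf (ini x)
  have epn : IsEx fun x _ => pn x := isEx_poly P isEx_len
  have ett : IsEx fun x _ => tt x := isEx_poly T isEx_len
  have eH : IsEx fun x _ => H x := ((isEx_len.add epn).add ett).add (isEx_const 3)
  have eX : IsEx fun x _ => X x := ((ett.add (isEx_const 1)).mul (isEx_const _)).mul eH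
  have eN : IsEx fun x _ => X x * M.vd := eX.mul (isEx_const _)
  have hκ : 0 < M.κ := by omega
  have hs : 0 < M.s := by omega
  have hvd : 0 < M.vd := by unfold NM.vd; positivity
  have hH : ∀ x, 0 < H x := fun x => by simp only [H]; omega
  have hX3 : ∀ x, 3 ≤ X x := by
    intro x
    have h1 : 1 * 1 * H x ≤ (tt x + 1) * M.κ * H x :=
      Nat.mul_le_mul_right _ (Nat.mul_le_mul (by omega) hκ)
    have h2 : 3 ≤ H x := by simp only [H]; omega
    simp only [X]; omega
  refine ⟨fun x => X x * M.vd, X, adj, eN, eX, fun x => by have := hX3 x; omega,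
    fun x a b => adjV_symm a b, fun x a => adjV_irrefl a, ?_, ?_⟩
  · have v : ∀ n, IsEx fun _ ρ => ρ n := isEx_var
    have hidx : IsB fun x ρ => (ρ 1 * M.κ + ρ 2) * H x + ρ 3 < X x :=
      (((((v 1).mul (isEx_const _)).add (v 2)).mul eH).add (v 3)).lt eX
    have hidx' : IsB fun x ρ => (ρ 6 * M.κ + ρ 7) * H x + ρ 8 < X x :=
      (((((v 6).mul (isEx_const _)).add (v 7)).mul eH).add (v 8)).lt eX
    have hadj := isB_adjC M q₀ kf wf k0 c0 c1 cs (v 1) (v 2) (v 3) (v 4) (v 5) (v 6) (v 7) (v 8)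
      (v 9) (v 10) ett epn
    have hp1 : IsB fun x ρ => encV M (H x) (ρ 1) (ρ 2) (ρ 3) (ρ 4) (ρ 5) = ρ 20 :=
      (isEx_encV M eH (v 1) (v 2) (v 3) (v 4) (v 5)).eq (v 20)
    have hp2 : IsB fun x ρ => encV M (H x) (ρ 6) (ρ 7) (ρ 8) (ρ 9) (ρ 10) = ρ 21 :=
      (isEx_encV M eH (v 6) (v 7) (v 8) (v 9) (v 10)).eq (v 21)
    have hall := (hidx.and (hidx'.and (hadj.and (hp1.and hp2))))
    have h10 := IsB.exists_lt 10 (isEx_const (2 * M.g + 2)) hall
    have h9 := IsB.exists_lt 9 (isEx_const M.s) h10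
    have h8 := IsB.exists_lt 8 eH h9
    have h7 := IsB.exists_lt 7 (isEx_const M.κ) h8
    have h6 := IsB.exists_lt 6 eX h7
    have h5 := IsB.exists_lt 5 (isEx_const (2 * M.g + 2)) h6
    have h4 := IsB.exists_lt 4 (isEx_const M.s) h5
    have h3 := IsB.exists_lt 3 eH h4
    have h2 := IsB.exists_lt 2 (isEx_const M.κ) h3
    have h1 := IsB.exists_lt 1 eX h2
    refine h1.congr fun x ρ => ?_
    simp only [Function.update_self, ne_eq, not_false_eq_true, Function.update_of_ne,
      Nat.reduceEqDiff, OfNat.ofNat_ne_one, OfNat.one_ne_ofNat]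
    have dec : ∀ a, a < X x * M.vd → tOf M (H x) a < X x ∧ kOf M (H x) a < M.κ ∧
        iOf M (H x) a < H x ∧ qOf M a < M.s ∧ wOf M a < 2 * M.g + 2 ∧
        (tOf M (H x) a * M.κ + kOf M (H x) a) * H x + iOf M (H x) a < X x := by
      intro a ha
      have h1 : a / M.vd < X x := by rwa [Nat.div_lt_iff_lt_mul hvd]
      have h2 : kOf M (H x) a < M.κ := Nat.mod_lt _ hκ
      have h3 : iOf M (H x) a < H x := Nat.mod_lt _ (hH x)
      refine ⟨?_, h2, h3, ?_, ?_, ?_⟩
      · exact lt_of_le_of_lt ((Nat.div_le_self _ _).trans (Nat.div_le_self _ _)) h1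
      · unfold qOf
        rw [Nat.div_lt_iff_lt_mul (by omega)]
        exact Nat.mod_lt _ hvd
      · exact Nat.mod_lt _ (by omega)
      · rw [idx_decode]; exact h1
    constructor
    · rintro ⟨t, -, k, hk, i, hi, q, hq, w, hw, t', -, k', hk', i', hi', q', hq', w', hw', h1, h2,
        ⟨-, h3⟩, h4, h5⟩
      have enc : ∀ t k i q w, q < M.s → w < 2 * M.g + 2 → (t * M.κ + k) * H x + i < X x →
          encV M (H x) t k i q w < X x * M.vd := by
        intro t k i q w hq hw h
        rw [← Nat.div_lt_iff_lt_mul hvd, encV_div hq hw]; exact h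
      refine ⟨h4 ▸ enc t k i q w hq hw h1, h5 ▸ enc t' k' i' q' w' hq' hw' h2, ?_⟩
      rw [← h4, ← h5]
      change adjV M q₀ (tt x) (H x) kf wf (ini x) _ _ = true
      unfold adjV
      rw [tOf_encV hk hi hq hw, kOf_encV hk hi hq hw, iOf_encV hi hq hw, qOf_encV hq hw,
        wOf_encV hq hw, tOf_encV hk' hi' hq' hw', kOf_encV hk' hi' hq' hw', iOf_encV hi' hq' hw',
        qOf_encV hq' hw', wOf_encV hq' hw']
      exact h3
    · rintro ⟨ha, hb, hab⟩
      obtain ⟨a1, a2, a3, a4, a5, a6⟩ := dec _ ha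
      obtain ⟨b1, b2, b3, b4, b5, b6⟩ := dec _ hb
      exact ⟨_, a1, _, a2, _, a3, _, a4, _, a5, _, b1, _, b2, _, b3, _, b4, _, b5, a6, b6,
        ⟨⟨⟨a2, a4, a5⟩, b2, b4, b5⟩, hab⟩, encV_decode _, encV_decode _⟩
  · intro x
    rw [hform x (tt x) (H x) le_rfl (by simp only [H, pn]; omega)]
    refine (clique_iff_run (h0 := x.length + pn x + 1) hq hkf (by simp only [H]; omega)
      le_rfl ?_).symm
    intro k i w hk hini hi
    have hpn : pn x = P.eval x.length := rfl
    by_cases hkk : k = k0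
    · exact (hini.2 hkk).2.2.2 (by omega)
    · have := (hini.1 hkk).2 (by omega)
      omega

end Pool.Agent.H68.NPClique
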