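import Pool.Agent.H68.RBDefs

/-!
# The reduction from the clique problem: combinatorics

The base vertices are the pairs `(i, j)` with `i, j < N`, written as `i * N + j`, the numbers
`N * N + i` with `i < N`, and two vertices `s = N * N + N` and `t = N * N + N + 1`.
Every base vertex `x` is replaced by the vertices `x * M + c` with `c < M`.
-/

namespace Pool.Agent.H68.RB

/-- There is a bundle of `M` red arcs from `x` to `y`. -/
def Heavy (N x y : ℕ) : Prop :=
  (∃ i, i < N ∧ ∃ j, j < N ∧ x = i * N + j ∧ (y = N * N + i ∨ y = N * N + j)) ∨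
    (y = N * N + N ∧ x ≠ N * N + N) ∨ (x = N * N + N + 1 ∧ y ≠ N * N + N + 1)

/-- There is a single red arc from `x` to `y`. -/
def Light (N x y : ℕ) : Prop := (∃ i, i < N ∧ x = N * N + i) ∧ y = N * N + N + 1

/-- There is a single blue arc from `x` to `y`. -/
def Blue (N : ℕ) (adj : ℕ → ℕ → Bool) (x y : ℕ) : Prop :=
  x = N * N + N ∧ ∃ i, i < N ∧ ∃ j, j < N ∧ (i < j ∧ adj i j = true) ∧ y = i * N + j

/-- The red arcs. -/
def RedArc (N x c y d : ℕ) : Prop :=
  (x = y ∧ c ≠ d) ∨ (Heavy N x y ∧ c = d) ∨ (Light N x y ∧ c = 0 ∧ d = 0)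

/-- The blue arcs. -/
def BlueArc (N k : ℕ) (adj : ℕ → ℕ → Bool) (x c y d : ℕ) : Prop :=
  (Blue N adj x y ∧ c = 0 ∧ d = 0) ∨
    (x = N * N + N ∧ y = N * N + N + 1 ∧ c = 0 ∧ 2 * d < k * (k - 1))

open Classical in
/-- The coloured arcs. -/
noncomputable def arcN (N k : ℕ) (adj : ℕ → ℕ → Bool) (x c y d : ℕ) : Option Bool :=
  if RedArc N x c y d then some true else if BlueArc N k adj x c y d then some false else none

/-- number of base vertices -/
def baseN (N : ℕ) : ℕ := N * N + N + 2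

/-- number of copies -/
def copies (k : ℕ) : ℕ := k * k + 2

/-- The number of edges of the graph. -/
noncomputable def edgeCount (N : ℕ) (adj : ℕ → ℕ → Bool) : ℕ :=
  ((Finset.range N ×ˢ Finset.range N).filter fun p => p.1 < p.2 ∧ adj p.1 p.2 = true).card

theorem not_heavy_self (N x : ℕ) : ¬ Heavy N x x := by
  rintro (⟨i, hi, j, hj, h1, h2⟩ | ⟨h1, h2⟩ | ⟨h1, h2⟩)
  · have h3 : i * N + j < N * N := by
      calc i * N + j < i * N + N := by omega
        _ = (i + 1) * N := by ring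
        _ ≤ N * N := Nat.mul_le_mul_right _ hi
    omega
  · exact h2 h1
  · exact h2 h1

theorem not_light_self (N x : ℕ) : ¬ Light N x x := by
  rintro ⟨⟨i, hi, h1⟩, h2⟩
  omega

theorem pair_lt {N i j : ℕ} (hi : i < N) (hj : j < N) : i * N + j < N * N := by
  calc i * N + j < i * N + N := by omega
    _ = (i + 1) * N := by ring
    _ ≤ N * N := Nat.mul_le_mul_right _ hi

theorem arcN_self (N k : ℕ) (adj : ℕ → ℕ → Bool) (x c : ℕ) : arcN N k adj x c x c = none := by
  have h1 : ¬ RedArc N x c x c := by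
    rintro (⟨_, h⟩ | ⟨h, _⟩ | ⟨h, _⟩)
    · exact h rfl
    · exact not_heavy_self N x h
    · exact not_light_self N x h
  have h2 : ¬ BlueArc N k adj x c x c := by
    rintro (⟨⟨h1, i, hi, j, hj, _, h2⟩, _⟩ | ⟨h1, h2, _⟩)
    · have := pair_lt hi hj
      omega
    · omega
  rw [arcN, if_neg h1, if_neg h2]

theorem blue_not_red {N k : ℕ} {adj : ℕ → ℕ → Bool} {x c y d : ℕ}
    (h : BlueArc N k adj x c y d) : ¬ RedArc N x c y d := by
  have hx : x = N * N + N := by
    rcases h with ⟨⟨h, _⟩, _⟩ | ⟨h, _⟩ <;> exact h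
  have hy : y ≠ N * N + N := by
    rcases h with ⟨⟨_, i, hi, j, hj, _, h⟩, _⟩ | ⟨_, h, _⟩
    · have := pair_lt hi hj
      omega
    · omega
  rintro (⟨h1, _⟩ | ⟨⟨i, hi, j, hj, h1, _⟩ | ⟨h1, _⟩ | ⟨h1, _⟩, _⟩ | ⟨⟨⟨i, hi, h1⟩, _⟩, _⟩)
  · omega
  · have := pair_lt hi hj
    omega
  · omega
  · omega
  · omega

theorem arcN_red {N k : ℕ} {adj : ℕ → ℕ → Bool} {x c y d : ℕ} :
    arcN N k adj x c y d = some true ↔ RedArc N x c y d := by
  unfold arcN
  split_ifs with h1 h2 <;> simp [h1]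

theorem arcN_blue {N k : ℕ} {adj : ℕ → ℕ → Bool} {x c y d : ℕ} :
    arcN N k adj x c y d = some false ↔ BlueArc N k adj x c y d := by
  unfold arcN
  split_ifs with h1 h2
  · simp only [Option.some.injEq, Bool.true_eq_false, false_iff]
    exact fun h => blue_not_red h h1
  · simp [h2]
  · simp [h2]

end Pool.Agent.H68.RB
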