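import Pool.Agent.H68.RBComb
import Pool.Agent.H75.CapReduction

/-!
# The reduction from the clique problem: correctness
-/

namespace Pool.Agent.H68.RB

open Finset Pool.Agent.H75

theorem pair_inj {N i j i' j' : ℕ} (hj : j < N) (hj' : j' < N) (h : i * N + j = i' * N + j') :
    i = i' ∧ j = j' := by
  have h1 : (i * N + j) / N = i := by
    rw [Nat.mul_comm, Nat.mul_add_div (by omega), Nat.div_eq_of_lt hj, Nat.add_zero]
  have h2 : (i' * N + j') / N = i' := by
    rw [Nat.mul_comm, Nat.mul_add_div (by omega), Nat.div_eq_of_lt hj', Nat.add_zero]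
  have h3 : i = i' := by rw [← h1, ← h2, h]
  subst h3
  exact ⟨rfl, by omega⟩

/-- twice the number of ordered pairs -/
theorem two_mul_card_lt (S : Finset ℕ) :
    2 * ((S ×ˢ S).filter fun p => p.1 < p.2).card = S.card * S.card - S.card := by
  have h1 : ((S ×ˢ S).filter fun p => p.1 < p.2).card
      = ((S ×ˢ S).filter fun p => p.2 < p.1).card := by
    apply Finset.card_nbij' (fun p => (p.2, p.1)) (fun p => (p.2, p.1))
    · intro p hp
      simp only [coe_filter, mem_product, Set.mem_ofPred_eq] at hp ⊢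
      exact ⟨⟨hp.1.2, hp.1.1⟩, hp.2⟩
    · intro p hp
      simp only [coe_filter, mem_product, Set.mem_ofPred_eq] at hp ⊢
      exact ⟨⟨hp.1.2, hp.1.1⟩, hp.2⟩
    · intro p _; rfl
    · intro p _; rfl
  have h2 : S.offDiag = ((S ×ˢ S).filter fun p => p.1 < p.2) ∪
      ((S ×ˢ S).filter fun p => p.2 < p.1) := by
    ext p
    simp only [mem_offDiag, mem_union, mem_filter, mem_product]
    constructor
    · rintro ⟨h1, h2, h3⟩
      rcases lt_or_gt_of_ne h3 with h | h
      · exact Or.inl ⟨⟨h1, h2⟩, h⟩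
      · exact Or.inr ⟨⟨h1, h2⟩, h⟩
    · rintro (⟨⟨h1, h2⟩, h3⟩ | ⟨⟨h1, h2⟩, h3⟩)
      · exact ⟨h1, h2, by omega⟩
      · exact ⟨h1, h2, by omega⟩
  have h3 : Disjoint ((S ×ˢ S).filter fun p => p.1 < p.2)
      ((S ×ˢ S).filter fun p => p.2 < p.1) := by
    rw [Finset.disjoint_left]
    intro p hp hp'
    simp only [mem_filter] at hp hp'
    omega
  have h4 := Finset.offDiag_card S
  rw [h2, Finset.card_union_of_disjoint h3, ← h1] at h4
  omega

theorem card_penalty (k : ℕ) :
    2 * ((range (copies k)).filter fun d => 2 * d < k * (k - 1)).card = k * (k - 1) := by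
  have h1 : (range (copies k)).filter (fun d => 2 * d < k * (k - 1)) = range (k * (k - 1) / 2) := by
    ext d
    simp only [mem_filter, mem_range, copies]
    have h2 : k * (k - 1) ≤ k * k := Nat.mul_le_mul_left _ (Nat.sub_le _ _)
    have h3 : k * (k - 1) % 2 = 0 := by
      rw [← Nat.even_iff]
      exact Nat.even_mul_pred_self k
    omega
  rw [h1, card_range]
  have h3 : k * (k - 1) % 2 = 0 := by
    rw [← Nat.even_iff]
    exact Nat.even_mul_pred_self k
  omega

/-- The vertices. -/
def VV (N k : ℕ) : Finset (ℕ × ℕ) := range (baseN N) ×ˢ range (copies k)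

open Classical in
/-- The arcs of colour `c` leaving `X`. -/
noncomputable def outN (N k : ℕ) (adj : ℕ → ℕ → Bool) (X : ℕ × ℕ → Prop) (c : Bool) :
    Finset ((ℕ × ℕ) × (ℕ × ℕ)) :=
  (VV N k ×ˢ VV N k).filter fun p => X p.1 ∧ ¬ X p.2 ∧
    arcN N k adj p.1.1 p.1.2 p.2.1 p.2.2 = some c

variable {N k : ℕ} {adj : ℕ → ℕ → Bool}

theorem mem_outN_red {X : ℕ × ℕ → Prop} {x c y d : ℕ} :
    ((x, c), (y, d)) ∈ outN N k adj X true ↔ (x < baseN N ∧ c < copies k) ∧
      (y < baseN N ∧ d < copies k) ∧ X (x, c) ∧ ¬ X (y, d) ∧ RedArc N x c y d := by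
  classical
  simp only [outN, VV, mem_filter, mem_product, mem_range, arcN_red, and_assoc]

theorem mem_outN_blue {X : ℕ × ℕ → Prop} {x c y d : ℕ} :
    ((x, c), (y, d)) ∈ outN N k adj X false ↔ (x < baseN N ∧ c < copies k) ∧
      (y < baseN N ∧ d < copies k) ∧ X (x, c) ∧ ¬ X (y, d) ∧ BlueArc N k adj x c y d := by
  classical
  simp only [outN, VV, mem_filter, mem_product, mem_range, arcN_blue, and_assoc]

/-- A cheap cut gives a clique. -/
theorem clique_of_cut (hk : 2 ≤ k) (hsymm : ∀ a b, adj a b = adj b a) {X : ℕ × ℕ → Prop}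
    (hX1 : ∃ v ∈ VV N k, X v) (hX2 : ∃ v ∈ VV N k, ¬ X v)
    (hred : (outN N k adj X true).card ≤ k)
    (hblue : (outN N k adj X false).card ≤ edgeCount N adj) : HasClique N adj k := by
  classical
  have hM : copies k = k * k + 2 := rfl
  have hkk : k ≤ k * k := Nat.le_mul_self k
  have hM0 : 0 < copies k := by omega
  -- groups are not split
  have step1 : ∀ x, x < baseN N → ∀ c, c < copies k → ∀ d, d < copies k → X (x, c) → X (x, d) := by
    intro x hx c₀ hc₀ d₀ hd₀ h1
    by_contra h2
    have hcd : c₀ ≠ d₀ := by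
      rintro rfl
      exact h2 h1
    have h3 : ((range (copies k)).erase d₀).card ≤ (outN N k adj X true).card := by
      apply Finset.card_le_card_of_injOn
        (fun c => if X (x, c) then ((x, c), (x, d₀)) else ((x, c₀), (x, c)))
      · intro c hc
        have hc' := Finset.mem_erase.1 (Finset.mem_coe.1 hc)
        have hc2 := mem_range.1 hc'.2
        by_cases hXc : X (x, c)
        · simp only [hXc, if_true]
          exact Finset.mem_coe.2 (mem_outN_red.2 ⟨⟨hx, hc2⟩, ⟨hx, hd₀⟩, hXc, h2, Or.inl ⟨rfl, hc'.1⟩⟩)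
        · simp only [hXc, if_false]
          refine Finset.mem_coe.2 (mem_outN_red.2 ⟨⟨hx, hc₀⟩, ⟨hx, hc2⟩, h1, hXc, Or.inl ⟨rfl, ?_⟩⟩)
          rintro rfl
          exact hXc h1
      · intro c hc c' hc' h
        have hc1 := (Finset.mem_erase.1 (Finset.mem_coe.1 hc)).1
        have hc1' := (Finset.mem_erase.1 (Finset.mem_coe.1 hc')).1
        by_cases hXc : X (x, c) <;> by_cases hXc' : X (x, c')
        · simp only [hXc, hXc', if_true, Prod.mk.injEq, true_and, and_true] at h
          exact h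
        · simp only [hXc, hXc', if_true, if_false, Prod.mk.injEq, true_and] at h
          exact absurd h.2.symm hc1'
        · simp only [hXc, hXc', if_true, if_false, Prod.mk.injEq, true_and] at h
          exact absurd h.2 hc1
        · simp only [hXc, hXc', if_false, Prod.mk.injEq, true_and] at h
          exact h
    rw [Finset.card_erase_of_mem (mem_range.2 hd₀), card_range] at h3
    omega
  -- heavy arcs are not cut
  have step2 : ∀ x, x < baseN N → ∀ y, y < baseN N → Heavy N x y → X (x, 0) → X (y, 0) := by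
    intro x hx y hy hxy h1
    by_contra h2
    have h3 : (range (copies k)).card ≤ (outN N k adj X true).card := by
      apply Finset.card_le_card_of_injOn (fun c => ((x, c), (y, c)))
      · intro c hc
        have hc2 := mem_range.1 (Finset.mem_coe.1 hc)
        exact Finset.mem_coe.2 (mem_outN_red.2 ⟨⟨hx, hc2⟩, ⟨hy, hc2⟩, step1 x hx 0 hM0 c hc2 h1,
          fun h => h2 (step1 y hy c hc2 0 hM0 h), Or.inr (Or.inl ⟨hxy, rfl⟩)⟩)
      · intro c _ c' _ h
        simp only [Prod.mk.injEq, true_and] at h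
        exact h.1
    rw [card_range] at h3
    omega
  have hsB : N * N + N < baseN N := by simp only [baseN]; omega
  have htB : N * N + N + 1 < baseN N := by simp only [baseN]; omega
  have hvB : ∀ i, i < N → N * N + i < baseN N := fun i hi => by simp only [baseN]; omega
  have heB : ∀ i, i < N → ∀ j, j < N → i * N + j < baseN N := fun i hi j hj => by
    have := pair_lt hi hj
    simp only [baseN]; omega
  have hs : X (N * N + N, 0) := by
    obtain ⟨⟨x, c⟩, hv, hXv⟩ := hX1
    simp only [VV, mem_product, mem_range] at hv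
    have h1 := step1 x hv.1 c hv.2 0 hM0 hXv
    by_cases hx : x = N * N + N
    · rw [← hx]; exact h1
    · exact step2 x hv.1 _ hsB (Or.inr (Or.inl ⟨rfl, hx⟩)) h1
  have ht : ¬ X (N * N + N + 1, 0) := by
    intro h
    obtain ⟨⟨y, d⟩, hv, hXv⟩ := hX2
    simp only [VV, mem_product, mem_range] at hv
    apply hXv
    apply step1 y hv.1 0 hM0 d hv.2
    by_cases hy : y = N * N + N + 1
    · rw [hy]; exact h
    · exact step2 _ htB y hv.1 (Or.inr (Or.inr ⟨rfl, hy⟩)) h
  -- the set of vertices
  set S := (range N).filter fun i => X (N * N + i, 0) with hSdef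
  have hS : S.card ≤ k := by
    refine le_trans ?_ hred
    apply Finset.card_le_card_of_injOn (fun i => ((N * N + i, 0), (N * N + N + 1, 0)))
    · intro i hi
      have hi' := Finset.mem_filter.1 (Finset.mem_coe.1 hi)
      have hi2 := mem_range.1 hi'.1
      exact Finset.mem_coe.2 (mem_outN_red.2 ⟨⟨hvB i hi2, hM0⟩, ⟨htB, hM0⟩, hi'.2, ht,
        Or.inr (Or.inr ⟨⟨⟨i, hi2, rfl⟩, rfl⟩, rfl, rfl⟩)⟩)
    · intro i _ i' _ h
      simp only [Prod.mk.injEq, and_true] at h
      omega
  -- the edges inside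
  set Ein := ((range N ×ˢ range N).filter fun p => p.1 < p.2 ∧ adj p.1 p.2 = true).filter
    fun p => X (p.1 * N + p.2, 0) with hEin
  set Eout := ((range N ×ˢ range N).filter fun p => p.1 < p.2 ∧ adj p.1 p.2 = true).filter
    fun p => ¬ X (p.1 * N + p.2, 0) with hEout
  have hsum : Ein.card + Eout.card = edgeCount N adj := Finset.card_filter_add_card_filter_not _
  set D := (range (copies k)).filter fun d => 2 * d < k * (k - 1) with hD
  have hDcard : 2 * D.card = k * (k - 1) := card_penalty k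
  have hout : Eout.card + D.card ≤ (outN N k adj X false).card := by
    have h1 : (Eout.image fun p => (((N * N + N, 0), (p.1 * N + p.2, 0)) : (ℕ × ℕ) × (ℕ × ℕ))).card
        = Eout.card := by
      apply Finset.card_image_of_injOn
      intro p hp q hq h
      simp only [Prod.mk.injEq, true_and, and_true] at h
      have hp' := Finset.mem_filter.1 (Finset.mem_filter.1 (Finset.mem_coe.1 hp)).1
      have hq' := Finset.mem_filter.1 (Finset.mem_filter.1 (Finset.mem_coe.1 hq)).1
      simp only [mem_product, mem_range] at hp' hq'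
      obtain ⟨h1, h2⟩ := pair_inj hp'.1.2 hq'.1.2 h
      exact Prod.ext h1 h2
    have h2 : (D.image fun d => (((N * N + N, 0), (N * N + N + 1, d)) : (ℕ × ℕ) × (ℕ × ℕ))).card
        = D.card := by
      apply Finset.card_image_of_injOn
      intro d _ d' _ h
      simp only [Prod.mk.injEq, true_and] at h
      exact h
    rw [← h1, ← h2, ← Finset.card_union_of_disjoint]
    · apply Finset.card_le_card
      intro p hp
      rcases Finset.mem_union.1 hp with hp | hp
      · obtain ⟨⟨i, j⟩, hq, rfl⟩ := Finset.mem_image.1 hp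
        have hq1 := Finset.mem_filter.1 hq
        have hq2 := Finset.mem_filter.1 hq1.1
        simp only [mem_product, mem_range] at hq2
        exact mem_outN_blue.2 ⟨⟨hsB, hM0⟩, ⟨heB i hq2.1.1 j hq2.1.2, hM0⟩, hs, hq1.2,
          Or.inl ⟨⟨rfl, i, hq2.1.1, j, hq2.1.2, hq2.2, rfl⟩, rfl, rfl⟩⟩
      · obtain ⟨d, hd, rfl⟩ := Finset.mem_image.1 hp
        have hd1 := Finset.mem_filter.1 hd
        have hd2 := mem_range.1 hd1.1
        exact mem_outN_blue.2 ⟨⟨hsB, hM0⟩, ⟨htB, hd2⟩, hs,
          fun h => ht (step1 _ htB d hd2 0 hM0 h), Or.inr ⟨rfl, rfl, rfl, hd1.2⟩⟩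
    · rw [Finset.disjoint_left]
      intro p hp hp'
      obtain ⟨⟨i, j⟩, hq, rfl⟩ := Finset.mem_image.1 hp
      obtain ⟨d, hd, h⟩ := Finset.mem_image.1 hp'
      have hq2 := Finset.mem_filter.1 (Finset.mem_filter.1 hq).1
      simp only [mem_product, mem_range] at hq2
      have := pair_lt hq2.1.1 hq2.1.2
      simp only [Prod.mk.injEq, true_and] at h
      omega
  have hDE : D.card ≤ Ein.card := by omega
  -- all edges inside have both ends in `S`
  have hsub : Ein ⊆ (S ×ˢ S).filter fun p => p.1 < p.2 := by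
    rintro ⟨i, j⟩ hp
    have hp1 := Finset.mem_filter.1 hp
    have hp2 := Finset.mem_filter.1 hp1.1
    simp only [mem_product, mem_range] at hp2
    have hi := hp2.1.1
    have hj := hp2.1.2
    have h1 : X (N * N + i, 0) := step2 _ (heB i hi j hj) _ (hvB i hi)
      (Or.inl ⟨i, hi, j, hj, rfl, Or.inl rfl⟩) hp1.2
    have h2 : X (N * N + j, 0) := step2 _ (heB i hi j hj) _ (hvB j hj)
      (Or.inl ⟨i, hi, j, hj, rfl, Or.inr rfl⟩) hp1.2
    simp only [mem_filter, mem_product, hSdef, mem_range]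
    exact ⟨⟨⟨hi, h1⟩, hj, h2⟩, hp2.2.1⟩
  have hcard := Finset.card_le_card hsub
  have htwo := two_mul_card_lt S
  have h5 : k * (k - 1) ≤ S.card * S.card - S.card := by omega
  have hSk : S.card = k := by
    by_contra hne
    have h6 : S.card ≤ k - 1 := by omega
    obtain ⟨m, rfl⟩ : ∃ m, k = m + 2 := ⟨k - 2, by omega⟩
    have h7 : S.card * S.card - S.card = S.card * (S.card - 1) := by
      rw [Nat.mul_sub, Nat.mul_one]
    have h8 : S.card * (S.card - 1) ≤ (m + 1) * m :=
      Nat.mul_le_mul (by omega) (by omega)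
    have h9 : (m + 2) * (m + 2 - 1) = (m + 1) * m + 2 * (m + 1) := by
      have : m + 2 - 1 = m + 1 := by omega
      rw [this]; ring
    omega
  have heq : Ein = (S ×ˢ S).filter fun p => p.1 < p.2 := by
    apply Finset.eq_of_subset_of_card_le hsub
    rw [hSk] at htwo
    have : k * k - k = k * (k - 1) := by rw [Nat.mul_sub, Nat.mul_one]
    omega
  have hadj : ∀ i ∈ S, ∀ j ∈ S, i < j → adj i j = true := by
    intro i hi j hj hij
    have h1 : (i, j) ∈ Ein := by
      rw [heq, mem_filter, mem_product]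
      exact ⟨⟨hi, hj⟩, hij⟩
    exact (Finset.mem_filter.1 (Finset.mem_filter.1 h1).1).2.2
  refine ⟨S, hSk, fun i hi => mem_range.1 (Finset.mem_filter.1 hi).1, fun i hi j hj hij => ?_⟩
  rcases lt_or_gt_of_ne hij with h | h
  · exact hadj i hi j hj h
  · rw [hsymm]
    exact hadj j hj i hi h

/-- A clique gives a cheap cut. -/
theorem cut_of_clique (hclique : HasClique N adj k) :
    ∃ X : ℕ × ℕ → Prop, (∃ v ∈ VV N k, X v) ∧ (∃ v ∈ VV N k, ¬ X v) ∧
      (outN N k adj X true).card ≤ k ∧ (outN N k adj X false).card ≤ edgeCount N adj := by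
  classical
  obtain ⟨s, hs, hsN, hadj⟩ := hclique
  have hM : copies k = k * k + 2 := rfl
  have hM0 : 0 < copies k := by omega
  let X : ℕ × ℕ → Prop := fun v => v.1 = N * N + N ∨ (∃ i ∈ s, v.1 = N * N + i) ∨
    ∃ i ∈ s, ∃ j ∈ s, i < j ∧ v.1 = i * N + j
  have hsB : N * N + N < baseN N := by simp only [baseN]; omega
  have htB : N * N + N + 1 < baseN N := by simp only [baseN]; omega
  have hXt : ∀ c, ¬ X (N * N + N + 1, c) := by
    rintro c (h | ⟨i, hi, h⟩ | ⟨i, hi, j, hj, _, h⟩)
    · simp only at h; omega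
    · have := hsN i hi
      simp only at h; omega
    · have := pair_lt (hsN i hi) (hsN j hj)
      simp only at h; omega
  refine ⟨X, ⟨(N * N + N, 0), ?_, Or.inl rfl⟩, ⟨(N * N + N + 1, 0), ?_, hXt 0⟩, ?_, ?_⟩
  · simp only [VV, mem_product, mem_range]; exact ⟨hsB, hM0⟩
  · simp only [VV, mem_product, mem_range]; exact ⟨htB, hM0⟩
  · have hsub : outN N k adj X true ⊆ s.image fun i => ((N * N + i, 0), (N * N + N + 1, 0)) := by
      rintro ⟨⟨x, c⟩, ⟨y, d⟩⟩ hp
      obtain ⟨_, _, hXx, hXy, harc⟩ := mem_outN_red.1 hp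
      rcases harc with ⟨rfl, _⟩ | ⟨hheavy, _⟩ | ⟨⟨⟨i, hi, rfl⟩, rfl⟩, rfl, rfl⟩
      · exact absurd hXx hXy
      · exfalso
        rcases hheavy with ⟨i, hi, j, hj, rfl, hy⟩ | ⟨rfl, _⟩ | ⟨rfl, _⟩
        · have hlt := pair_lt hi hj
          rcases hXx with h | ⟨i', hi', h⟩ | ⟨i', hi', j', hj', _, h⟩
          · simp only at h; omega
          · simp only at h; omega
          · obtain ⟨rfl, rfl⟩ := pair_inj hj (hsN j' hj') h
            rcases hy with rfl | rfl
            · exact hXy (Or.inr (Or.inl ⟨i, hi', rfl⟩))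
            · exact hXy (Or.inr (Or.inl ⟨j, hj', rfl⟩))
        · exact hXy (Or.inl rfl)
        · exact hXt _ hXx
      · rcases hXx with h | ⟨i', hi', h⟩ | ⟨i', hi', j', hj', _, h⟩
        · simp only at h; omega
        · simp only at h
          have : i = i' := by omega
          subst this
          exact Finset.mem_image.2 ⟨i, hi', rfl⟩
        · have := pair_lt (hsN i' hi') (hsN j' hj')
          simp only at h; omega
    exact (Finset.card_le_card hsub).trans (Finset.card_image_le.trans hs.le)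
  · set D := (range (copies k)).filter fun d => 2 * d < k * (k - 1) with hD
    have hDcard : 2 * D.card = k * (k - 1) := card_penalty k
    set Ein := ((range N ×ˢ range N).filter fun p => p.1 < p.2 ∧ adj p.1 p.2 = true).filter
      fun p => p.1 ∈ s ∧ p.2 ∈ s with hEin
    set Eout := ((range N ×ˢ range N).filter fun p => p.1 < p.2 ∧ adj p.1 p.2 = true).filter
      fun p => ¬ (p.1 ∈ s ∧ p.2 ∈ s) with hEout
    have hsum : Ein.card + Eout.card = edgeCount N adj := Finset.card_filter_add_card_filter_not _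
    have hEs : (s ×ˢ s).filter (fun p => p.1 < p.2) ⊆ Ein := by
      rintro ⟨i, j⟩ hp
      simp only [mem_filter, mem_product] at hp
      simp only [hEin, mem_filter, mem_product, mem_range]
      exact ⟨⟨⟨hsN i hp.1.1, hsN j hp.1.2⟩, hp.2, hadj i hp.1.1 j hp.1.2 (by omega)⟩, hp.1⟩
    have h1 := Finset.card_le_card hEs
    have h2 := two_mul_card_lt s
    rw [hs] at h2
    have h3 : k * k - k = k * (k - 1) := by rw [Nat.mul_sub, Nat.mul_one]
    have hDE : D.card ≤ Ein.card := by omega
    have hsub : outN N k adj X false ⊆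
        (Eout.image fun p => (((N * N + N, 0), (p.1 * N + p.2, 0)) : (ℕ × ℕ) × (ℕ × ℕ))) ∪
        (D.image fun d => (((N * N + N, 0), (N * N + N + 1, d)) : (ℕ × ℕ) × (ℕ × ℕ))) := by
      rintro ⟨⟨x, c⟩, ⟨y, d⟩⟩ hp
      obtain ⟨_, hy, hXx, hXy, harc⟩ := mem_outN_blue.1 hp
      rw [Finset.mem_union]
      rcases harc with ⟨⟨rfl, i, hi, j, hj, hij, rfl⟩, rfl, rfl⟩ | ⟨rfl, rfl, rfl, hd⟩
      · left
        refine Finset.mem_image.2 ⟨(i, j), ?_, rfl⟩
        simp only [hEout, mem_filter, mem_product, mem_range]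
        refine ⟨⟨⟨hi, hj⟩, hij⟩, fun h => hXy (Or.inr (Or.inr ⟨i, h.1, j, h.2, hij.1, rfl⟩))⟩
      · right
        refine Finset.mem_image.2 ⟨d, ?_, rfl⟩
        simp only [hD, mem_filter, mem_range]
        exact ⟨hy.2, hd⟩
    have h4 := (Finset.card_le_card hsub).trans (Finset.card_union_le _ _)
    have h5 : (Eout.image fun p => (((N * N + N, 0), (p.1 * N + p.2, 0)) :
      (ℕ × ℕ) × (ℕ × ℕ))).card ≤ Eout.card := Finset.card_image_le
    have h6 : (D.image fun d => (((N * N + N, 0), (N * N + N + 1, d)) :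
      (ℕ × ℕ) × (ℕ × ℕ))).card ≤ D.card := Finset.card_image_le
    omega

end Pool.Agent.H68.RB
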