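import Mathlib

/-!
# The directed red-blue cut problem
-/

namespace Pool.Agent.H68.RB

/-- An instance of the directed red-blue cut problem: a simple digraph on the vertex set `Fin n`
(no loops, no parallel arcs) whose arcs are coloured, and two numbers `r`, `b`. Here `arc u v` is
`none` if there is no arc from `u` to `v`, `some true` if there is a red arc from `u` to `v`, and
`some false` if there is a blue arc from `u` to `v`. -/
structure Inst where
  n : ℕ
  arc : Fin n → Fin n → Option Bool
  loopless : ∀ v, arc v v = none
  r : ℕ
  b : ℕ

/-- The number of arcs of colour `c` in the cut `δ⁺(X)`: they have their tail in `X` and their head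
outside `X`. -/
noncomputable def cutSize (I : Inst) (X : Set (Fin I.n)) (c : Bool) : ℕ :=
  {p : Fin I.n × Fin I.n | p.1 ∈ X ∧ p.2 ∉ X ∧ I.arc p.1 p.2 = some c}.ncard

/-- There is a nonempty proper vertex subset `X` such that `δ⁺(X)` contains at most `r` red arcs and
at most `b` blue arcs. -/
def HasCheapCut (I : Inst) : Prop :=
  ∃ X : Set (Fin I.n), X.Nonempty ∧ X ≠ Set.univ ∧
    cutSize I X true ≤ I.r ∧ cutSize I X false ≤ I.b

/-- The letters used to write instances: a separator `none` and the entries `some none`,
`some (some true)`, `some (some false)`. -/
abbrev Letter := Option (Option Bool)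

/-- The instance is written as `n` in unary, the matrix `arc` row by row, then `r` and `b` in unary;
each number and each row is followed by a separator. -/
def encInst (I : Inst) : List Letter :=
  (List.replicate I.n (some none) ++ [none]) ++
    ((List.finRange I.n).flatMap fun u => (List.finRange I.n).map (fun v => some (I.arc u v)) ++
      [none]) ++
    (List.replicate I.r (some none) ++ [none]) ++ (List.replicate I.b (some none) ++ [none])

end Pool.Agent.H68.RB
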