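import Pool.Agent.H68.RBInst
import Pool.Agent.H68.NPClique

/-!
# NP-hardness of the directed red-blue cut problem
-/

namespace Pool.Agent.H68.RB

open Finset Pool.Agent.H75 Turing

section arcs

variable {N k : List Bool → ℕ} {adj : List Bool → ℕ → ℕ → Bool}

/-- normal form for the variables -/
theorem upd_simp {ρ : ℕ → ℕ} {v w j : ℕ} (h : w ≠ v) : Function.update ρ v j w = ρ w :=
  Function.update_of_ne h _ _

theorem isB_heavy (hN : IsEx fun x _ => N x) : IsB fun x ρ => Heavy (N x) (ρ 30) (ρ 32) := by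
  have v : ∀ n, IsEx fun _ ρ => ρ n := isEx_var
  have hNN : IsEx fun x _ => N x * N x := hN.mul hN
  have h0 : IsB fun x ρ => ρ 30 = ρ 20 * N x + ρ 21 ∧
      (ρ 32 = N x * N x + ρ 20 ∨ ρ 32 = N x * N x + ρ 21) :=
    ((v 30).eq (((v 20).mul hN).add (v 21))).and
      (((v 32).eq (hNN.add (v 20))).or ((v 32).eq (hNN.add (v 21))))
  have h1 := IsB.exists_lt 20 hN (IsB.exists_lt 21 hN h0)
  have hs : IsEx fun x _ => N x * N x + N x := hNN.add hN
  have ht : IsEx fun x _ => N x * N x + N x + 1 := hs.add (isEx_const 1)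
  refine (h1.or ((((v 32).eq hs).and ((v 30).eq hs).not).or
    (((v 30).eq ht).and ((v 32).eq ht).not))).congr fun x ρ => ?_
  simp only [Function.update_self, ne_eq, not_false_eq_true, Function.update_of_ne,
    Nat.reduceEqDiff, Heavy]

theorem isB_light (hN : IsEx fun x _ => N x) : IsB fun x ρ => Light (N x) (ρ 30) (ρ 32) := by
  have v : ∀ n, IsEx fun _ ρ => ρ n := isEx_var
  have hNN : IsEx fun x _ => N x * N x := hN.mul hN
  have h0 : IsB fun x ρ => ρ 30 = N x * N x + ρ 20 := (v 30).eq (hNN.add (v 20))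
  have h1 := IsB.exists_lt 20 hN h0
  have ht : IsEx fun x _ => N x * N x + N x + 1 := (hNN.add hN).add (isEx_const 1)
  refine (h1.and ((v 32).eq ht)).congr fun x ρ => ?_
  simp only [Function.update_self, ne_eq, not_false_eq_true, Function.update_of_ne,
    Nat.reduceEqDiff, Light]

theorem isB_blue (hN : IsEx fun x _ => N x)
    (hadj : IsB fun x ρ => ρ 20 < N x ∧ ρ 21 < N x ∧ adj x (ρ 20) (ρ 21) = true) :
    IsB fun x ρ => Blue (N x) (adj x) (ρ 30) (ρ 32) := by
  have v : ∀ n, IsEx fun _ ρ => ρ n := isEx_var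
  have hNN : IsEx fun x _ => N x * N x := hN.mul hN
  have h0 : IsB fun x ρ => ρ 20 < ρ 21 ∧
      (ρ 20 < N x ∧ ρ 21 < N x ∧ adj x (ρ 20) (ρ 21) = true) ∧ ρ 32 = ρ 20 * N x + ρ 21 :=
    ((v 20).lt (v 21)).and (hadj.and ((v 32).eq (((v 20).mul hN).add (v 21))))
  have h1 := IsB.exists_lt 20 hN (IsB.exists_lt 21 hN h0)
  have hs : IsEx fun x _ => N x * N x + N x := hNN.add hN
  refine (((v 30).eq hs).and h1).congr fun x ρ => ?_
  simp only [Function.update_self, ne_eq, not_false_eq_true, Function.update_of_ne,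
    Nat.reduceEqDiff, Blue]
  refine and_congr_right fun _ => ?_
  constructor
  · rintro ⟨i, hi, j, hj, h1, ⟨_, _, h2⟩, h3⟩
    exact ⟨i, hi, j, hj, ⟨h1, h2⟩, h3⟩
  · rintro ⟨i, hi, j, hj, ⟨h1, h2⟩, h3⟩
    exact ⟨i, hi, j, hj, h1, ⟨hi, hj, h2⟩, h3⟩

theorem isB_red (hN : IsEx fun x _ => N x) :
    IsB fun x ρ => RedArc (N x) (ρ 30) (ρ 31) (ρ 32) (ρ 33) := by
  have v : ∀ n, IsEx fun _ ρ => ρ n := isEx_var
  have h1 : IsB fun _ ρ => ρ 30 = ρ 32 ∧ ρ 31 ≠ ρ 33 := ((v 30).eq (v 32)).and ((v 31).eq (v 33)).not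
  exact h1.or (((isB_heavy hN).and ((v 31).eq (v 33))).or
    ((isB_light hN).and (((v 31).eq (isEx_const 0)).and ((v 33).eq (isEx_const 0)))))

theorem isB_blueArc (hN : IsEx fun x _ => N x) (hk : IsEx fun x _ => k x)
    (hadj : IsB fun x ρ => ρ 20 < N x ∧ ρ 21 < N x ∧ adj x (ρ 20) (ρ 21) = true) :
    IsB fun x ρ => BlueArc (N x) (k x) (adj x) (ρ 30) (ρ 31) (ρ 32) (ρ 33) := by
  have v : ∀ n, IsEx fun _ ρ => ρ n := isEx_var
  have hNN : IsEx fun x _ => N x * N x := hN.mul hN
  have hs : IsEx fun x _ => N x * N x + N x := hNN.add hN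
  have ht : IsEx fun x _ => N x * N x + N x + 1 := hs.add (isEx_const 1)
  have hkk : IsEx fun x _ => k x * (k x - 1) := hk.mul (hk.sub (isEx_const 1))
  exact ((isB_blue hN hadj).and (((v 31).eq (isEx_const 0)).and ((v 33).eq (isEx_const 0)))).or
    (((v 30).eq hs).and (((v 32).eq ht).and (((v 31).eq (isEx_const 0)).and
      (((isEx_const 2).mul (v 33)).lt hkk))))

theorem isPr_arc (hN : IsEx fun x _ => N x) (hk : IsEx fun x _ => k x)
    (hadj : IsB fun x ρ => ρ 20 < N x ∧ ρ 21 < N x ∧ adj x (ρ 20) (ρ 21) = true) :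
    IsPr (A := Letter) fun x ρ =>
      [some (arcN (N x) (k x) (adj x) (ρ 30) (ρ 31) (ρ 32) (ρ 33))] := by
  classical
  have h := IsPr.ite (isB_red hN) (isPr_emit (A := Letter) (some (some true)))
    (IsPr.ite (isB_blueArc hN hk hadj) (isPr_emit (A := Letter) (some (some false)))
      (isPr_emit (A := Letter) (some none)))
  refine h.congr fun x ρ => ?_
  unfold arcN
  split_ifs <;> rfl

theorem isEx_edgeCount (hN : IsEx fun x _ => N x)
    (hadj : IsB fun x ρ => ρ 20 < N x ∧ ρ 21 < N x ∧ adj x (ρ 20) (ρ 21) = true) :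
    IsEx fun x _ => edgeCount (N x) (adj x) := by
  classical
  have v : ∀ n, IsEx fun _ ρ => ρ n := isEx_var
  have h0 : IsB fun x ρ => ρ 20 < ρ 21 ∧
      (ρ 20 < N x ∧ ρ 21 < N x ∧ adj x (ρ 20) (ρ 21) = true) := ((v 20).lt (v 21)).and hadj
  have h1 := IsEx.sum 20 hN (IsEx.sum 21 hN (IsEx.ite h0 (isEx_const 1) (isEx_const 0)))
  refine h1.congr fun x ρ => ?_
  simp only [Function.update_self, ne_eq, not_false_eq_true, Function.update_of_ne,
    Nat.reduceEqDiff]
  rw [edgeCount, Finset.card_filter, Finset.sum_product]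
  refine Finset.sum_congr rfl fun i hi => Finset.sum_congr rfl fun j hj => ?_
  rw [Finset.mem_range] at hi hj
  simp only [hi, hj, true_and]

theorem isPr_inst (hN : IsEx fun x _ => N x) (hk : IsEx fun x _ => k x)
    (hadj : IsB fun x ρ => ρ 20 < N x ∧ ρ 21 < N x ∧ adj x (ρ 20) (ρ 21) = true) :
    IsPr (A := Letter) fun x _ => encInst (mkInst (N x) (k x) (adj x)) := by
  have hB : IsEx fun x _ => baseN (N x) := ((hN.mul hN).add hN).add (isEx_const 2)
  have hC : IsEx fun x _ => copies (k x) := (hk.mul hk).add (isEx_const 2)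
  have h1 := IsPr.flatMap 32 hB (IsPr.flatMap 33 hC (isPr_arc hN hk hadj))
  have h2 := IsPr.flatMap 30 hB (IsPr.flatMap 31 hC (h1.append (isPr_emit (A := Letter) none)))
  have h3 := ((((IsPr.replicate (hB.mul hC) (some none : Letter)).append
    (isPr_emit (A := Letter) none)).append h2).append
    ((IsPr.replicate hk (some none : Letter)).append (isPr_emit (A := Letter) none))).append
    ((IsPr.replicate (isEx_edgeCount hN hadj) (some none : Letter)).append
      (isPr_emit (A := Letter) none))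
  refine h3.congr fun x ρ => ?_
  simp only [Function.update_self, ne_eq, not_false_eq_true, Function.update_of_ne,
    Nat.reduceEqDiff]
  have hM := copies_pos (k x)
  unfold encInst
  congr 1
  congr 1
  congr 1
  change _ = (List.finRange (baseN (N x) * copies (k x))).flatMap fun u : Fin _ =>
    (List.finRange (baseN (N x) * copies (k x))).map (fun v : Fin _ =>
      (some (arcN (N x) (k x) (adj x) ((u : ℕ) / copies (k x)) ((u : ℕ) % copies (k x))
        ((v : ℕ) / copies (k x)) ((v : ℕ) % copies (k x))) : Letter)) ++ [none]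
  rw [flatMap_finRange (baseN (N x) * copies (k x)) fun u =>
    (List.finRange (baseN (N x) * copies (k x))).map (fun v : Fin _ =>
      (some (arcN (N x) (k x) (adj x) (u / copies (k x)) (u % copies (k x))
        ((v : ℕ) / copies (k x)) ((v : ℕ) % copies (k x))) : Letter)) ++ [none],
    flatMap_range_mul]
  refine List.flatMap_congr fun a _ => List.flatMap_congr fun c hc => ?_
  have hc' := List.mem_range.1 hc
  rw [map_finRange (baseN (N x) * copies (k x)) fun v =>
    (some (arcN (N x) (k x) (adj x) ((a * copies (k x) + c) / copies (k x))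
      ((a * copies (k x) + c) % copies (k x)) (v / copies (k x)) (v % copies (k x))) : Letter),
    flatMap_range_mul, idx_div hc', idx_mod hc']
  congr 1
  refine List.flatMap_congr fun b _ => List.flatMap_congr fun d hd => ?_
  have hd' := List.mem_range.1 hd
  rw [idx_div hd', idx_mod hd']

end arcs

/-- The directed red-blue cut problem is NP-hard. -/
theorem main : NPHard encInst HasCheapCut := by
  intro L hL
  obtain ⟨N, k, adj, hN, hk, hk2, hsymm, _, hadj, hform⟩ := NPClique.np_clique hL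
  obtain ⟨p, hp⟩ := isPr_inst hN hk hadj
  refine ⟨fun x => mkInst (N x) (k x) (adj x), ?_, fun x => ?_⟩
  · exact Pr.polyTime p encInst _ fun x => (hp x _).symm
  · rw [hform, hasCheapCut_mkInst (hk2 x) (hsymm x)]

end Pool.Agent.H68.RB
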