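import Pool.Agent.H68.RBCut

/-!
# The instance produced by the reduction
-/

namespace Pool.Agent.H68.RB

open Finset Pool.Agent.H75

/-- The instance of the red-blue cut problem. -/
noncomputable def mkInst (N k : ℕ) (adj : ℕ → ℕ → Bool) : Inst where
  n := baseN N * copies k
  arc u v := arcN N k adj (u / copies k) (u % copies k) (v / copies k) (v % copies k)
  loopless _ := arcN_self N k adj _ _
  r := k
  b := edgeCount N adj

variable {N k : ℕ} {adj : ℕ → ℕ → Bool}

theorem copies_pos (k : ℕ) : 0 < copies k := by unfold copies; omega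

theorem idx_lt {B M x c : ℕ} (hx : x < B) (hc : c < M) : x * M + c < B * M := by
  calc x * M + c < x * M + M := by omega
    _ = (x + 1) * M := by ring
    _ ≤ B * M := Nat.mul_le_mul_right _ hx

theorem idx_div {M x c : ℕ} (hc : c < M) : (x * M + c) / M = x := by
  rw [Nat.mul_comm, Nat.mul_add_div (by omega), Nat.div_eq_of_lt hc, Nat.add_zero]

theorem idx_mod {M x c : ℕ} (hc : c < M) : (x * M + c) % M = c := by
  rw [Nat.mul_comm, Nat.mul_add_mod, Nat.mod_eq_of_lt hc]

theorem cutSize_eq (Y : Set (Fin (mkInst N k adj).n)) (X : ℕ × ℕ → Prop)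
    (h : ∀ u : Fin (mkInst N k adj).n, u ∈ Y ↔ X ((u : ℕ) / copies k, (u : ℕ) % copies k))
    (c : Bool) : cutSize (mkInst N k adj) Y c = (outN N k adj X c).card := by
  classical
  have hM := copies_pos k
  have hset : {p : Fin (mkInst N k adj).n × Fin (mkInst N k adj).n |
      p.1 ∈ Y ∧ p.2 ∉ Y ∧ (mkInst N k adj).arc p.1 p.2 = some c} =
      ((Finset.univ.filter fun p => p.1 ∈ Y ∧ p.2 ∉ Y ∧ (mkInst N k adj).arc p.1 p.2 = some c :
        Finset (Fin (mkInst N k adj).n × Fin (mkInst N k adj).n)) : Set _) := by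
    ext p
    simp
  unfold cutSize
  rw [hset, Set.ncard_coe_finset]
  apply Finset.card_bij (fun p _ => ((((p.1 : ℕ) / copies k, (p.1 : ℕ) % copies k)),
    (((p.2 : ℕ) / copies k, (p.2 : ℕ) % copies k))))
  · rintro ⟨u, v⟩ hp
    simp only [mem_filter, mem_univ, true_and] at hp
    simp only [outN, VV, mem_filter, mem_product, mem_range]
    refine ⟨⟨⟨?_, Nat.mod_lt _ hM⟩, ?_, Nat.mod_lt _ hM⟩, (h u).1 hp.1, fun h' => hp.2.1 ((h v).2 h'),
      hp.2.2⟩
    · exact Nat.div_lt_of_lt_mul (by rw [Nat.mul_comm]; exact u.2)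
    · exact Nat.div_lt_of_lt_mul (by rw [Nat.mul_comm]; exact v.2)
  · rintro ⟨u, v⟩ _ ⟨u', v'⟩ _ heq
    simp only [Prod.mk.injEq] at heq
    have h1 : (u : ℕ) = u' := by
      rw [← Nat.div_add_mod (u : ℕ) (copies k), ← Nat.div_add_mod (u' : ℕ) (copies k),
        heq.1.1, heq.1.2]
    have h2 : (v : ℕ) = v' := by
      rw [← Nat.div_add_mod (v : ℕ) (copies k), ← Nat.div_add_mod (v' : ℕ) (copies k),
        heq.2.1, heq.2.2]
    exact Prod.ext (Fin.ext h1) (Fin.ext h2)
  · rintro ⟨⟨x, c'⟩, ⟨y, d⟩⟩ hp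
    simp only [outN, VV, mem_filter, mem_product, mem_range] at hp
    obtain ⟨⟨⟨hx, hc⟩, hy, hd⟩, hX, hY, harc⟩ := hp
    refine ⟨(⟨x * copies k + c', idx_lt hx hc⟩, ⟨y * copies k + d, idx_lt hy hd⟩), ?_, ?_⟩
    · simp only [mem_filter, mem_univ, true_and]
      refine ⟨(h _).2 ?_, fun h' => hY ?_, ?_⟩
      · simp only [idx_div hc, idx_mod hc]; exact hX
      · have := (h _).1 h'
        simp only [idx_div hd, idx_mod hd] at this
        exact this
      · change arcN N k adj ((x * copies k + c') / copies k) ((x * copies k + c') % copies k)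
          ((y * copies k + d) / copies k) ((y * copies k + d) % copies k) = some c
        rw [idx_div hc, idx_mod hc, idx_div hd, idx_mod hd]
        exact harc
    · simp only [idx_div hc, idx_mod hc, idx_div hd, idx_mod hd]

theorem hasCheapCut_mkInst (hk : 2 ≤ k) (hsymm : ∀ a b, adj a b = adj b a) :
    HasCheapCut (mkInst N k adj) ↔ HasClique N adj k := by
  classical
  have hM := copies_pos k
  constructor
  · rintro ⟨Y, hY1, hY2, hr, hb⟩
    let X : ℕ × ℕ → Prop := fun v => ∃ u ∈ Y, (u : ℕ) / copies k = v.1 ∧ (u : ℕ) % copies k = v.2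
    have hX : ∀ u : Fin (mkInst N k adj).n,
        u ∈ Y ↔ X ((u : ℕ) / copies k, (u : ℕ) % copies k) := by
      intro u
      constructor
      · intro h
        exact ⟨u, h, rfl, rfl⟩
      · rintro ⟨u', h', h1, h2⟩
        have h3 : (u' : ℕ) = u := by
          rw [← Nat.div_add_mod (u : ℕ) (copies k), ← Nat.div_add_mod (u' : ℕ) (copies k), h1, h2]
        rw [← Fin.ext h3]
        exact h'
    have hmem : ∀ u : Fin (mkInst N k adj).n,
        ((u : ℕ) / copies k, (u : ℕ) % copies k) ∈ VV N k := by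
      intro u
      simp only [VV, mem_product, mem_range]
      exact ⟨Nat.div_lt_of_lt_mul (by rw [Nat.mul_comm]; exact u.2), Nat.mod_lt _ hM⟩
    rw [cutSize_eq Y X hX] at hr hb
    refine clique_of_cut hk hsymm (X := X) ?_ ?_ hr hb
    · obtain ⟨u, hu⟩ := hY1
      exact ⟨_, hmem u, (hX u).1 hu⟩
    · obtain ⟨u, hu⟩ : ∃ u, u ∉ Y := by
        by_contra hcon
        push Not at hcon
        exact hY2 (Set.eq_univ_iff_forall.2 hcon)
      exact ⟨_, hmem u, fun h => hu ((hX u).2 h)⟩
  · intro h
    obtain ⟨X, ⟨v, hv, hXv⟩, ⟨w, hw, hXw⟩, hr, hb⟩ := cut_of_clique h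
    let Y : Set (Fin (mkInst N k adj).n) :=
      {u | X ((u : ℕ) / copies k, (u : ℕ) % copies k)}
    have hY : ∀ u : Fin (mkInst N k adj).n,
        u ∈ Y ↔ X ((u : ℕ) / copies k, (u : ℕ) % copies k) := fun u => Iff.rfl
    simp only [VV, mem_product, mem_range] at hv hw
    refine ⟨Y, ⟨⟨v.1 * copies k + v.2, idx_lt hv.1 hv.2⟩, (hY _).2 ?_⟩, ?_, ?_, ?_⟩
    · simp only [idx_div hv.2, idx_mod hv.2]
      exact hXv
    · intro h
      have h1 : (⟨w.1 * copies k + w.2, idx_lt hw.1 hw.2⟩ : Fin (mkInst N k adj).n) ∈ Y := by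
        rw [h]; exact Set.mem_univ _
      have h2 := (hY _).1 h1
      simp only [idx_div hw.2, idx_mod hw.2] at h2
      exact hXw h2
    · rw [cutSize_eq Y X hY]
      exact hr
    · rw [cutSize_eq Y X hY]
      exact hb

/-! ## Writing the instance -/

theorem flatMap_finRange {α : Type} (n : ℕ) (f : ℕ → List α) :
    ((List.finRange n).flatMap fun u : Fin n => f (u : ℕ)) = (List.range n).flatMap f := by
  have h : List.range n = (List.finRange n).map fun u : Fin n => (u : ℕ) :=
    (List.map_coe_finRange_eq_range).symm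
  rw [h, List.flatMap_map]

theorem map_finRange {α : Type} (n : ℕ) (f : ℕ → α) :
    ((List.finRange n).map fun u : Fin n => f (u : ℕ)) = (List.range n).flatMap fun u => [f u] := by
  have h : List.range n = (List.finRange n).map fun u : Fin n => (u : ℕ) :=
    (List.map_coe_finRange_eq_range).symm
  rw [h, List.flatMap_map]
  induction List.finRange n with
  | nil => rfl
  | cons a l ih => simp [ih]

theorem flatMap_range_mul {α : Type} (B M : ℕ) (g : ℕ → List α) :
    (List.range (B * M)).flatMap g =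
      (List.range B).flatMap fun x => (List.range M).flatMap fun c => g (x * M + c) := by
  induction B with
  | zero => simp
  | succ B ih =>
    rw [Nat.succ_mul, List.range_add, List.flatMap_append, ih, List.range_succ,
      List.flatMap_append, List.flatMap_map]
    simp

end Pool.Agent.H68.RB
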